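import Pool.Agent.H252.MD.Iface

/-!
# Project MD (helper252): marker functions (task MD-MARK)
-/

set_option autoImplicit false

namespace Pool.Agent.H658.MD

open Pool.Agent.H252.MD Topology

lemma zt_add (a b : ℤ) : zt (a + b) = zt a * zt b := by unfold zt; exact ofAdd_add a b

lemma zt_pow (a b : ℤ) : zt (a * b) = zt a ^ b := by
  unfold zt
  rw [← ofAdd_zsmul, smul_eq_mul, mul_comm]

/-- the orbit of a point of an infinite minimal system is infinite -/
lemma ne_of_min {Y : Type} [TopologicalSpace Y] [T1Space Y] [Infinite Y] [MulAction Zm Y]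
    {y₀ : Y} (hd : Dense (Set.range fun z : Zm => z • y₀)) {i : ℕ} (hi : 1 ≤ i) :
    zt (i : ℤ) • y₀ ≠ y₀ := by
  intro h
  have hs : zt (i : ℤ) ∈ MulAction.stabilizer Zm y₀ := h
  have hsub : (Set.range fun z : Zm => z • y₀) ⊆ (fun j : ℕ => zt (j : ℤ) • y₀) '' (Set.Iio i) := by
    rintro _ ⟨z, rfl⟩
    obtain ⟨m, hm⟩ : ∃ m : ℤ, z = zt m := ⟨Multiplicative.toAdd z, rfl⟩
    have hi0 : (i : ℤ) ≠ 0 := by omega
    have h1 : m = (m % i) + (i : ℤ) * (m / i) := (Int.emod_add_mul_ediv m i).symm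
    have h2 : 0 ≤ m % i := Int.emod_nonneg _ hi0
    have h3 : m % i < i := Int.emod_lt_of_pos _ (by omega)
    have h4 : zt ((i : ℤ) * (m / i)) • y₀ = y₀ := by
      rw [zt_pow]
      exact (MulAction.stabilizer Zm y₀).zpow_mem hs _
    refine ⟨(m % i).toNat, ?_, ?_⟩
    · rw [Set.mem_Iio]; omega
    · show zt (((m % i).toNat : ℕ) : ℤ) • y₀ = z • y₀
      rw [Int.toNat_of_nonneg h2, hm]
      conv_rhs => rw [h1, zt_add, mul_smul, h4]
  have hfin : (Set.range fun z : Zm => z • y₀).Finite := ((Set.finite_Iio i).image _).subset hsub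
  have huniv : (Set.range fun z : Zm => z • y₀) = Set.univ := by
    rw [← hfin.isClosed.closure_eq]
    exact hd.closure_eq
  rw [huniv] at hfin
  exact Set.infinite_univ hfin

/-- a ball which is disjoint from its first `N` translates -/
lemma exists_ball {Y : Type} [MetricSpace Y] [Infinite Y] [MulAction Zm Y] [ContinuousConstSMul Zm Y]
    {y₀ : Y} (hd : Dense (Set.range fun z : Zm => z • y₀)) (N : ℕ) :
    ∃ ε : ℝ, 0 < ε ∧ ∀ a b : Y, dist a y₀ < ε → dist b y₀ < ε → ∀ i : ℕ, 1 ≤ i → i ≤ N →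
      zt (i : ℤ) • a ≠ b := by
  have h1 : ∀ᶠ p in 𝓝 (y₀, y₀), ∀ i ∈ Finset.Icc 1 N, zt (i : ℤ) • p.1 ≠ p.2 := by
    rw [Filter.eventually_all_finset]
    intro i hi
    have hi1 : 1 ≤ i := (Finset.mem_Icc.1 hi).1
    have hc : Continuous fun p : Y × Y => zt (i : ℤ) • p.1 := continuous_fst.const_smul _
    exact (isOpen_ne_fun hc continuous_snd).mem_nhds (ne_of_min hd hi1)
  obtain ⟨ε, hε, h2⟩ := Metric.eventually_nhds_iff.1 h1
  refine ⟨ε, hε, fun a b ha hb i hi hi' => ?_⟩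
  exact h2 (y := (a, b)) (by rw [Prod.dist_eq]; exact max_lt ha hb) i (Finset.mem_Icc.2 ⟨hi, hi'⟩)

/-- uniform return to an open set -/
lemma exists_return {Y : Type} [TopologicalSpace Y] [CompactSpace Y] [MulAction Zm Y]
    [ContinuousConstSMul Zm Y] (hd : ∀ y : Y, Dense (Set.range fun z : Zm => z • y)) {V : Set Y}
    (hV : IsOpen V) (hne : V.Nonempty) : ∃ L : ℕ, ∀ y : Y, ∃ i : ℕ, 1 ≤ i ∧ i ≤ L ∧
      zt (i : ℤ) • y ∈ V := by
  have hcov : (Set.univ : Set Y) ⊆ ⋃ m : ℤ, (fun y => zt m • y) ⁻¹' V := by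
    intro y _
    obtain ⟨_, hv, z, rfl⟩ := (hd y).inter_open_nonempty V hV hne
    exact Set.mem_iUnion.2 ⟨Multiplicative.toAdd z, hv⟩
  obtain ⟨t, ht⟩ := isCompact_univ.elim_finite_subcover _
    (fun m : ℤ => hV.preimage (continuous_const_smul (zt m))) hcov
  obtain ⟨M, hM⟩ : ∃ M : ℕ, ∀ m ∈ t, m.natAbs ≤ M :=
    ⟨t.sup Int.natAbs, fun m hm => Finset.le_sup (f := Int.natAbs) hm⟩
  refine ⟨2 * M + 1, fun y => ?_⟩
  have h1 := ht (Set.mem_univ (zt ((M : ℤ) + 1) • y))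
  rw [Set.mem_iUnion₂] at h1
  obtain ⟨m, hm, h2⟩ := h1
  have h3 := hM m hm
  refine ⟨(m + (M + 1)).toNat, by omega, by omega, ?_⟩
  rw [Int.toNat_of_nonneg (by omega), zt_add, mul_smul]
  exact h2

theorem s_MARK : S_MARK := by
  intro X Y _ _ _ _ _ _ _ g hg hd N
  obtain ⟨y₀⟩ : Nonempty Y := inferInstance
  obtain ⟨ε, hε, hU⟩ := exists_ball (hd y₀) N
  obtain ⟨L, hL⟩ := exists_return hd (V := Metric.ball y₀ (ε / 2)) Metric.isOpen_ball
    ⟨y₀, Metric.mem_ball_self (by positivity)⟩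
  have hcont : Continuous fun x : X => max 0 (min 1 (2 - 2 * dist (g x) y₀ / ε)) := by
    have : Continuous fun x : X => dist (g x) y₀ := g.continuous.dist continuous_const
    fun_prop
  have hne : ∀ x : X, max 0 (min 1 (2 - 2 * dist (g x) y₀ / ε)) ≠ 0 → dist (g x) y₀ < ε := by
    intro x hx
    by_contra h
    push Not at h
    apply hx
    have h1 : 2 ≤ 2 * dist (g x) y₀ / ε := by
      rw [le_div_iff₀ hε]; linarith
    exact max_eq_left ((min_le_right _ _).trans (by linarith))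
  refine ⟨⟨_, hcont⟩, L, ⟨fun x => le_max_left _ _, fun x => max_le zero_le_one (min_le_left _ _),
    ?_, ?_⟩⟩
  · intro x i hi hiN hx
    by_contra h
    exact hU (g x) (g (zt i • x)) (hne _ hx) (hne _ h) i hi hiN (hg _ _).symm
  · intro x
    obtain ⟨i, hi, hiL, hi2⟩ := hL (g x)
    refine ⟨i, hi, hiL, ?_⟩
    show max 0 (min 1 (2 - 2 * dist (g (zt i • x)) y₀ / ε)) = 1
    rw [← hg, Metric.mem_ball] at hi2
    have h1 : 2 * dist (g (zt i • x)) y₀ / ε ≤ 1 := by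
      rw [div_le_iff₀ hε]; linarith
    rw [min_eq_left (by linarith)]
    exact max_eq_right zero_le_one

end Pool.Agent.H658.MD
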