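import Pool.Agent.H283.HT.Stm

/-!
# Project HT (helper283): `LIGHT`, a sufficient condition for a direction to light a point
-/

set_option autoImplicit false

namespace Pool.Agent.H658.HTLIGHT

open Pool.Agent.H283.HT

/-- Upper points close to `s = 0` of a convex set of the plane. -/
theorem upper (S : Set (ℝ × ℝ)) (hS : Convex ℝ S) (z k s₀ ζ₀ s₁ z₁ : ℝ)
    (hz : ((0 : ℝ), z) ∈ S) (hs₀ : 0 < s₀) (hζ₀ : (s₀, ζ₀) ∈ S)
    (hs₁ : 0 ≤ s₁) (hz₁ : (s₁, z₁) ∈ S) (hk : z + s₁ * k < z₁) :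
    ∃ δ : ℝ, 0 < δ ∧ ∀ s : ℝ, 0 < s → s ≤ δ → ∃ ζ : ℝ, z + s * k < ζ ∧ (s, ζ) ∈ S := by
  rcases hs₁.lt_or_eq with h1 | h1
  · refine ⟨s₁, h1, ?_⟩
    intro s hs hs1
    obtain ⟨l, hl⟩ : ∃ l : ℝ, l = s / s₁ := ⟨_, rfl⟩
    have hls : l * s₁ = s := by rw [hl]; field_simp
    have hl0 : 0 < l := by rw [hl]; positivity
    have hl1 : l ≤ 1 := by rw [hl, div_le_one h1]; exact hs1
    refine ⟨(1 - l) * z + l * z₁, ?_, ?_⟩
    · have : l * (z + s₁ * k) < l * z₁ := mul_lt_mul_of_pos_left hk hl0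
      have h2 : l * (z + s₁ * k) = l * z + s * k := by rw [← hls]; ring
      linarith
    · have := hS hz hz₁ (show (0 : ℝ) ≤ 1 - l by linarith) hl0.le (by ring)
      have h3 : (1 - l) • ((0 : ℝ), z) + l • (s₁, z₁) = (s, (1 - l) * z + l * z₁) := by
        ext
        · simp [hls]
        · simp
      rw [h3] at this
      exact this
  · rw [← h1] at hz₁ hk
    have hzz : 0 < z₁ - z := by linarith
    obtain ⟨A, hA⟩ : ∃ A : ℝ, A = |s₀ * k + z₁ - ζ₀| := ⟨_, rfl⟩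
    have hA0 : 0 ≤ A := by rw [hA]; exact abs_nonneg _
    have hA1 : s₀ * k + z₁ - ζ₀ ≤ A := by rw [hA]; exact le_abs_self _
    obtain ⟨μ, hμ⟩ : ∃ μ : ℝ, μ = min 1 ((z₁ - z) / (A + 1)) := ⟨_, rfl⟩
    have hμ0 : 0 < μ := by rw [hμ]; exact lt_min one_pos (by positivity)
    have hμ1 : μ ≤ 1 := by rw [hμ]; exact min_le_left _ _
    have hμ2 : μ * (A + 1) ≤ z₁ - z := by
      have : μ ≤ (z₁ - z) / (A + 1) := by rw [hμ]; exact min_le_right _ _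
      rwa [le_div_iff₀ (by linarith)] at this
    refine ⟨s₀ * μ, by positivity, ?_⟩
    intro s hs hs1
    obtain ⟨l, hl⟩ : ∃ l : ℝ, l = s / s₀ := ⟨_, rfl⟩
    have hls : l * s₀ = s := by rw [hl]; field_simp
    have hl0 : 0 < l := by rw [hl]; positivity
    have hl1 : l ≤ μ := by
      rw [hl, div_le_iff₀ hs₀]
      linarith [mul_comm s₀ μ]
    refine ⟨(1 - l) * z₁ + l * ζ₀, ?_, ?_⟩
    · have e1 : l * (s₀ * k + z₁ - ζ₀) ≤ l * A := mul_le_mul_of_nonneg_left hA1 hl0.le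
      have e2 : l * (A + 1) ≤ μ * (A + 1) := mul_le_mul_of_nonneg_right hl1 (by linarith)
      have e3 : l * (s₀ * k + z₁ - ζ₀) = s * k + l * z₁ - l * ζ₀ := by rw [← hls]; ring
      have e4 : l * (A + 1) = l * A + l := by ring
      linarith
    · have := hS hz₁ hζ₀ (show (0 : ℝ) ≤ 1 - l by linarith) hl0.le (by ring)
      have h3 : (1 - l) • ((0 : ℝ), z₁) + l • (s₀, ζ₀) = (s, (1 - l) * z₁ + l * ζ₀) := by
        ext
        · simp [hls]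
        · simp
      rw [h3] at this
      exact this

theorem LIGHT_done (hSH : S_SH) (hINT : S_INT) : S_LIGHT := by
  intro K hK p w z k s₀ s₁ z₁ s₂ z₂ hp hs₀ hint hs₁ hz₁ hk₁ hs₂ hz₂ hk₂
  obtain ⟨hD, _⟩ := hSH K hK
  obtain ⟨⟨x0, x1⟩, hx, hx'⟩ := interior_subset hint
  have hx0 : x0 = p + s₀ • w := hx'
  subst hx0
  obtain ⟨S, hSdef⟩ : ∃ S : Set (ℝ × ℝ), S = {a | ((p + a.1 • w, a.2) : P3) ∈ K} := ⟨_, rfl⟩
  have hmem : ∀ a b : ℝ, (a, b) ∈ S ↔ ((p + a • w, b) : P3) ∈ K := by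
    intro a b; rw [hSdef]; rfl
  have hS : Convex ℝ S := by
    rintro ⟨a1, a2⟩ ha ⟨b1, b2⟩ hb α β hα hβ hαβ
    rw [hmem] at ha hb
    have h1 := hK.conv ha hb hα hβ hαβ
    have h2 : α • ((p + a1 • w, a2) : P3) + β • ((p + b1 • w, b2) : P3) =
        (p + (α * a1 + β * b1) • w, α * a2 + β * b2) := by
      have hβ' : β = 1 - α := by linarith
      subst hβ'
      ext
      · simp; ring
      · simp; ring
      · simp
    rw [h2] at h1
    have h3 : α • ((a1, a2) : ℝ × ℝ) + (β • ((b1, b2) : ℝ × ℝ)) =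
        (α * a1 + β * b1, α * a2 + β * b2) := by
      ext
      · simp
      · simp
    rw [h3, hmem]
    exact h1
  have hz0 : ((0 : ℝ), z) ∈ S := by
    rw [hmem]; simpa using hp
  obtain ⟨δ₁, hδ₁, H1⟩ := upper S hS z k s₀ x1 s₁ z₁ hz0 hs₀ ((hmem _ _).2 hx) hs₁
    ((hmem _ _).2 hz₁) hk₁
  obtain ⟨S', hS'def⟩ : ∃ S' : Set (ℝ × ℝ), S' = {a | (a.1, -a.2) ∈ S} := ⟨_, rfl⟩
  have hmem' : ∀ a b : ℝ, (a, b) ∈ S' ↔ (a, -b) ∈ S := by
    intro a b; rw [hS'def]; rfl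
  have hS' : Convex ℝ S' := by
    rintro ⟨a1, a2⟩ ha ⟨b1, b2⟩ hb α β hα hβ hαβ
    rw [hmem'] at ha hb
    have h1 := hS ha hb hα hβ hαβ
    have h3 : α • ((a1, a2) : ℝ × ℝ) + (β • ((b1, b2) : ℝ × ℝ)) =
        (α * a1 + β * b1, α * a2 + β * b2) := by
      ext
      · simp
      · simp
    have h4 : α • ((a1, -a2) : ℝ × ℝ) + (β • ((b1, -b2) : ℝ × ℝ)) =
        (α * a1 + β * b1, -(α * a2 + β * b2)) := by
      ext
      · simp
      · simp; ring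
    rw [h4] at h1
    rw [h3, hmem']
    exact h1
  obtain ⟨δ₂, hδ₂, H2⟩ := upper S' hS' (-z) (-k) s₀ (-x1) s₂ (-z₂)
    (by rw [hmem', neg_neg]; exact hz0) hs₀
    (by rw [hmem', neg_neg]; exact (hmem _ _).2 hx) hs₂
    (by rw [hmem', neg_neg]; exact (hmem _ _).2 hz₂) (by linarith)
  obtain ⟨s, hs⟩ : ∃ s : ℝ, s = min s₀ (min δ₁ δ₂) := ⟨_, rfl⟩
  have hs0 : 0 < s := by rw [hs]; exact lt_min hs₀ (lt_min hδ₁ hδ₂)
  have hsa : s ≤ s₀ := by rw [hs]; exact min_le_left _ _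
  have hsb : s ≤ δ₁ := by rw [hs]; exact (min_le_right _ _).trans (min_le_left _ _)
  have hsc : s ≤ δ₂ := by rw [hs]; exact (min_le_right _ _).trans (min_le_right _ _)
  obtain ⟨ζ₁, hζ₁, hζ₁'⟩ := H1 s hs0 hsb
  obtain ⟨ζ₂, hζ₂, hζ₂'⟩ := H2 s hs0 hsc
  rw [hmem] at hζ₁'
  rw [hmem', hmem] at hζ₂'
  have hint' : p + s • w ∈ interior (Sh K) := by
    obtain ⟨l, hl⟩ : ∃ l : ℝ, l = s / s₀ := ⟨_, rfl⟩
    have hls : l * s₀ = s := by rw [hl]; field_simp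
    have hl0 : 0 < l := by rw [hl]; positivity
    have hl1 : l ≤ 1 := by rw [hl, div_le_one hs₀]; exact hsa
    have hpS : p ∈ Sh K := ⟨(p, z), hp, rfl⟩
    have h1 := hD.conv.combo_interior_self_mem_interior hint hpS hl0
      (show (0 : ℝ) ≤ 1 - l by linarith) (by ring)
    have h2 : l • (p + s₀ • w) + (1 - l) • p = p + s • w := by
      rw [smul_add, smul_smul, hls, sub_smul, one_smul]
      abel
    rw [h2] at h1
    exact h1
  have hfin := hINT K hK (p + s • w) (-ζ₂) (z + s * k) ζ₁ hint' hζ₂' hζ₁' (by linarith) hζ₁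
  refine ⟨s, hs0, ?_⟩
  have h5 : ((p, z) : P3) + s • ((w, k) : P3) = (p + s • w, z + s * k) := by
    ext
    · simp
    · simp
    · simp
  rw [h5]
  exact hfin

end Pool.Agent.H658.HTLIGHT
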