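import Pool.Agent.H402.HD.Stm

/-!
# Project HD (helper402): `S_h2`
-/

set_option autoImplicit false

open Finset Pool.Agent.H402.HD

namespace Pool.Agent.H658.HD_H2

universe u

/-- The extended index vectors. -/
def bb {d k : ℕ} {X : Fin (d + 1) → Type} (a : ∀ α, Fin k → X α) (x : ∀ α, X α) :
    ∀ α, Fin (k + 1) → X α := fun α => Fin.cons (x α) (a α)

theorem bb_congr {d k : ℕ} {X : Fin (d + 1) → Type} (a : ∀ α, Fin k → X α) (x y : ∀ α, X α)
    (α : Fin (d + 1)) (j : Fin (k + 1)) (h : j = 0 → x α = y α) : bb a x α j = bb a y α j := by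
  induction j using Fin.cases with
  | zero => exact h rfl
  | succ i => rfl

/-- The factor of the row `0`. -/
def ff {F : Type u} {d k : ℕ} {X : Fin (d + 1) → Type} (T : (∀ α, X α) → F)
    (a : ∀ α, Fin k → X α) (p : Fin d → Fin (k + 1)) (x : ∀ α, X α) : F :=
  T fun α => bb a x α ((Fin.cons 0 p : Fin (d + 1) → Fin (k + 1)) α)

/-- The sum of the other factors. -/
def gg {F : Type u} [Field F] {d k : ℕ} {X : Fin (d + 1) → Type} (T : (∀ α, X α) → F)
    (a : ∀ α, Fin k → X α) (p : Fin d → Fin (k + 1)) (x : ∀ α, X α) : F :=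
  ∑ σ : Fin d → Equiv.Perm (Fin (k + 1)) with (fun β => σ β 0) = p,
    (∏ α, ((Equiv.Perm.sign (σ α) : ℤ) : F)) *
      ∏ i : Fin k, T fun α => bb a x α
        ((Fin.cons i.succ (fun β => σ β i.succ) : Fin (d + 1) → Fin (k + 1)) α)

theorem hdet_split {F : Type u} [Field F] {d k : ℕ} {X : Fin (d + 1) → Type} (T : (∀ α, X α) → F)
    (a : ∀ α, Fin k → X α) (x : ∀ α, X α) :
    hdet (fun i : Fin (d + 1) → Fin (k + 1) => T fun α => bb a x α (i α)) =
      ∑ p : Fin d → Fin (k + 1), ff T a p x * gg T a p x := by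
  unfold hdet
  rw [← Finset.sum_fiberwise (s := univ) (g := fun (σ : Fin d → Equiv.Perm (Fin (k + 1))) =>
    (fun β => σ β 0 : Fin d → Fin (k + 1)))]
  refine Finset.sum_congr rfl fun p _ => ?_
  unfold gg
  rw [Finset.mul_sum]
  refine Finset.sum_congr rfl fun σ hσ => ?_
  have hp : (fun β => σ β 0) = p := (Finset.mem_filter.1 hσ).2
  rw [Fin.prod_univ_succ, hp]
  unfold ff
  ring

theorem ff_zero {F : Type u} {d k : ℕ} {X : Fin (d + 1) → Type} (T : (∀ α, X α) → F)
    (a : ∀ α, Fin k → X α) (x : ∀ α, X α) : ff T a 0 x = T x := by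
  unfold ff
  have h1 : (fun α => bb a x α ((Fin.cons 0 0 : Fin (d + 1) → Fin (k + 1)) α)) = x := by
    funext α
    induction α using Fin.cases with
    | zero => rfl
    | succ i => rfl
  rw [h1]

theorem gg_zero {F : Type u} [Field F] {d k : ℕ} {X : Fin (d + 1) → Type} (T : (∀ α, X α) → F)
    (a : ∀ α, Fin k → X α) (x : ∀ α, X α) :
    gg T a 0 x = hdet (fun i => T fun α => a α (i α)) := by
  unfold gg hdet
  symm
  refine Finset.sum_nbij' (fun τ β => Equiv.Perm.decomposeFin.symm (0, τ β))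
    (fun σ β => (Equiv.Perm.decomposeFin (σ β)).2) ?_ ?_ ?_ ?_ ?_
  · intro τ _
    rw [Finset.mem_filter]
    refine ⟨Finset.mem_univ _, ?_⟩
    funext β
    exact Equiv.Perm.decomposeFin_symm_apply_zero 0 (τ β)
  · intro σ _
    exact Finset.mem_univ _
  · intro τ _
    funext β
    rw [Equiv.apply_symm_apply]
  · intro σ hσ
    have hp : (fun β => σ β 0) = (0 : Fin d → Fin (k + 1)) := (Finset.mem_filter.1 hσ).2
    funext β
    have h1 : (Equiv.Perm.decomposeFin (σ β)).1 = 0 := by
      have h2 : σ β 0 = 0 := congrFun hp β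
      have h3 := Equiv.Perm.decomposeFin_symm_apply_zero (Equiv.Perm.decomposeFin (σ β)).1
        (Equiv.Perm.decomposeFin (σ β)).2
      rw [Prod.mk.eta, Equiv.symm_apply_apply] at h3
      rw [← h3, h2]
    have h4 : ((0 : Fin (k + 1)), (Equiv.Perm.decomposeFin (σ β)).2) =
        Equiv.Perm.decomposeFin (σ β) := by
      rw [← h1]
    show Equiv.Perm.decomposeFin.symm ((0 : Fin (k + 1)), (Equiv.Perm.decomposeFin (σ β)).2) = σ β
    rw [h4, Equiv.symm_apply_apply]
  · intro τ _
    have hsign : ∀ β, Equiv.Perm.sign (Equiv.Perm.decomposeFin.symm ((0 : Fin (k + 1)), τ β)) =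
        Equiv.Perm.sign (τ β) := by
      intro β
      rw [Equiv.Perm.decomposeFin.symm_sign, if_pos rfl, one_mul]
    have hval : ∀ β i, Equiv.Perm.decomposeFin.symm ((0 : Fin (k + 1)), τ β) i.succ =
        (τ β i).succ := by
      intro β i
      rw [Equiv.Perm.decomposeFin_symm_apply_succ, Equiv.swap_self]
      rfl
    simp only [hsign, hval]
    refine congrArg _ (Finset.prod_congr rfl fun i _ => congrArg T ?_)
    funext α
    induction α using Fin.cases with
    | zero => rfl
    | succ β => rfl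

theorem ff_dep {F : Type u} {d k : ℕ} {X : Fin (d + 1) → Type} (T : (∀ α, X α) → F)
    (a : ∀ α, Fin k → X α) (p : Fin d → Fin (k + 1)) (x y : ∀ α, X α)
    (h : ∀ α, (Fin.cons 0 p : Fin (d + 1) → Fin (k + 1)) α = 0 → x α = y α) :
    ff T a p x = ff T a p y := by
  unfold ff
  exact congrArg T (funext fun α => bb_congr a x y α _ (h α))

theorem gg_dep {F : Type u} [Field F] {d k : ℕ} {X : Fin (d + 1) → Type} (T : (∀ α, X α) → F)
    (a : ∀ α, Fin k → X α) (p : Fin d → Fin (k + 1)) (x y : ∀ α, X α)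
    (h : ∀ α, (Fin.cons 0 p : Fin (d + 1) → Fin (k + 1)) α ≠ 0 → x α = y α) :
    gg T a p x = gg T a p y := by
  unfold gg
  refine Finset.sum_congr rfl fun σ hσ => ?_
  have hp : (fun β => σ β 0) = p := (Finset.mem_filter.1 hσ).2
  refine congrArg _ (Finset.prod_congr rfl fun i _ => congrArg T ?_)
  funext α
  refine bb_congr a x y α _ ?_
  induction α using Fin.cases with
  | zero =>
    intro h0
    exact absurd h0 (Fin.succ_ne_zero i)
  | succ β =>
    intro h0
    refine h _ ?_
    intro h1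
    have h2 : σ β i.succ = 0 := h0
    have h3 : σ β 0 = 0 := by rw [← hp] at h1; exact h1
    exact Fin.succ_ne_zero i ((σ β).injective (h2.trans h3.symm))

theorem holds : S_h2.{u} := by
  intro F _ d k X T a hD hb
  classical
  set D := hdet (fun i => T fun α => a α (i α)) with hDdef
  have hsum : ∀ x, T x * D + ∑ p ∈ univ.erase (0 : Fin d → Fin (k + 1)),
      ff T a p x * gg T a p x = 0 := by
    intro x
    have h1 := hb (bb a x)
    rw [hdet_split, ← Finset.add_sum_erase _ _ (Finset.mem_univ (0 : Fin d → Fin (k + 1))),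
      ff_zero, gg_zero] at h1
    exact h1
  have hcard : (univ.erase (0 : Fin d → Fin (k + 1))).card < (k + 1) ^ d := by
    have h1 : (univ : Finset (Fin d → Fin (k + 1))).card = (k + 1) ^ d := by
      rw [Finset.card_univ, Fintype.card_fun, Fintype.card_fin, Fintype.card_fin]
    rw [← h1]
    exact Finset.card_lt_card (Finset.erase_ssubset (Finset.mem_univ _))
  have e := (univ.erase (0 : Fin d → Fin (k + 1))).equivFin
  refine ⟨_, hcard, fun t => univ.filter (fun α => (Fin.cons 0 (e.symm t).1 :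
    Fin (d + 1) → Fin (k + 1)) α = 0), fun t => ff T a (e.symm t).1,
    fun t x => -(D⁻¹) * gg T a (e.symm t).1 x, ?_, ?_, ?_, ?_⟩
  · intro t
    constructor
    · refine ⟨0, ?_⟩
      rw [Finset.mem_filter]
      exact ⟨Finset.mem_univ _, rfl⟩
    · intro hu
      refine (Finset.mem_erase.1 (e.symm t).2).1 ?_
      funext β
      have h1 : β.succ ∈ univ.filter (fun α => (Fin.cons 0 (e.symm t).1 :
          Fin (d + 1) → Fin (k + 1)) α = 0) := by
        have hu' : univ.filter (fun α => (Fin.cons 0 (e.symm t).1 :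
          Fin (d + 1) → Fin (k + 1)) α = 0) = univ := hu
        rw [hu']; exact Finset.mem_univ _
      exact (Finset.mem_filter.1 h1).2
  · intro t x y h
    refine ff_dep T a _ x y fun α hα => h α ?_
    rw [Finset.mem_filter]
    exact ⟨Finset.mem_univ _, hα⟩
  · intro t x y h
    have h1 : gg T a (e.symm t).1 x = gg T a (e.symm t).1 y := by
      refine gg_dep T a _ x y fun α hα => h α ?_
      rw [Finset.mem_filter]
      exact fun h2 => hα h2.2
    show -(D⁻¹) * gg T a (e.symm t).1 x = -(D⁻¹) * gg T a (e.symm t).1 y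
    rw [h1]
  · intro x
    have h1 := hsum x
    have h2 : ∑ p ∈ univ.erase (0 : Fin d → Fin (k + 1)), ff T a p x * gg T a p x =
        ∑ t, ff T a (e.symm t).1 x * gg T a (e.symm t).1 x := by
      rw [← Finset.sum_coe_sort]
      exact (Equiv.sum_comp e.symm
        (fun p : (univ.erase (0 : Fin d → Fin (k + 1)) : Finset _) =>
          ff T a p.1 x * gg T a p.1 x)).symm
    rw [h2] at h1
    have h3 : T x = -(D⁻¹) * ∑ t, ff T a (e.symm t).1 x * gg T a (e.symm t).1 x := by
      have h4 : T x * D = -(∑ t, ff T a (e.symm t).1 x * gg T a (e.symm t).1 x) :=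
        eq_neg_of_add_eq_zero_left h1
      have h5 : T x = (T x * D) * D⁻¹ := by rw [mul_assoc, mul_inv_cancel₀ hD, mul_one]
      rw [h5, h4]
      ring
    rw [h3, Finset.mul_sum]
    refine Finset.sum_congr rfl fun t _ => ?_
    ring

end Pool.Agent.H658.HD_H2
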