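import Pool.Agent.H465.OC.StmA

/-!
# Project OC, task A3: represented functions are Lipschitz
-/

set_option autoImplicit false

namespace Pool.Agent.H658.OCRelLip

open Polynomial
open Pool.Agent.H465.OC

theorem unit_of_close {p : ℕ} [Fact p.Prime] (h : ℤ_[p][X]) (x c : ℤ_[p])
    (hx : (p : ℤ_[p]) ∣ x - c) (hc : IsUnit (h.eval c)) : IsUnit (h.eval x) := by
  by_contra hn
  have h1 : ‖h.eval x‖ < 1 := PadicInt.not_isUnit_iff.mp hn
  have h2 : (p : ℤ_[p]) ∣ h.eval x := (PadicInt.norm_lt_one_iff_dvd _).mp h1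
  have h3 : (p : ℤ_[p]) ∣ h.eval x - h.eval c := hx.trans (Polynomial.sub_dvd_eval_sub x c h)
  have h4 : (p : ℤ_[p]) ∣ h.eval c := by
    have h5 := dvd_sub h2 h3
    rwa [sub_sub_cancel] at h5
  have h6 : ‖h.eval c‖ < 1 := (PadicInt.norm_lt_one_iff_dvd _).mpr h4
  rw [PadicInt.isUnit_iff.mp hc] at h6
  exact lt_irrefl _ h6

theorem main : RelLip := by
  intro p _ B _ _ j c F s H x y m hx hy hxy
  obtain ⟨g, h, hu, _, hF⟩ := H m
  have h1 := hF x hx
  have h2 := hF y hy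
  have h3 : (p : ℤ_[p]) ^ m ∣ h.eval x - h.eval y := hxy.trans (Polynomial.sub_dvd_eval_sub x y h)
  have h4 : (p : ℤ_[p]) ^ m ∣ g.eval x - g.eval y := hxy.trans (Polynomial.sub_dvd_eval_sub x y g)
  have h5 : h.eval x * (F x - F y) = ((h.eval x * F x - g.eval x) - (h.eval y * F y - g.eval y)) +
      (g.eval x - g.eval y) - (h.eval x - h.eval y) * F y := by ring
  have h6 : (p : ℤ_[p]) ^ m ∣ h.eval x * (F x - F y) := by
    rw [h5]
    exact dvd_sub (dvd_add (dvd_sub h1 h2) h4) (h3.mul_right _)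
  exact (unit_of_close h x c hx hu).dvd_mul_left.mp h6

end Pool.Agent.H658.OCRelLip
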