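import Mathlib
import Pool.Agent.H576.RD.Stm

/-!
# D4b2 (regularity radius of Delone sets in 3-space): items (4)-(6) of D4b
-/

set_option autoImplicit false

open Real Pool.Agent.H576.RD

namespace Pool.Agent.H658

/-- The eight vectors of the crown. -/
noncomputable def d4n (ϱ h : ℝ) (k : ℕ) : E :=
  !₂[ϱ * Real.cos (k * (π / 4)), ϱ * Real.sin (k * (π / 4)), (-1) ^ k * h]

theorem d4n_add8 (ϱ h : ℝ) (k q : ℕ) : d4n ϱ h (k + 8 * q) = d4n ϱ h k := by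
  have h1 : ((k + 8 * q : ℕ) : ℝ) * (π / 4) = (k : ℝ) * (π / 4) + (q : ℝ) * (2 * π) := by
    push_cast; ring
  unfold d4n
  rw [h1, Real.cos_add_nat_mul_two_pi, Real.sin_add_nat_mul_two_pi, pow_add, pow_mul]
  norm_num

theorem d4n_red (ϱ h : ℝ) (j k : ℕ) : ∃ m : ℕ, m < 8 ∧ d4n ϱ h j = d4n ϱ h (k + m) := by
  refine ⟨(j + 7 * k) % 8, Nat.mod_lt _ (by norm_num), ?_⟩
  have h1 : k + (j + 7 * k) % 8 + 8 * ((j + 7 * k) / 8) = j + 8 * k := by omega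
  rw [← d4n_add8 ϱ h j k, ← h1, d4n_add8]

theorem inner3 (u v : E) : inner ℝ u v = u 0 * v 0 + u 1 * v 1 + u 2 * v 2 := by
  rw [PiLp.inner_apply, Fin.sum_univ_three]
  simp [mul_comm]

theorem normsq3 (u : E) : ‖u‖ ^ 2 = u 0 ^ 2 + u 1 ^ 2 + u 2 ^ 2 := by
  rw [← real_inner_self_eq_norm_sq, inner3]; ring

theorem cos_pi4 : Real.cos (π / 4) = √2 / 2 := Real.cos_pi_div_four
theorem sin_pi4 : Real.sin (π / 4) = √2 / 2 := Real.sin_pi_div_four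

theorem mirE_norm (v : E) : ‖mirE v‖ = ‖v‖ := by
  have h1 : ‖mirE v‖ ^ 2 = ‖v‖ ^ 2 := by
    rw [normsq3, normsq3]
    simp [mirE]
  exact (sq_eq_sq₀ (norm_nonneg _) (norm_nonneg _)).1 h1

theorem d4n_lin (ϱ h : ℝ) (k m : ℕ) : d4n ϱ h (k + m) =
    (ϱ * Real.cos (m * (π / 4))) • (!₂[Real.cos (k * (π / 4)), Real.sin (k * (π / 4)), 0] : E) +
    (ϱ * Real.sin (m * (π / 4))) • (!₂[-Real.sin (k * (π / 4)), Real.cos (k * (π / 4)), 0] : E) +
    ((-1) ^ m * ((-1) ^ k * h)) • (!₂[0, 0, 1] : E) := by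
  have h1 : ((k + m : ℕ) : ℝ) * (π / 4) = (k : ℝ) * (π / 4) + (m : ℝ) * (π / 4) := by
    push_cast; ring
  unfold d4n
  rw [h1, Real.cos_add, Real.sin_add, pow_add]
  ext i
  fin_cases i
  · simp; ring
  · simp; ring
  · simp; ring

/-- The images of the eight vectors under a linear isometry, in an orthonormal frame. -/
noncomputable def d4w (A B C : E) (ϱ g : ℝ) (m : ℕ) : E :=
  (ϱ * Real.cos (m * (π / 4))) • A + (ϱ * Real.sin (m * (π / 4))) • B + ((-1) ^ m * g) • C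

theorem cs2 : Real.cos ((2 : ℕ) * (π / 4)) = 0 ∧ Real.sin ((2 : ℕ) * (π / 4)) = 1 := by
  have h1 : (((2 : ℕ) : ℝ) * (π / 4)) = π / 2 := by push_cast; ring
  rw [h1]; exact ⟨Real.cos_pi_div_two, Real.sin_pi_div_two⟩

theorem cs0 : Real.cos ((0 : ℕ) * (π / 4)) = 1 ∧ Real.sin ((0 : ℕ) * (π / 4)) = 0 := by
  simp

theorem cs1 : Real.cos ((1 : ℕ) * (π / 4)) = √2 / 2 ∧ Real.sin ((1 : ℕ) * (π / 4)) = √2 / 2 := by
  have h1 : (((1 : ℕ) : ℝ) * (π / 4)) = π / 4 := by push_cast; ring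
  rw [h1]; exact ⟨cos_pi4, sin_pi4⟩

theorem cs3 : Real.cos ((3 : ℕ) * (π / 4)) = -(√2 / 2) ∧
    Real.sin ((3 : ℕ) * (π / 4)) = √2 / 2 := by
  have h1 : (((3 : ℕ) : ℝ) * (π / 4)) = π / 4 + π / 2 := by push_cast; ring
  rw [h1, Real.cos_add_pi_div_two, Real.sin_add_pi_div_two, cos_pi4, sin_pi4]
  exact ⟨rfl, rfl⟩

theorem cs4 : Real.cos ((4 : ℕ) * (π / 4)) = -1 ∧ Real.sin ((4 : ℕ) * (π / 4)) = 0 := by
  have h1 : (((4 : ℕ) : ℝ) * (π / 4)) = π := by push_cast; ring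
  rw [h1]; exact ⟨Real.cos_pi, Real.sin_pi⟩

theorem cs5 : Real.cos ((5 : ℕ) * (π / 4)) = -(√2 / 2) ∧
    Real.sin ((5 : ℕ) * (π / 4)) = -(√2 / 2) := by
  have h1 : (((5 : ℕ) : ℝ) * (π / 4)) = π / 4 + π := by push_cast; ring
  rw [h1, Real.cos_add_pi, Real.sin_add_pi, cos_pi4, sin_pi4]
  exact ⟨rfl, rfl⟩

theorem cs6 : Real.cos ((6 : ℕ) * (π / 4)) = 0 ∧ Real.sin ((6 : ℕ) * (π / 4)) = -1 := by
  have h1 : (((6 : ℕ) : ℝ) * (π / 4)) = π / 2 + π := by push_cast; ring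
  rw [h1, Real.cos_add_pi, Real.sin_add_pi, Real.cos_pi_div_two, Real.sin_pi_div_two]
  exact ⟨neg_zero, rfl⟩

theorem cs7 : Real.cos ((7 : ℕ) * (π / 4)) = √2 / 2 ∧
    Real.sin ((7 : ℕ) * (π / 4)) = -(√2 / 2) := by
  have h1 : (((7 : ℕ) : ℝ) * (π / 4)) = -(π / 4) + 2 * π := by push_cast; ring
  rw [h1, Real.cos_add_two_pi, Real.sin_add_two_pi, Real.cos_neg, Real.sin_neg, cos_pi4, sin_pi4]
  exact ⟨rfl, rfl⟩

/-- Squared distance from `d4w … 0`. -/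
theorem d4w_dist {A B C : E} (hA : ‖A‖ = 1) (hB : ‖B‖ = 1) (hC : ‖C‖ = 1)
    (hAB : inner ℝ A B = 0) (hAC : inner ℝ A C = 0) (hBC : inner ℝ B C = 0) (ϱ g : ℝ) (m : ℕ) :
    ‖d4w A B C ϱ g m - d4w A B C ϱ g 0‖ ^ 2 =
      2 * ϱ ^ 2 * (1 - Real.cos (m * (π / 4))) + g ^ 2 * ((-1) ^ m - 1) ^ 2 := by
  have hA2 := normsq3 A
  have hB2 := normsq3 B
  have hC2 := normsq3 C
  rw [hA] at hA2
  rw [hB] at hB2
  rw [hC] at hC2
  rw [inner3] at hAB hAC hBC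
  have hcs := Real.sin_sq_add_cos_sq ((m : ℝ) * (π / 4))
  rw [normsq3]
  unfold d4w
  generalize Real.cos ((m : ℝ) * (π / 4)) = c at *
  generalize Real.sin ((m : ℝ) * (π / 4)) = s at *
  generalize ((-1 : ℝ)) ^ m = t
  simp only [cs0.1, cs0.2, PiLp.add_apply, PiLp.sub_apply, PiLp.smul_apply, smul_eq_mul, pow_zero]
  linear_combination (-(ϱ ^ 2 * (c - 1) ^ 2)) * hA2 - ϱ ^ 2 * s ^ 2 * hB2 -
    g ^ 2 * (t - 1) ^ 2 * hC2 + 2 * ϱ ^ 2 * (c - 1) * s * hAB +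
    2 * ϱ * (c - 1) * g * (t - 1) * hAC + 2 * ϱ * s * g * (t - 1) * hBC + ϱ ^ 2 * hcs

/-- Only the two neighbours in the crown are at the distance `e`. -/
theorem d4w_unique {A B C : E} (hA : ‖A‖ = 1) (hB : ‖B‖ = 1) (hC : ‖C‖ = 1)
    (hAB : inner ℝ A B = 0) (hAC : inner ℝ A C = 0) (hBC : inner ℝ B C = 0) (ϱ g h : ℝ) (m : ℕ)
    (hϱ : 0 < ϱ) (hh : 0 < h) (hg : g ^ 2 = h ^ 2) (h3 : 3 * h ^ 2 < ϱ ^ 2) (hm : m < 8)
    (hd : ‖d4w A B C ϱ g m - d4w A B C ϱ g 0‖ ^ 2 = (2 - √2) * ϱ ^ 2 + 4 * h ^ 2) :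
    m = 1 ∨ m = 7 := by
  rw [d4w_dist hA hB hC hAB hAC hBC, hg] at hd
  have hs : √2 ^ 2 = 2 := Real.sq_sqrt (by norm_num)
  have hs1 : (1.41 : ℝ) < √2 := Real.lt_sqrt_of_sq_lt (by norm_num)
  have hs2 : √2 < (1.42 : ℝ) := by
    rw [Real.sqrt_lt' (by norm_num)]; norm_num
  have hϱ2 : 0 < ϱ ^ 2 := by positivity
  have hh2 : 0 < h ^ 2 := by positivity
  have hk1 : 1.41 * ϱ ^ 2 < √2 * ϱ ^ 2 := mul_lt_mul_of_pos_right hs1 hϱ2
  have hk2 : √2 * ϱ ^ 2 < 1.42 * ϱ ^ 2 := mul_lt_mul_of_pos_right hs2 hϱ2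
  interval_cases m
  · exfalso
    rw [cs0.1] at hd
    norm_num at hd
    linarith
  · exact Or.inl rfl
  · exfalso
    rw [cs2.1] at hd
    norm_num at hd
    linarith
  · exfalso
    rw [cs3.1] at hd
    norm_num at hd
    linarith
  · exfalso
    rw [cs4.1] at hd
    norm_num at hd
    linarith
  · exfalso
    rw [cs5.1] at hd
    norm_num at hd
    linarith
  · exfalso
    rw [cs6.1] at hd
    norm_num at hd
    linarith
  · exact Or.inr rfl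

theorem d4w_apply (A B C : E) (ϱ g : ℝ) (m : ℕ) (i : Fin 3) : d4w A B C ϱ g m i =
    ϱ * Real.cos (m * (π / 4)) * A i + ϱ * Real.sin (m * (π / 4)) * B i + (-1) ^ m * g * C i := by
  simp only [d4w, PiLp.add_apply, PiLp.smul_apply, smul_eq_mul]

theorem d4w0 (A B C : E) (ϱ g : ℝ) (i : Fin 3) : d4w A B C ϱ g 0 i = ϱ * A i + g * C i := by
  rw [d4w_apply, cs0.1, cs0.2]; ring

theorem d4w1 (A B C : E) (ϱ g : ℝ) (i : Fin 3) : d4w A B C ϱ g 1 i =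
    ϱ * (√2 / 2) * A i + ϱ * (√2 / 2) * B i - g * C i := by
  rw [d4w_apply, cs1.1, cs1.2]; ring

theorem d4w7 (A B C : E) (ϱ g : ℝ) (i : Fin 3) : d4w A B C ϱ g 7 i =
    ϱ * (√2 / 2) * A i - ϱ * (√2 / 2) * B i - g * C i := by
  rw [d4w_apply, cs7.1, cs7.2]; ring

theorem d4w2 (A B C : E) (ϱ g : ℝ) (i : Fin 3) : d4w A B C ϱ g 2 i =
    ϱ * B i + g * C i := by
  rw [d4w_apply, cs2.1, cs2.2]; ring

theorem d4w6 (A B C : E) (ϱ g : ℝ) (i : Fin 3) : d4w A B C ϱ g 6 i =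
    -(ϱ * B i) + g * C i := by
  rw [d4w_apply, cs6.1, cs6.2]; ring

/-- The final computation: items (5) and (6). -/
theorem d4_final (X : Set E) (ϱ h d ε : ℝ) (A B C y Q : E) (hmin : MinD X d) (hϱ : 0 < ϱ)
    (hh : 0 < h)
    (h3 : 3 * h ^ 2 < ϱ ^ 2) (hsum : ϱ ^ 2 + h ^ 2 = d ^ 2) (hε : ε ^ 2 = 1)
    (hB : ‖B‖ = 1) (hC : ‖C‖ = 1)
    (hAB : inner ℝ A B = 0) (hAC : inner ℝ A C = 0) (hBC : inner ℝ B C = 0)
    (y0 : y 0 = ϱ) (y1 : y 1 = 0) (y2 : y 2 = h) (Q0 : Q 0 = 0) (Q1 : Q 1 = ϱ) (Q2 : Q 2 = h)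
    (hy : -y = d4w A B C ϱ (ε * h) 0)
    (hW : ∀ m : ℕ, y + d4w A B C ϱ (ε * h) m ∈ X)
    (hQ : Q ∈ X)
    (hB0 : B 0 = 0) (hB2 : B 2 = 0) : False := by
  have hd : 0 < d := hmin.pos
  have hs : √2 ^ 2 = 2 := Real.sq_sqrt (by norm_num)
  have hs1 : (1.41 : ℝ) < √2 := Real.lt_sqrt_of_sq_lt (by norm_num)
  have hs2 : √2 < (1.42 : ℝ) := by
    rw [Real.sqrt_lt' (by norm_num)]; norm_num
  have hB' := normsq3 B
  have hC' := normsq3 C
  rw [hB] at hB'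
  rw [hC] at hC'
  rw [inner3] at hAB hAC hBC
  rw [hB0, hB2] at hB' hAB hBC
  have hB1 : B 1 = 1 ∨ B 1 = -1 := by
    have : (B 1 - 1) * (B 1 + 1) = 0 := by linear_combination (-1) * hB'
    rcases mul_eq_zero.1 this with h1 | h1
    · left; linarith
    · right; linarith
  have hB1' : B 1 ≠ 0 := by rcases hB1 with h1 | h1 <;> rw [h1] <;> norm_num
  have hA1 : A 1 = 0 := by
    have : A 1 * B 1 = 0 := by linarith
    exact (mul_eq_zero.1 this).resolve_right hB1'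
  have hC1 : C 1 = 0 := by
    have : B 1 * C 1 = 0 := by linarith
    exact (mul_eq_zero.1 this).resolve_left hB1'
  rw [hA1, hC1] at hAC
  rw [hC1] at hC'
  -- coordinates of `-y`
  have e0 : -ϱ = ϱ * A 0 + ε * h * C 0 := by
    have : (-y) 0 = d4w A B C ϱ (ε * h) 0 0 := by rw [hy]
    rw [d4w0, PiLp.neg_apply, y0] at this
    exact this
  have e2' : -h = ϱ * A 2 + ε * h * C 2 := by
    have : (-y) 2 = d4w A B C ϱ (ε * h) 0 2 := by rw [hy]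
    rw [d4w0, PiLp.neg_apply, y2] at this
    exact this
  -- `γ = ε C`
  obtain ⟨γ0, hγ0⟩ : ∃ γ0, γ0 = ε * C 0 := ⟨_, rfl⟩
  obtain ⟨γ2, hγ2⟩ : ∃ γ2, γ2 = ε * C 2 := ⟨_, rfl⟩
  have hγn : γ0 ^ 2 + γ2 ^ 2 = 1 := by
    rw [hγ0, hγ2]
    linear_combination (C 0 ^ 2 + C 2 ^ 2) * hε - hC'
  have hγA : A 0 * γ0 + A 2 * γ2 = 0 := by
    rw [hγ0, hγ2]
    linear_combination ε * hAC
  have f0 : -ϱ = ϱ * A 0 + h * γ0 := by rw [hγ0, e0]; ring
  have f2 : -h = ϱ * A 2 + h * γ2 := by rw [hγ2, e2']; ring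
  have f3 : -(ϱ * γ0) - h * γ2 = h := by
    linear_combination γ0 * f0 + γ2 * f2 + ϱ * hγA + h * hγn
  have hprod : (1 + γ2) * (ϱ ^ 2 * (1 - γ2) - h ^ 2 * (1 + γ2)) = 0 := by
    have f4 : ϱ * γ0 = -(h * (1 + γ2)) := by linarith
    have f5 : ϱ ^ 2 * γ0 ^ 2 = h ^ 2 * (1 + γ2) ^ 2 := by
      calc ϱ ^ 2 * γ0 ^ 2 = (ϱ * γ0) ^ 2 := by ring
        _ = h ^ 2 * (1 + γ2) ^ 2 := by rw [f4]; ring
    linear_combination f5 - ϱ ^ 2 * hγn
  have c0 : ε * h * C 0 = h * γ0 := by rw [hγ0]; ring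
  have c2 : ε * h * C 2 = h * γ2 := by rw [hγ2]; ring
  rcases mul_eq_zero.1 hprod with hc | hc
  · -- item (5)
    have g2 : γ2 = -1 := by linarith
    have g0 : γ0 = 0 := by
      have : ϱ * γ0 = 0 := by rw [g2] at f3; linarith
      exact (mul_eq_zero.1 this).resolve_left hϱ.ne'
    have a0 : A 0 = -1 := by
      rw [g0] at f0
      have : ϱ * (A 0 + 1) = 0 := by linarith
      have := (mul_eq_zero.1 this).resolve_left hϱ.ne'
      linarith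
    have a2 : A 2 = 0 := by
      rw [g2] at f2
      have : ϱ * A 2 = 0 := by linarith
      exact (mul_eq_zero.1 this).resolve_left hϱ.ne'
    -- the point `P`
    obtain ⟨P, hP, hP0, hP1, hP2⟩ : ∃ P ∈ X, P 0 = ϱ - ϱ * (√2 / 2) ∧ P 1 = ϱ * (√2 / 2) ∧
        P 2 = 2 * h := by
      rcases hB1 with hB1 | hB1
      · refine ⟨_, hW 1, ?_, ?_, ?_⟩
        · rw [PiLp.add_apply, d4w1, y0, hB0, a0, c0, g0]; ring
        · rw [PiLp.add_apply, d4w1, y1, hB1, hA1, hC1]; ring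
        · rw [PiLp.add_apply, d4w1, y2, hB2, a2, c2, g2]; ring
      · refine ⟨_, hW 7, ?_, ?_, ?_⟩
        · rw [PiLp.add_apply, d4w7, y0, hB0, a0, c0, g0]; ring
        · rw [PiLp.add_apply, d4w7, y1, hB1, hA1, hC1]; ring
        · rw [PiLp.add_apply, d4w7, y2, hB2, a2, c2, g2]; ring
    have hne : Q ≠ P := by
      intro hPQ
      rw [← hPQ, Q2] at hP2
      linarith
    have hle := hmin.le _ hQ _ hP hne
    have hn : ‖P - Q‖ ^ 2 = (3 - 2 * √2) * ϱ ^ 2 + h ^ 2 := by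
      rw [normsq3, PiLp.sub_apply, PiLp.sub_apply, PiLp.sub_apply, hP0, hP1, hP2, Q0, Q1, Q2]
      linear_combination (ϱ ^ 2 / 2) * hs
    have : d ^ 2 ≤ ‖P - Q‖ ^ 2 := pow_le_pow_left₀ hd.le hle 2
    rw [hn] at this
    have hϱ2 : 0 < (√2 - 1) * ϱ ^ 2 := mul_pos (by linarith) (by positivity)
    linarith
  · -- item (6)
    have g2 : γ2 * d ^ 2 = ϱ ^ 2 - h ^ 2 := by rw [← hsum]; linarith
    have hϱh : ϱ * γ0 = -h - h * γ2 := by linarith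
    obtain ⟨P, hP, hP0, hP1, hP2⟩ : ∃ P ∈ X, P 0 = ϱ + h * γ0 ∧ P 1 = ϱ ∧
        P 2 = h + h * γ2 := by
      rcases hB1 with hB1 | hB1
      · refine ⟨_, hW 2, ?_, ?_, ?_⟩
        · rw [PiLp.add_apply, d4w2, y0, hB0, c0]; ring
        · rw [PiLp.add_apply, d4w2, y1, hB1, hC1]; ring
        · rw [PiLp.add_apply, d4w2, y2, hB2, c2]; ring
      · refine ⟨_, hW 6, ?_, ?_, ?_⟩
        · rw [PiLp.add_apply, d4w6, y0, hB0, c0]; ring
        · rw [PiLp.add_apply, d4w6, y1, hB1, hC1]; ring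
        · rw [PiLp.add_apply, d4w6, y2, hB2, c2]; ring
    have hd2 : 0 < d ^ 2 := by positivity
    have hh2 : 0 < h ^ 2 := by positivity
    have hγpos : 0 < γ2 := by
      by_contra hcon
      have : γ2 * d ^ 2 ≤ 0 := mul_nonpos_of_nonpos_of_nonneg (not_lt.1 hcon) hd2.le
      linarith
    have hγle : γ2 ≤ 1 := by
      by_contra hcon
      have h8 := not_le.1 hcon
      have h9 : 1 * 1 < γ2 * γ2 := mul_lt_mul'' h8 h8 (by norm_num) (by norm_num)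
      have h10 := sq_nonneg γ0
      linarith
    have hne : Q ≠ P := by
      intro hPQ
      rw [← hPQ, Q2] at hP2
      have : 0 < h * γ2 := mul_pos hh hγpos
      linarith
    have hle := hmin.le _ hQ _ hP hne
    have hn : ‖P - Q‖ ^ 2 = γ2 * (ϱ ^ 2 - h ^ 2) := by
      rw [normsq3, PiLp.sub_apply, PiLp.sub_apply, PiLp.sub_apply, hP0, hP1, hP2, Q0, Q1, Q2]
      linear_combination 2 * h * hϱh + h ^ 2 * hγn - g2 - γ2 * hsum
    have h5 : d ^ 2 ≤ ‖P - Q‖ ^ 2 := pow_le_pow_left₀ hd.le hle 2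
    rw [hn] at h5
    have h6 : γ2 * (ϱ ^ 2 - h ^ 2) ≤ 1 * (ϱ ^ 2 - h ^ 2) :=
      mul_le_mul_of_nonneg_right hγle (by linarith)
    linarith

/-- D4b2. -/
theorem rd_d4b2 (_h1 : S_LP) (_h2 : S_T5c) : S_D4b2 := by
  intro r X L d ϱ h H hmin hd hϱ hh h2h hsum hN
  have hdpos : 0 < d := hmin.pos
  have h3 : 3 * h ^ 2 < ϱ ^ 2 := by
    have h8 : (2 * h) ^ 2 < d ^ 2 := pow_lt_pow_left₀ h2h (by positivity) two_ne_zero
    rw [mul_pow] at h8
    linarith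
  have hs : √2 ^ 2 = 2 := Real.sq_sqrt (by norm_num)
  have hs1 : (1.41 : ℝ) < √2 := Real.lt_sqrt_of_sq_lt (by norm_num)
  have hs2 : √2 < (1.42 : ℝ) := by
    rw [Real.sqrt_lt' (by norm_num)]; norm_num
  have hN' : ∀ v : E, (v ∈ X ∧ ‖v‖ = d) ↔ ∃ k : ℕ, v = d4n ϱ h k := hN
  set y : E := !₂[ϱ, 0, h] with hydef
  have hy0 : y = d4n ϱ h 0 := by
    rw [hydef]; unfold d4n; simp
  have hyX : y ∈ X ∧ ‖y‖ = d := (hN' y).2 ⟨0, hy0⟩
  have hQX : (!₂[0, ϱ, h] : E) ∈ X := by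
    refine ((hN' _).2 ⟨2, ?_⟩).1
    unfold d4n
    rw [cs2.1, cs2.2]
    simp
  obtain ⟨φ, hφ⟩ := H.nn 0 H.zero y hyX.1
  have hφ' : ∀ u : E, ‖u‖ = d → (u ∈ X ↔ y + φ u ∈ X) := by
    intro u hu
    have := hφ u (by rw [hu]; linarith)
    rwa [zero_add] at this
  -- the index of `-y`
  obtain ⟨k, hk⟩ : ∃ k : ℕ, φ.symm (-y) = d4n ϱ h k := by
    refine (hN' _).1 ?_
    have hn : ‖φ.symm (-y)‖ = d := by rw [LinearIsometryEquiv.norm_map, norm_neg]; exact hyX.2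
    refine ⟨(hφ' _ hn).2 ?_, hn⟩
    rw [LinearIsometryEquiv.apply_symm_apply, add_neg_cancel]
    exact H.zero
  obtain ⟨c, hc⟩ : ∃ c, c = Real.cos (k * (π / 4)) := ⟨_, rfl⟩
  obtain ⟨s, hsn⟩ : ∃ s, s = Real.sin (k * (π / 4)) := ⟨_, rfl⟩
  have hcs : s ^ 2 + c ^ 2 = 1 := by rw [hc, hsn]; exact Real.sin_sq_add_cos_sq _
  obtain ⟨ε, hε⟩ : ∃ ε : ℝ, ε = (-1) ^ k := ⟨_, rfl⟩
  have hε2 : ε ^ 2 = 1 := by rw [hε, ← pow_mul, mul_comm, pow_mul]; norm_num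
  obtain ⟨A, hA⟩ : ∃ A, A = φ (!₂[c, s, 0] : E) := ⟨_, rfl⟩
  obtain ⟨B, hB⟩ : ∃ B, B = φ (!₂[-s, c, 0] : E) := ⟨_, rfl⟩
  obtain ⟨C, hC⟩ : ∃ C, C = φ (!₂[0, 0, 1] : E) := ⟨_, rfl⟩
  have nA : ‖A‖ = 1 := by
    rw [hA, LinearIsometryEquiv.norm_map]
    have : ‖(!₂[c, s, 0] : E)‖ ^ 2 = 1 := by
      rw [normsq3]; simp; linarith
    exact (pow_eq_one_iff_of_nonneg (norm_nonneg _) two_ne_zero).1 this
  have nB : ‖B‖ = 1 := by
    rw [hB, LinearIsometryEquiv.norm_map]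
    have : ‖(!₂[-s, c, 0] : E)‖ ^ 2 = 1 := by
      rw [normsq3]; simp; linarith
    exact (pow_eq_one_iff_of_nonneg (norm_nonneg _) two_ne_zero).1 this
  have nC : ‖C‖ = 1 := by
    rw [hC, LinearIsometryEquiv.norm_map]
    have : ‖(!₂[0, 0, 1] : E)‖ ^ 2 = 1 := by
      rw [normsq3]; simp
    exact (pow_eq_one_iff_of_nonneg (norm_nonneg _) two_ne_zero).1 this
  have iAB : inner ℝ A B = 0 := by
    rw [hA, hB, LinearIsometryEquiv.inner_map_map, inner3]; simp; ring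
  have iAC : inner ℝ A C = 0 := by
    rw [hA, hC, LinearIsometryEquiv.inner_map_map, inner3]; simp
  have iBC : inner ℝ B C = 0 := by
    rw [hB, hC, LinearIsometryEquiv.inner_map_map, inner3]; simp
  have hWn : ∀ m : ℕ, φ (d4n ϱ h (k + m)) = d4w A B C ϱ (ε * h) m := by
    intro m
    rw [d4n_lin, map_add, map_add, map_smul, map_smul, map_smul, ← hc, ← hsn, ← hε, ← hA, ← hB,
      ← hC]
    rfl
  have hWX : ∀ m : ℕ, y + d4w A B C ϱ (ε * h) m ∈ X := by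
    intro m
    have h1 := (hN' (d4n ϱ h (k + m))).2 ⟨_, rfl⟩
    rw [← hWn]
    exact (hφ' _ h1.2).1 h1.1
  have hWnorm : ∀ m : ℕ, ‖d4w A B C ϱ (ε * h) m‖ = d := by
    intro m
    have h1 := (hN' (d4n ϱ h (k + m))).2 ⟨_, rfl⟩
    rw [← hWn, LinearIsometryEquiv.norm_map]
    exact h1.2
  have hWy : -y = d4w A B C ϱ (ε * h) 0 := by
    rw [← hWn, add_zero, ← hk, LinearIsometryEquiv.apply_symm_apply]
  -- elements of the crown at `y`
  have hcrown : ∀ u : E, y + u ∈ X → ‖u‖ = d → ∃ m : ℕ, m < 8 ∧ u = d4w A B C ϱ (ε * h) m := by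
    intro u hu hun
    have hn : ‖φ.symm u‖ = d := by rw [LinearIsometryEquiv.norm_map]; exact hun
    obtain ⟨j, hj⟩ := (hN' (φ.symm u)).1
      ⟨(hφ' _ hn).2 (by rw [LinearIsometryEquiv.apply_symm_apply]; exact hu), hn⟩
    obtain ⟨m, hm, hjm⟩ := d4n_red ϱ h j k
    refine ⟨m, hm, ?_⟩
    rw [← hWn, ← hjm, ← hj, LinearIsometryEquiv.apply_symm_apply]
  have hg : (ε * h) ^ 2 = h ^ 2 := by rw [mul_pow, hε2, one_mul]
  -- the mirror
  have mir_y : mirE y = y := by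
    rw [hydef]; unfold mirE; simp
  have mir_add : ∀ u v : E, mirE (u + v) = mirE u + mirE v := by
    intro u v
    unfold mirE
    ext i
    fin_cases i
    · simp
    · simp; ring
    · simp
  have key : ∀ m : ℕ, (‖d4w A B C ϱ (ε * h) m - d4w A B C ϱ (ε * h) 0‖ ^ 2 =
      (2 - √2) * ϱ ^ 2 + 4 * h ^ 2) →
      mirE (d4w A B C ϱ (ε * h) m) = d4w A B C ϱ (ε * h) 1 ∨
      mirE (d4w A B C ϱ (ε * h) m) = d4w A B C ϱ (ε * h) 7 := by
    intro m hm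
    have h1 : d4w A B C ϱ (ε * h) m - d4w A B C ϱ (ε * h) 0 = y + d4w A B C ϱ (ε * h) m := by
      rw [← hWy]; abel
    have hle2 : ‖y + d4w A B C ϱ (ε * h) m‖ ≤ 2 := by
      rw [← h1]
      refine (sq_le_sq₀ (norm_nonneg _) (by norm_num)).1 ?_
      rw [hm]
      have hϱ2 : 1.41 * ϱ ^ 2 < √2 * ϱ ^ 2 := mul_lt_mul_of_pos_right hs1 (by positivity)
      have hd2 : d ^ 2 ≤ 1.64 ^ 2 := pow_le_pow_left₀ hdpos.le hd 2
      norm_num at hd2 ⊢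
      linarith
    have h2 := (H.sm _ hle2).1 (hWX m)
    rw [mir_add, mir_y] at h2
    obtain ⟨j, hj8, hj⟩ := hcrown _ h2 (by rw [mirE_norm, hWnorm])
    have h4 : ‖d4w A B C ϱ (ε * h) j - d4w A B C ϱ (ε * h) 0‖ ^ 2 =
        (2 - √2) * ϱ ^ 2 + 4 * h ^ 2 := by
      rw [← hj, ← hm, h1, ← hWy, sub_neg_eq_add, add_comm]
      nth_rewrite 1 [← mir_y]
      rw [← mir_add, mirE_norm]
    rcases d4w_unique nA nB nC iAB iAC iBC ϱ (ε * h) h j hϱ hh hg h3 hj8 h4 with h5 | h5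
    · left; rw [hj, h5]
    · right; rw [hj, h5]
  have key1 := key 1 (by
    rw [d4w_dist nA nB nC iAB iAC iBC, cs1.1, hg]; ring)
  have key7 := key 7 (by
    rw [d4w_dist nA nB nC iAB iAC iBC, cs7.1, hg]; ring)
  have hsw : B 0 = 0 ∧ B 2 = 0 := by
    have w1 := d4w1 A B C ϱ (ε * h)
    have w7 := d4w7 A B C ϱ (ε * h)
    have w0 := d4w0 A B C ϱ (ε * h)
    have mm1 : ∀ v : E, mirE v 1 = -(v 1) := fun v => by simp [mirE]
    have mm0 : ∀ v : E, mirE v 0 = v 0 := fun v => by simp [mirE]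
    have mm2 : ∀ v : E, mirE v 2 = v 2 := fun v => by simp [mirE]
    have hpos : 0 < ϱ * (√2 / 2) := by positivity
    rcases key1 with hk1 | hk1
    · exfalso
      have m1 : d4w A B C ϱ (ε * h) 1 1 = 0 := by
        have h8 := mm1 (d4w A B C ϱ (ε * h) 1)
        rw [hk1] at h8
        linarith
      have m7 : d4w A B C ϱ (ε * h) 7 1 = 0 := by
        have h8 := mm1 (d4w A B C ϱ (ε * h) 7)
        rcases key7 with hk7 | hk7 <;> rw [hk7] at h8 <;> linarith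
      have m0 : d4w A B C ϱ (ε * h) 0 1 = 0 := by
        rw [← hWy, hydef]; simp
      rw [w1] at m1
      rw [w7] at m7
      rw [w0] at m0
      have hB1 : B 1 = 0 := by
        have : ϱ * (√2 / 2) * B 1 = 0 := by linarith
        exact (mul_eq_zero.1 this).resolve_left hpos.ne'
      have hA1 : A 1 = 0 := by
        have : ϱ * (√2 / 2 + 1) * A 1 = 0 := by linarith
        exact (mul_eq_zero.1 this).resolve_left (by positivity)
      have hC1 : C 1 = 0 := by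
        rw [hA1] at m0
        have h6 : ε * h * C 1 = 0 := by linarith
        have hε0 : ε ≠ 0 := by intro h0; rw [h0] at hε2; norm_num at hε2
        exact (mul_eq_zero.1 h6).resolve_left (mul_ne_zero hε0 hh.ne')
      -- every image has second coordinate zero
      have himg : ∀ v : E, (φ v) 1 = 0 := by
        intro v
        have hv : v = (c * v 0 + s * v 1) • (!₂[c, s, 0] : E) +
            (-s * v 0 + c * v 1) • (!₂[-s, c, 0] : E) + (v 2) • (!₂[0, 0, 1] : E) := by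
          ext i
          fin_cases i
          · simp
            linear_combination (-(v 0)) * hcs
          · simp
            linear_combination (-(v 1)) * hcs
          · simp
        rw [hv, map_add, map_add, map_smul, map_smul, map_smul, ← hA, ← hB, ← hC]
        simp [hA1, hB1, hC1]
      have h7 := himg (φ.symm (!₂[0, 1, 0] : E))
      rw [LinearIsometryEquiv.apply_symm_apply] at h7
      simp at h7
    · have m0 := mm0 (d4w A B C ϱ (ε * h) 1)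
      have m2 := mm2 (d4w A B C ϱ (ε * h) 1)
      rw [hk1, w1, w7] at m0 m2
      constructor
      · have : ϱ * (√2 / 2) * B 0 = 0 := by linarith
        exact (mul_eq_zero.1 this).resolve_left hpos.ne'
      · have : ϱ * (√2 / 2) * B 2 = 0 := by linarith
        exact (mul_eq_zero.1 this).resolve_left hpos.ne'
  exact d4_final X ϱ h d ε A B C y (!₂[0, ϱ, h] : E) hmin hϱ hh h3 hsum hε2 nB nC iAB iAC iBC
    (by rw [hydef]; simp) (by rw [hydef]; simp) (by rw [hydef]; simp) (by simp) (by simp) (by simp)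
    hWy hWX hQX hsw.1 hsw.2

end Pool.Agent.H658
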