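import Mathlib

/-!
# Positive definite functions on finite groups of exponent two
-/

set_option autoImplicit false
open Finset

namespace Pool.Agent.H658.Boolean

/-- the sign character -/
noncomputable def sg (c : ZMod 2) : ℝ := if c = 0 then 1 else -1

lemma sg_zero : sg 0 = 1 := by simp [sg]

lemma sg_add (a b : ZMod 2) : sg (a + b) = sg a * sg b := by
  have h : ∀ a b : ZMod 2, (a = 0 ∧ b = 0 ∧ a + b = 0) ∨ (a = 0 ∧ b ≠ 0 ∧ a + b ≠ 0) ∨
      (a ≠ 0 ∧ b = 0 ∧ a + b ≠ 0) ∨ (a ≠ 0 ∧ b ≠ 0 ∧ a + b = 0) := by decide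
  unfold sg
  rcases h a b with ⟨h1, h2, h3⟩ | ⟨h1, h2, h3⟩ | ⟨h1, h2, h3⟩ | ⟨h1, h2, h3⟩ <;> simp [h1, h2, h3]

lemma sg_add_one (a : ZMod 2) : sg (a + 1) = -sg a := by
  rw [sg_add]; simp [sg]

lemma one_sub_sg_nonneg (a : ZMod 2) : 0 ≤ 1 - sg a := by unfold sg; split_ifs <;> norm_num

lemma one_sub_sg_le (a : ZMod 2) : 1 - sg a ≤ 2 := by unfold sg; split_ifs <;> norm_num

lemma sg_sq (a : ZMod 2) : sg a * sg a = 1 := by unfold sg; split_ifs <;> norm_num

variable {X : Type} [Fintype X] [DecidableEq X]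

lemma add_self_eq (s : X → ZMod 2) : s + s = 0 := by
  funext t
  have : ∀ c : ZMod 2, c + c = 0 := by decide
  exact this _

lemma eq_of_add_eq_zero {s r : X → ZMod 2} (h : s + r = 0) : s = r := by
  have h1 : s + r + r = 0 + r := by rw [h]
  rw [add_assoc, add_self_eq, add_zero, zero_add] at h1
  exact h1

lemma sum_sg (r : X → ZMod 2) :
    ∑ T : X → ZMod 2, sg (T ⬝ᵥ r) = if r = 0 then (Fintype.card (X → ZMod 2) : ℝ) else 0 := by
  by_cases hr : r = 0
  · subst hr
    simp [sg_zero]
  · rw [if_neg hr]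
    obtain ⟨t, ht⟩ : ∃ t, r t ≠ 0 := by
      by_contra h
      push Not at h
      exact hr (funext h)
    have ht1 : r t = 1 := by
      have : ∀ c : ZMod 2, c ≠ 0 → c = 1 := by decide
      exact this _ ht
    have h1 : ∑ T : X → ZMod 2, sg ((T + Pi.single t 1) ⬝ᵥ r) = ∑ T : X → ZMod 2, sg (T ⬝ᵥ r) := by
      let E : (X → ZMod 2) ≃ (X → ZMod 2) := Equiv.addRight (Pi.single t (1 : ZMod 2))
      exact Fintype.sum_equiv E (fun T => sg ((T + Pi.single t 1) ⬝ᵥ r)) (fun T => sg (T ⬝ᵥ r))
        (fun T => rfl)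
    have h2 : ∀ T : X → ZMod 2, sg ((T + Pi.single t 1) ⬝ᵥ r) = -sg (T ⬝ᵥ r) := by
      intro T
      rw [add_dotProduct, single_one_dotProduct, ht1, sg_add_one]
    simp only [h2, Finset.sum_neg_distrib] at h1
    linarith

/-- restriction of a function to a set -/
def res (A : X → Prop) [DecidablePred A] (s : X → ZMod 2) : X → ZMod 2 :=
  fun t => if A t then s t else 0

lemma dot_res (A : X → Prop) [DecidablePred A] (T s : X → ZMod 2) :
    T ⬝ᵥ res A s = s ⬝ᵥ res A T := by
  unfold dotProduct res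
  refine Finset.sum_congr rfl fun t _ => ?_
  split_ifs
  · ring
  · simp

theorem key {I : Type} [Fintype I] [Nonempty I] (A : I → X → Prop) [∀ i, DecidablePred (A i)]
    (hA : ∀ t, Fintype.card I ≤ 2 * (univ.filter (fun i => A i t)).card)
    (h : (X → ZMod 2) → ℝ)
    (pd : ∀ c : (X → ZMod 2) → ℝ, 0 ≤ ∑ s, ∑ s', c s * c s' * h (s + s'))
    (δ : ℝ) (hδ : ∀ i (s : X → ZMod 2), (∀ t, ¬ A i t → s t = 0) → h 0 - h s ≤ δ) :
    h 0 - h (fun _ => 1) ≤ 4 * δ := by
  classical
  set N : ℝ := (Fintype.card (X → ZMod 2) : ℝ) with hN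
  have hNpos : 0 < N := by
    rw [hN]; exact_mod_cast Fintype.card_pos
  set mu : (X → ZMod 2) → ℝ := fun T => (1 / N) * ∑ s, sg (T ⬝ᵥ s) * h s with hmu
  -- positivity
  have hpos : ∀ T, 0 ≤ mu T := by
    intro T
    have h1 := pd (fun s => sg (T ⬝ᵥ s))
    have h2 : ∀ s : X → ZMod 2, ∑ s', sg (T ⬝ᵥ s) * sg (T ⬝ᵥ s') * h (s + s') =
        ∑ r, sg (T ⬝ᵥ r) * h r := by
      intro s
      rw [← Equiv.sum_comp (Equiv.addLeft s) (fun r => sg (T ⬝ᵥ r) * h r)]
      refine Finset.sum_congr rfl fun s' _ => ?_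
      simp only [Equiv.coe_addLeft]
      rw [dotProduct_add, sg_add]
    simp only [h2, Finset.sum_const, Finset.card_univ, nsmul_eq_mul] at h1
    rw [← hN] at h1
    have h3 : 0 ≤ ∑ r, sg (T ⬝ᵥ r) * h r := by
      by_contra hneg
      push Not at hneg
      have := mul_neg_of_pos_of_neg hNpos hneg
      linarith
    simp only [hmu]
    positivity
  -- inversion
  have hinv : ∀ s, h s = ∑ T, sg (T ⬝ᵥ s) * mu T := by
    intro s
    have h1 : ∑ T, sg (T ⬝ᵥ s) * mu T = (1 / N) * ∑ s', h s' * ∑ T, sg (T ⬝ᵥ (s + s')) := by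
      simp only [hmu, Finset.mul_sum]
      rw [Finset.sum_comm]
      refine Finset.sum_congr rfl fun s' _ => Finset.sum_congr rfl fun T _ => ?_
      rw [dotProduct_add, sg_add]; ring
    rw [h1]
    have h2 : ∀ s' : X → ZMod 2, h s' * ∑ T, sg (T ⬝ᵥ (s + s')) = if s = s' then h s' * N else 0 := by
      intro s'
      rw [sum_sg]
      by_cases hs : s = s'
      · subst hs; rw [if_pos (add_self_eq s), if_pos rfl]
      · rw [if_neg (fun h0 => hs (eq_of_add_eq_zero h0)), if_neg hs, mul_zero]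
    simp only [h2]
    rw [Finset.sum_ite_eq]
    simp only [Finset.mem_univ, if_true]
    field_simp
  have hdiff : ∀ s, h 0 - h s = ∑ T, (1 - sg (T ⬝ᵥ s)) * mu T := by
    intro s
    rw [hinv 0, hinv s, ← Finset.sum_sub_distrib]
    refine Finset.sum_congr rfl fun T _ => ?_
    rw [dotProduct_zero, sg_zero]; ring
  -- the average over the subsets of `A i`
  have havg : ∀ i, ∑ T, (if res (A i) T = 0 then 0 else mu T) ≤ δ := by
    intro i
    have h1 : ∑ s : X → ZMod 2, (h 0 - h (res (A i) s)) ≤ N * δ := by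
      calc ∑ s : X → ZMod 2, (h 0 - h (res (A i) s)) ≤ ∑ s : X → ZMod 2, δ :=
            Finset.sum_le_sum fun s _ => hδ i _ fun t ht => by simp [res, ht]
        _ = N * δ := by simp [hN]
    have h2 : ∑ s : X → ZMod 2, (h 0 - h (res (A i) s)) =
        N * ∑ T, (if res (A i) T = 0 then 0 else mu T) := by
      simp only [hdiff]
      rw [Finset.sum_comm, Finset.mul_sum]
      refine Finset.sum_congr rfl fun T _ => ?_
      rw [← Finset.sum_mul, Finset.sum_sub_distrib]
      simp only [dot_res, sum_sg]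
      split_ifs
      · simp
      · simp [hN]
    rw [h2] at h1
    exact le_of_mul_le_mul_left h1 hNpos
  -- sum over the colours
  have hI : (0 : ℝ) < Fintype.card I := by exact_mod_cast Fintype.card_pos
  have hhalf : ∑ T, (if T = 0 then 0 else mu T) ≤ 2 * δ := by
    have h1 : ∑ i : I, ∑ T, (if res (A i) T = 0 then 0 else mu T) ≤ Fintype.card I * δ := by
      calc _ ≤ ∑ i : I, δ := Finset.sum_le_sum fun i _ => havg i
        _ = _ := by simp
    rw [Finset.sum_comm] at h1
    have h2 : ∀ T : X → ZMod 2, (Fintype.card I / 2 : ℝ) * (if T = 0 then 0 else mu T) ≤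
        ∑ i : I, (if res (A i) T = 0 then 0 else mu T) := by
      intro T
      by_cases hT : T = 0
      · rw [if_pos hT, mul_zero]
        exact Finset.sum_nonneg fun i _ => by split_ifs; exacts [le_refl _, hpos T]
      · rw [if_neg hT]
        obtain ⟨t, ht⟩ : ∃ t, T t ≠ 0 := by
          by_contra hh
          push Not at hh
          exact hT (funext hh)
        have h3 : ∀ i, (if A i t then mu T else 0) ≤ (if res (A i) T = 0 then 0 else mu T) := by
          intro i
          by_cases hi : A i t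
          · rw [if_pos hi, if_neg]
            intro h0
            have := congrFun h0 t
            simp [res, hi] at this
            exact ht this
          · rw [if_neg hi]
            split_ifs; exacts [le_refl _, hpos T]
        refine le_trans ?_ (Finset.sum_le_sum fun i _ => h3 i)
        rw [← Finset.sum_filter, Finset.sum_const, nsmul_eq_mul]
        have h4 := hA t
        have h5 : (Fintype.card I : ℝ) ≤ 2 * ((univ.filter (fun i => A i t)).card : ℝ) := by
          exact_mod_cast h4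
        have := hpos T
        nlinarith
    have h3 : (Fintype.card I / 2 : ℝ) * ∑ T, (if T = 0 then 0 else mu T) ≤ Fintype.card I * δ := by
      rw [Finset.mul_sum]
      exact le_trans (Finset.sum_le_sum fun T _ => h2 T) h1
    have h4 : (Fintype.card I : ℝ) * ∑ T, (if T = 0 then 0 else mu T) ≤ Fintype.card I * (2 * δ) := by
      linarith
    exact le_of_mul_le_mul_left h4 hI
  rw [hdiff]
  calc ∑ T, (1 - sg (T ⬝ᵥ fun _ => 1)) * mu T ≤ ∑ T, 2 * (if T = 0 then 0 else mu T) := by
        refine Finset.sum_le_sum fun T _ => ?_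
        by_cases hT : T = 0
        · subst hT; rw [zero_dotProduct, sg_zero]; simp
        · rw [if_neg hT]
          exact mul_le_mul_of_nonneg_right (one_sub_sg_le _) (hpos T)
    _ = 2 * ∑ T, (if T = 0 then 0 else mu T) := by rw [Finset.mul_sum]
    _ ≤ 4 * δ := by linarith

end Pool.Agent.H658.Boolean
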