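import Mathlib

/-!
# A concrete Cuntz algebra

The isometries `S false`, `S true` of the Hilbert space with basis indexed by the sequences of bits
that are not eventually periodic, and the compressions of the star algebra generated by them.
-/

set_option autoImplicit false
open scoped ENNReal InnerProductSpace
open Filter Topology

namespace Pool.Agent.H658.Cuntz

/-- sequences of bits that are not eventually periodic -/
def Y : Type := {x : ℕ → Bool // ∀ p q : ℕ, p ≠ q → ∃ j, x (p + j) ≠ x (q + j)}

noncomputable instance : DecidableEq Y := Classical.decEq _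

/-- put a bit in front -/
def cons (i : Bool) (y : Y) : Y :=
  ⟨fun n => Nat.casesOn n i y.1, by
    intro p q hpq
    obtain ⟨j, hj⟩ := y.2 p q hpq
    refine ⟨j + 1, ?_⟩
    have h1 : p + (j + 1) = (p + j) + 1 := by ring
    have h2 : q + (j + 1) = (q + j) + 1 := by ring
    rw [h1, h2]
    exact hj⟩

/-- drop the first bit -/
def tail (y : Y) : Y :=
  ⟨fun n => y.1 (n + 1), by
    intro p q hpq
    obtain ⟨j, hj⟩ := y.2 (p + 1) (q + 1) (by omega)
    refine ⟨j, ?_⟩
    have h1 : p + j + 1 = p + 1 + j := by ring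
    have h2 : q + j + 1 = q + 1 + j := by ring
    show y.1 (p + j + 1) ≠ y.1 (q + j + 1)
    rw [h1, h2]
    exact hj⟩

lemma tail_cons (i : Bool) (y : Y) : tail (cons i y) = y := rfl

lemma cons_tail (y : Y) : cons (y.1 0) (tail y) = y := by
  apply Subtype.ext
  funext n
  cases n <;> rfl

lemma cons_injective (i : Bool) : Function.Injective (cons i) := by
  intro y z h
  have := congrArg tail h
  simpa [tail_cons] using this

lemma cons_ne {i j : Bool} (h : i ≠ j) (y z : Y) : cons i y ≠ cons j z := by
  intro h'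
  have := congrFun (congrArg Subtype.val h') 0
  exact h this

/-- there is a sequence which is not eventually periodic -/
noncomputable def y0 : Y := by
  classical
  exact ⟨fun n => decide (∃ k, n = k * k), by
    have key : ∀ p q : ℕ, p < q → ∃ j, decide (∃ k, p + j = k * k) ≠ decide (∃ k, q + j = k * k) := by
      intro p q hpq
      refine ⟨q * q - p, ?_⟩
      have h1 : q ≤ q * q := Nat.le_mul_self q
      have e1 : p + (q * q - p) = q * q := by omega
      rw [e1]
      have ht : decide (∃ k, q * q = k * k) = true := by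
        simp only [decide_eq_true_eq]; exact ⟨q, rfl⟩
      have hf : decide (∃ k, q + (q * q - p) = k * k) = false := by
        simp only [decide_eq_false_iff_not, not_exists]
        intro k hk
        have h2 : q * q < k * k := by omega
        have h3 : q < k := by nlinarith
        have h4 : (q + 1) * (q + 1) ≤ k * k := Nat.mul_le_mul h3 h3
        have h5 : (q + 1) * (q + 1) = q * q + 2 * q + 1 := by ring
        omega
      rw [ht, hf]; simp
    intro p q hpq
    rcases lt_or_gt_of_ne hpq with h | h
    · exact key p q h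
    · obtain ⟨j, hj⟩ := key q p h
      exact ⟨j, fun h' => hj h'.symm⟩⟩

/-- the Hilbert space -/
abbrev H : Type := lp (fun _ : Y => ℂ) 2

/-- the basis vectors -/
noncomputable def e (y : Y) : H := lp.single 2 y 1

lemma inner_e (y z : Y) : inner ℂ (e y) (e z) = if y = z then 1 else 0 := by
  unfold e
  rw [lp.inner_single_left]
  by_cases h : y = z
  · subst h; simp
  · rw [lp.single_apply_ne _ _ _ h]; simp [h]

lemma orthonormal_e : Orthonormal ℂ e := by
  rw [orthonormal_iff_ite]
  intro y z
  exact inner_e y z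

lemma norm_e (y : Y) : ‖e y‖ = 1 := orthonormal_e.1 y

lemma single_eq (y : Y) (c : ℂ) : (lp.single 2 y c : H) = c • e y := by
  unfold e
  rw [← lp.single_smul]; simp

/-- two operators that agree on the basis vectors are equal -/
lemma ext_e {T U : H →L[ℂ] H} (h : ∀ y, T (e y) = U (e y)) : T = U := by
  ext1 f
  have hs : HasSum (fun y => lp.single 2 y (f y) : Y → H) f := lp.hasSum_single (by norm_num) f
  have h1 := hs.mapL T
  have h2 := hs.mapL U
  have h3 : (fun y => T (lp.single 2 y (f y) : H)) = fun y => U (lp.single 2 y (f y) : H) := by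
    funext y
    rw [single_eq, map_smul, map_smul, h y]
  rw [h3] at h1
  exact h1.unique h2

lemma ext_inner_e {f g : H} (h : ∀ y, inner ℂ (e y) f = inner ℂ (e y) g) : f = g := by
  apply lp.ext
  funext y
  have := h y
  unfold e at this
  rw [lp.inner_single_left, lp.inner_single_left] at this
  simpa using this

/-- the isometries -/
noncomputable def S (i : Bool) : H →L[ℂ] H :=
  ((orthonormal_e.comp (cons i) (cons_injective i)).orthogonalFamily.linearIsometry).toContinuousLinearMap

lemma S_e (i : Bool) (y : Y) : S i (e y) = e (cons i y) := by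
  unfold S
  simp only [LinearIsometry.coe_toContinuousLinearMap]
  have := (orthonormal_e.comp (cons i) (cons_injective i)).orthogonalFamily.linearIsometry_apply_single
    (i := y) (1 : ℂ)
  unfold e at this ⊢
  rw [this]
  simp

lemma S_norm (i : Bool) (f : H) : ‖S i f‖ = ‖f‖ := by
  unfold S
  simp only [LinearIsometry.coe_toContinuousLinearMap, LinearIsometry.norm_map]

lemma star_S_mul_S (i : Bool) : star (S i) * S i = 1 := by
  have := (ContinuousLinearMap.norm_map_iff_adjoint_comp_self (S i)).1 (S_norm i)
  exact this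

lemma star_S_e_cons (i : Bool) (y : Y) : star (S i) (e (cons i y)) = e y := by
  have := congrArg (fun T : H →L[ℂ] H => T (e y)) (star_S_mul_S i)
  simp only [ContinuousLinearMap.mul_apply, S_e] at this
  simpa using this

lemma star_S_e_cons_ne {i j : Bool} (h : i ≠ j) (y : Y) : star (S i) (e (cons j y)) = 0 := by
  apply ext_inner_e
  intro z
  rw [inner_zero_right, ContinuousLinearMap.star_eq_adjoint, ContinuousLinearMap.adjoint_inner_right,
    S_e, inner_e, if_neg (cons_ne h z y)]

lemma star_S_mul_S_ne {i j : Bool} (h : i ≠ j) : star (S i) * S j = 0 := by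
  apply ext_e
  intro y
  simp only [ContinuousLinearMap.mul_apply, S_e, star_S_e_cons_ne h, ContinuousLinearMap.zero_apply]

lemma sum_S_mul_star_S : S false * star (S false) + S true * star (S true) = 1 := by
  apply ext_e
  intro y
  have hy := cons_tail y
  rw [← hy]
  simp only [ContinuousLinearMap.add_apply, ContinuousLinearMap.mul_apply]
  cases y.1 0
  · rw [star_S_e_cons, star_S_e_cons_ne (by simp), map_zero, S_e, add_zero]; rfl
  · rw [star_S_e_cons, star_S_e_cons_ne (by simp), map_zero, S_e, zero_add]; rfl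

/-! ### words -/

/-- the product of the isometries along a word -/
noncomputable def W : List Bool → (H →L[ℂ] H)
  | [] => 1
  | i :: μ => S i * W μ

@[simp] lemma W_nil : W [] = 1 := rfl
@[simp] lemma W_cons (i : Bool) (μ : List Bool) : W (i :: μ) = S i * W μ := rfl

lemma W_append (μ ν : List Bool) : W (μ ++ ν) = W μ * W ν := by
  induction μ with
  | nil => simp
  | cons i μ ih => simp [ih, mul_assoc]

lemma star_W_mul_W (μ : List Bool) : star (W μ) * W μ = 1 := by
  induction μ with
  | nil => simp
  | cons i μ ih =>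
    rw [W_cons, star_mul, mul_assoc, ← mul_assoc (star (S i)), star_S_mul_S, one_mul, ih]

/-- two words of the same length -/
lemma star_W_mul_W_eq {μ ν : List Bool} (h : μ.length = ν.length) :
    star (W μ) * W ν = if μ = ν then 1 else 0 := by
  induction μ generalizing ν with
  | nil =>
    cases ν with
    | nil => simp
    | cons j ν => simp at h
  | cons i μ ih =>
    cases ν with
    | nil => simp at h
    | cons j ν =>
      simp only [List.length_cons, add_left_inj] at h
      rw [W_cons, W_cons, star_mul, mul_assoc, ← mul_assoc (star (S i))]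
      by_cases hij : i = j
      · subst hij
        rw [star_S_mul_S, one_mul, ih h]
        simp
      · rw [star_S_mul_S_ne hij, zero_mul, mul_zero, if_neg]
        simp [hij]

/-- the first `n` bits -/
def pre (y : Y) (n : ℕ) : List Bool := List.ofFn (fun i : Fin n => y.1 i)

/-- drop `k` bits -/
def drop : ℕ → Y → Y
  | 0, y => y
  | k + 1, y => drop k (tail y)

lemma drop_val (k : ℕ) (y : Y) (n : ℕ) : (drop k y).1 n = y.1 (k + n) := by
  induction k generalizing y with
  | zero => simp [drop]
  | succ k ih =>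
    show (drop k (tail y)).1 n = _
    rw [ih]
    show y.1 (k + n + 1) = y.1 (k + 1 + n)
    rw [show k + n + 1 = k + 1 + n by omega]

@[simp] lemma pre_length (y : Y) (n : ℕ) : (pre y n).length = n := by simp [pre]

lemma pre_succ (y : Y) (n : ℕ) : pre y (n + 1) = y.1 0 :: pre (tail y) n := by
  unfold pre
  rw [List.ofFn_succ]
  rfl

lemma pre_getElem? (y : Y) (n i : ℕ) (h : i < n) : (pre y n)[i]? = some (y.1 i) := by
  unfold pre
  rw [List.getElem?_ofFn]
  simp [h]

lemma pre_add (y : Y) (k n : ℕ) : pre y (k + n) = pre y k ++ pre (drop k y) n := by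
  induction k generalizing y with
  | zero => simp [pre, drop]
  | succ k ih =>
    have : k + 1 + n = (k + n) + 1 := by ring
    rw [this, pre_succ, ih, pre_succ]
    rfl

lemma W_pre_e (y : Y) (n : ℕ) : W (pre y n) (e (drop n y)) = e y := by
  induction n generalizing y with
  | zero => simp [pre, drop]
  | succ n ih =>
    rw [pre_succ, W_cons, ContinuousLinearMap.mul_apply]
    show S (y.1 0) (W (pre (tail y) n) (e (drop n (tail y)))) = _
    rw [ih, S_e, cons_tail]

/-- compression of a word along the tail of an aperiodic sequence -/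
lemma eventually_word (y : Y) (k : ℕ) (ρ : List Bool) :
    ∃ N : ℕ, ∃ c : ℂ, ∀ n ≥ N,
      star (W (pre y (k + n))) * W ρ * W (pre (drop k y) n) = algebraMap ℂ (H →L[ℂ] H) c := by
  by_cases hk : ρ.length = k
  · refine ⟨0, if pre y k = ρ then 1 else 0, fun n _ => ?_⟩
    rw [mul_assoc, ← W_append, star_W_mul_W_eq (by simp [hk])]
    rw [pre_add]
    by_cases h : pre y k = ρ
    · rw [h]; simp
    · rw [if_neg, if_neg h]
      · simp
      · intro h'
        exact h (List.append_inj_left h' (by simp [hk]))
  · obtain ⟨j, hj⟩ := y.2 ρ.length k hk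
    refine ⟨k + ρ.length + j + 1, 0, fun n hn => ?_⟩
    rw [mul_assoc, ← W_append, map_zero]
    -- compare the first `m` letters
    set m := ρ.length + j + 1 with hm
    have e1 : pre y (k + n) = pre y m ++ pre (drop m y) (k + n - m) := by
      rw [← pre_add]; congr 1; omega
    have e2 : ρ ++ pre (drop k y) n = (ρ ++ pre (drop k y) (j + 1)) ++
        pre (drop (j + 1) (drop k y)) (n - (j + 1)) := by
      rw [List.append_assoc, ← pre_add]; congr 2; omega
    rw [e1, e2, W_append, W_append _ (pre (drop (j + 1) (drop k y)) (n - (j + 1))), star_mul]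
    have e3 : star (W (pre y m)) * W (ρ ++ pre (drop k y) (j + 1)) = 0 := by
      rw [star_W_mul_W_eq (by simp only [pre_length, List.length_append]; omega), if_neg]
      intro h
      have h1 : (pre y m)[ρ.length + j]? = (ρ ++ pre (drop k y) (j + 1))[ρ.length + j]? := by rw [h]
      rw [pre_getElem? y m _ (by omega), List.getElem?_append_right (by omega)] at h1
      rw [show ρ.length + j - ρ.length = j by omega, pre_getElem? _ _ _ (by omega), drop_val] at h1
      exact hj (Option.some.inj h1)
    rw [mul_assoc, ← mul_assoc (star (W (pre y m))), e3, zero_mul, mul_zero]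

/-- the operators which map long words to combinations of words -/
def Q (a : H →L[ℂ] H) : Prop :=
  ∃ k : ℕ, ∀ μ : List Bool, k ≤ μ.length → a * W μ ∈ Submodule.span ℂ (Set.range W)

lemma span_mul_W {b : H →L[ℂ] H} (hb : b ∈ Submodule.span ℂ (Set.range W)) (τ : List Bool) :
    b * W τ ∈ Submodule.span ℂ (Set.range W) := by
  induction hb using Submodule.span_induction with
  | mem x hx =>
    obtain ⟨ρ, rfl⟩ := hx
    rw [← W_append]
    exact Submodule.subset_span ⟨_, rfl⟩
  | zero => simp
  | add x y _ _ hx hy => rw [add_mul]; exact Submodule.add_mem _ hx hy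
  | smul c x _ hx => rw [smul_mul_assoc]; exact Submodule.smul_mem _ _ hx

lemma Q_of_mem {a : H →L[ℂ] H} (ha : a ∈ StarAlgebra.adjoin ℂ ({S false, S true} : Set (H →L[ℂ] H))) :
    Q a := by
  have ha' : a ∈ (StarAlgebra.adjoin ℂ ({S false, S true} : Set (H →L[ℂ] H))).toSubalgebra := ha
  rw [StarAlgebra.adjoin_toSubalgebra] at ha'
  have hS : ∀ i, Q (S i) := fun i => ⟨0, fun μ _ => Submodule.subset_span ⟨i :: μ, rfl⟩⟩
  have hS' : ∀ i, Q (star (S i)) := by
    intro i
    refine ⟨1, fun μ hμ => ?_⟩
    cases μ with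
    | nil => simp at hμ
    | cons j μ =>
      rw [W_cons, ← mul_assoc]
      by_cases hij : i = j
      · subst hij
        rw [star_S_mul_S, one_mul]
        exact Submodule.subset_span ⟨μ, rfl⟩
      · rw [star_S_mul_S_ne hij, zero_mul]
        exact Submodule.zero_mem _
  induction ha' using Algebra.adjoin_induction with
  | mem x hx =>
    rcases hx with hx | hx
    · rcases hx with rfl | hx
      · exact hS _
      · rw [Set.mem_singleton_iff] at hx; subst hx; exact hS _
    · rw [Set.mem_star] at hx
      rcases hx with hx | hx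
      · rw [← star_star x, hx]; exact hS' _
      · rw [Set.mem_singleton_iff] at hx; rw [← star_star x, hx]; exact hS' _
  | algebraMap r =>
    refine ⟨0, fun μ _ => ?_⟩
    rw [Algebra.algebraMap_eq_smul_one, smul_mul_assoc, one_mul]
    exact Submodule.smul_mem _ _ (Submodule.subset_span ⟨μ, rfl⟩)
  | add x y _ _ hx hy =>
    obtain ⟨k, hk⟩ := hx (by assumption)
    obtain ⟨l, hl⟩ := hy (by assumption)
    exact ⟨max k l, fun μ hμ => by
      rw [add_mul]
      exact Submodule.add_mem _ (hk μ (le_trans (le_max_left _ _) hμ))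
        (hl μ (le_trans (le_max_right _ _) hμ))⟩
  | mul x y _ _ hx hy =>
    obtain ⟨k, hk⟩ := hx (by assumption)
    obtain ⟨l, hl⟩ := hy (by assumption)
    refine ⟨l + k, fun μ hμ => ?_⟩
    have h1 : W μ = W (μ.take l) * W (μ.drop l) := by rw [← W_append, List.take_append_drop]
    rw [h1, mul_assoc, ← mul_assoc y]
    have h2 := hl (μ.take l) (by rw [List.length_take]; omega)
    have h3 : k ≤ (μ.drop l).length := by rw [List.length_drop]; omega
    generalize y * W (μ.take l) = b at h2
    generalize μ.drop l = τ at h3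
    induction h2 using Submodule.span_induction with
    | mem z hz =>
      obtain ⟨ρ, rfl⟩ := hz
      rw [← W_append]
      exact hk _ (by rw [List.length_append]; omega)
    | zero => simp
    | add z w _ _ hz hw => rw [add_mul, mul_add]; exact Submodule.add_mem _ hz hw
    | smul c z _ hz => rw [smul_mul_assoc, mul_smul_comm]; exact Submodule.smul_mem _ _ hz

lemma eventually_span (y : Y) (k : ℕ) {b : H →L[ℂ] H} (hb : b ∈ Submodule.span ℂ (Set.range W)) :
    ∃ N : ℕ, ∃ c : ℂ, ∀ n ≥ N,
      star (W (pre y (k + n))) * b * W (pre (drop k y) n) = algebraMap ℂ (H →L[ℂ] H) c := by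
  induction hb using Submodule.span_induction with
  | mem z hz => obtain ⟨ρ, rfl⟩ := hz; exact eventually_word y k ρ
  | zero => exact ⟨0, 0, fun n _ => by simp⟩
  | add z w _ _ hz hw =>
    obtain ⟨N, c, h⟩ := hz
    obtain ⟨M, d, h'⟩ := hw
    refine ⟨max N M, c + d, fun n hn => ?_⟩
    rw [mul_add, add_mul, h n (le_trans (le_max_left _ _) hn), h' n (le_trans (le_max_right _ _) hn),
      map_add]
  | smul r z _ hz =>
    obtain ⟨N, c, h⟩ := hz
    refine ⟨N, r * c, fun n hn => ?_⟩
    rw [mul_smul_comm, smul_mul_assoc, h n hn, map_mul, Algebra.smul_def]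

lemma eventually_adjoin (y : Y) {a : H →L[ℂ] H}
    (ha : a ∈ StarAlgebra.adjoin ℂ ({S false, S true} : Set (H →L[ℂ] H))) :
    ∃ N : ℕ, ∀ n ≥ N,
      star (W (pre y n)) * a * W (pre y n) = algebraMap ℂ (H →L[ℂ] H) (inner ℂ (e y) (a (e y))) := by
  obtain ⟨k, hk⟩ := Q_of_mem ha
  obtain ⟨N, c, h⟩ := eventually_span y k (hk (pre y k) (by simp))
  have key : ∀ n ≥ k + N, star (W (pre y n)) * a * W (pre y n) = algebraMap ℂ (H →L[ℂ] H) c := by
    intro n hn
    obtain ⟨m, rfl⟩ : ∃ m, n = k + m := ⟨n - k, by omega⟩
    have := h m (by omega)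
    rw [← this]
    have e2 : W (pre y (k + m)) = W (pre y k) * W (pre (drop k y) m) := by rw [pre_add, W_append]
    calc star (W (pre y (k + m))) * a * W (pre y (k + m))
        = star (W (pre y (k + m))) * a * (W (pre y k) * W (pre (drop k y) m)) := by rw [← e2]
      _ = _ := by simp only [mul_assoc]
  refine ⟨k + N, fun n hn => ?_⟩
  rw [key n hn]
  congr 1
  have h1 := congrArg (fun T : H →L[ℂ] H => inner ℂ (e (drop n y)) (T (e (drop n y)))) (key n hn)
  simp only [ContinuousLinearMap.mul_apply, W_pre_e, ContinuousLinearMap.star_eq_adjoint,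
    ContinuousLinearMap.adjoint_inner_right] at h1
  rw [h1, Algebra.algebraMap_eq_smul_one]
  simp [inner_smul_right, norm_e]

lemma norm_W_le (μ : List Bool) : ‖W μ‖ ≤ 1 := by
  refine ContinuousLinearMap.opNorm_le_bound _ zero_le_one ?_
  intro f
  rw [one_mul]
  apply le_of_eq
  induction μ generalizing f with
  | nil => rfl
  | cons i μ ih =>
    show ‖S i (W μ f)‖ = _
    rw [S_norm, ih]

/-- compressions converge to scalars -/
theorem tendsto_compression (y : Y) {a : H →L[ℂ] H}
    (ha : a ∈ (StarAlgebra.adjoin ℂ ({S false, S true} : Set (H →L[ℂ] H))).topologicalClosure) :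
    Tendsto (fun n => star (W (pre y n)) * a * W (pre y n)) atTop
      (𝓝 (algebraMap ℂ (H →L[ℂ] H) (inner ℂ (e y) (a (e y))))) := by
  rw [Metric.tendsto_atTop]
  intro ε hε
  have ha' : a ∈ closure ((StarAlgebra.adjoin ℂ ({S false, S true} : Set (H →L[ℂ] H))) :
      Set (H →L[ℂ] H)) := ha
  rw [Metric.mem_closure_iff] at ha'
  obtain ⟨b, hb, hab⟩ := ha' (ε / 3) (by positivity)
  rw [dist_eq_norm] at hab
  obtain ⟨N, hN⟩ := eventually_adjoin y hb
  refine ⟨N, fun n hn => ?_⟩
  rw [dist_eq_norm]
  have e1 : star (W (pre y n)) * a * W (pre y n) -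
      algebraMap ℂ (H →L[ℂ] H) (inner ℂ (e y) (a (e y))) =
      star (W (pre y n)) * (a - b) * W (pre y n) -
      algebraMap ℂ (H →L[ℂ] H) (inner ℂ (e y) ((a - b) (e y))) := by
    rw [mul_sub, sub_mul, hN n hn, ContinuousLinearMap.sub_apply, inner_sub_right, map_sub]
    abel
  rw [e1]
  have h1 : ‖star (W (pre y n)) * (a - b) * W (pre y n)‖ ≤ ‖a - b‖ := by
    calc ‖star (W (pre y n)) * (a - b) * W (pre y n)‖
        ≤ ‖star (W (pre y n))‖ * ‖a - b‖ * ‖W (pre y n)‖ :=
          le_trans (norm_mul_le _ _) (mul_le_mul_of_nonneg_right (norm_mul_le _ _) (norm_nonneg _))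
      _ ≤ 1 * ‖a - b‖ * 1 := by
          have h5 := norm_W_le (pre y n)
          have h6 : ‖star (W (pre y n))‖ ≤ 1 := by
            rw [ContinuousLinearMap.star_eq_adjoint, LinearIsometryEquiv.norm_map]; exact h5
          gcongr
      _ = ‖a - b‖ := by ring
  have h2 : ‖algebraMap ℂ (H →L[ℂ] H) (inner ℂ (e y) ((a - b) (e y)))‖ ≤ ‖a - b‖ := by
    rw [norm_algebraMap]
    have h3 : ‖(1 : H →L[ℂ] H)‖ ≤ 1 := ContinuousLinearMap.norm_id_le
    have h4 : ‖(inner ℂ (e y) ((a - b) (e y)) : ℂ)‖ ≤ ‖a - b‖ := by
      calc ‖(inner ℂ (e y) ((a - b) (e y)) : ℂ)‖ ≤ ‖e y‖ * ‖(a - b) (e y)‖ := norm_inner_le_norm _ _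
        _ ≤ ‖e y‖ * (‖a - b‖ * ‖e y‖) := by gcongr; exact ContinuousLinearMap.le_opNorm _ _
        _ = ‖a - b‖ := by rw [norm_e]; ring
    calc _ ≤ ‖a - b‖ * 1 := by gcongr
      _ = ‖a - b‖ := by ring
  calc _ ≤ ‖a - b‖ + ‖a - b‖ := le_trans (norm_sub_le _ _) (add_le_add h1 h2)
    _ < ε := by linarith

end Pool.Agent.H658.Cuntz
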