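import Pool.Agent.H724.DL.Stm

/-!
# DL-B: periodic words from a decomposable language (statement `S_B` of helper724)
-/

set_option autoImplicit false

namespace Pool.Agent.H658.DLB

open Pool.Agent.H724.DL

/-- the same members of `S` contain `x` and `x'` -/
def E {α : Type} (S : Set (Set (List α))) (x x' : List α) : Prop := ∀ L ∈ S, (x ∈ L ↔ x' ∈ L)

theorem fuo_left {α : Type} {S : Set (Set (List α))} {R : Set (List α × List α)} (h : FUO S R)
    {x x' y y' : List α} (hx : E S x x') (hy : E S y y') (hR : (x, y) ∈ R) : (x', y') ∈ R := by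
  obtain ⟨P, hP, rfl⟩ := h
  simp only [Set.mem_iUnion, Set.mem_prod] at hR ⊢
  obtain ⟨q, hq, h1, h2⟩ := hR
  exact ⟨q, hq, (hx q.1 (hP hq).1).1 h1, (hy q.2 (hP hq).2).1 h2⟩

theorem E.symm {α : Type} {S : Set (Set (List α))} {x x' : List α} (h : E S x x') : E S x' x :=
  fun L hL => (h L hL).symm

theorem E.refl {α : Type} (S : Set (Set (List α))) (x : List α) : E S x x :=
  fun _ _ => Iff.rfl

theorem E.trans {α : Type} {S : Set (Set (List α))} {x y z : List α} (h : E S x y)
    (h' : E S y z) : E S x z := fun L hL => (h L hL).trans (h' L hL)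

theorem E_append {α : Type} {S : Set (Set (List α))}
    (hS : ∀ L ∈ S, FUO S {p : List α × List α | p.1 ++ p.2 ∈ L})
    {x x' : List α} (hx : E S x x') (z : List α) : E S (x ++ z) (x' ++ z) := by
  intro L hL
  constructor
  · intro h
    exact fuo_left (hS L hL) hx (E.refl S z) h
  · intro h
    exact fuo_left (hS L hL) hx.symm (E.refl S z) h

theorem pre_add {α : Type} (X : ℕ → α) (a b : ℕ) :
    pre X (a + b) = pre X a ++ (List.range b).map fun i => X (a + i) := by
  simp only [pre, List.range_add, List.map_append, List.map_map]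
  rfl

theorem periodic {α : Type} {S : Set (Set (List α))} (hfin : S.Finite)
    (hS : ∀ L ∈ S, FUO S {p : List α × List α | p.1 ++ p.2 ∈ L}) (X : ℕ → α) :
    ∃ n1 p1 : ℕ, 0 < p1 ∧ ∀ k,
      E S (pre (fun i => X (if i < n1 then i else n1 + (i - n1) % p1)) (n1 + k * p1))
        (pre X n1) := by
  classical
  have : Finite S := hfin.to_subtype
  obtain ⟨a, b, hab, hf⟩ := Finite.exists_ne_map_eq_of_infinite
    (fun k : ℕ => ({L : S | pre X k ∈ L.1} : Set S))
  have key : ∀ a b : ℕ, a < b →
      (({L : S | pre X a ∈ L.1} : Set S) = {L : S | pre X b ∈ L.1}) →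
      ∃ n1 p1 : ℕ, 0 < p1 ∧ E S (pre X n1) (pre X (n1 + p1)) := by
    intro a b hab h
    refine ⟨a, b - a, by omega, fun L hL => ?_⟩
    have h1 : (⟨L, hL⟩ : S) ∈ ({L : S | pre X a ∈ L.1} : Set S) ↔
        (⟨L, hL⟩ : S) ∈ ({L : S | pre X b ∈ L.1} : Set S) := by rw [h]
    have h2 : a + (b - a) = b := by omega
    rw [h2]
    exact h1
  have hex : ∃ n1 p1 : ℕ, 0 < p1 ∧ E S (pre X n1) (pre X (n1 + p1)) := by
    rcases lt_or_gt_of_ne hab with h | h
    · exact key a b h hf
    · exact key b a h hf.symm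
  obtain ⟨n1, p1, hp1, hE⟩ := hex
  refine ⟨n1, p1, hp1, ?_⟩
  intro k
  induction k with
  | zero =>
    have : pre (fun i => X (if i < n1 then i else n1 + (i - n1) % p1)) (n1 + 0 * p1) =
        pre X n1 := by
      simp only [pre, Nat.zero_mul, Nat.add_zero]
      apply List.map_congr_left
      intro i hi
      rw [List.mem_range] at hi
      rw [if_pos hi]
    rw [this]
    exact E.refl S _
  | succ k ih =>
    have h1 : n1 + (k + 1) * p1 = (n1 + k * p1) + p1 := by ring
    rw [h1, pre_add]
    have h2 : ((List.range p1).map fun i =>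
        (fun i => X (if i < n1 then i else n1 + (i - n1) % p1)) (n1 + k * p1 + i)) =
        (List.range p1).map fun i => X (n1 + i) := by
      apply List.map_congr_left
      intro i hi
      rw [List.mem_range] at hi
      have h3 : ¬ n1 + k * p1 + i < n1 := by omega
      have h4 : n1 + k * p1 + i - n1 = i + k * p1 := by omega
      have h5 : (i + k * p1) % p1 = i := by
        rw [Nat.add_mul_mod_self_right, Nat.mod_eq_of_lt hi]
      simp only [h3, if_false]
      rw [h4, h5]
    rw [h2]
    refine (E_append hS ih _).trans ?_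
    rw [← pre_add]
    exact hE.symm

theorem b : S_B := by
  intro α _ K hK hright X Y hXY
  obtain ⟨S, hfin, hKS, hS⟩ := hK
  obtain ⟨n1, p1, hp1, h1⟩ := periodic hfin (fun L hL => (hS L hL).1) X
  obtain ⟨n2, p2, hp2, h2⟩ := periodic hfin (fun L hL => (hS L hL).1) Y
  refine ⟨n1, p1, n2, p2, hp1, hp2, ?_⟩
  intro n m w hw hwK
  set X' : ℕ → α := fun i => X (if i < n1 then i else n1 + (i - n1) % p1) with hX'
  set Y' : ℕ → α := fun i => Y (if i < n2 then i else n2 + (i - n2) % p2) with hY'
  have hn : n ≤ n1 + n * p1 := by nlinarith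
  have hm : m ≤ n2 + m * p2 := by nlinarith
  obtain ⟨c, hc⟩ := Nat.exists_eq_add_of_le hn
  obtain ⟨d, hd⟩ := Nat.exists_eq_add_of_le hm
  have e1 := pre_add X' n c
  have e2 := pre_add Y' m d
  rw [← hc] at e1
  rw [← hd] at e2
  have hsh := hw.append (Sh.concat ((List.range c).map fun i => X' (n + i))
    ((List.range d).map fun i => Y' (m + i)))
  rw [← e1, ← e2] at hsh
  have hmem : (pre X' (n1 + n * p1), pre Y' (n2 + m * p2)) ∈
      {p : List α × List α | ∃ w ∈ K, Sh w p.1 p.2} :=
    ⟨_, hright w hwK _, hsh⟩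
  obtain ⟨w', hw', hsh'⟩ := fuo_left (hS K hKS).2 (h1 n) (h2 m) hmem
  exact hXY n1 n2 w' hsh' hw'

end Pool.Agent.H658.DLB
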