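import Mathlib

/-!
# A seminormed group of exponent two defined from a pathological submeasure
-/

set_option autoImplicit false
open Filter Topology

namespace Pool.Agent.H658.Exotic

/-- the colours at level `n` -/
abbrev I (n : ℕ) : Type := Fin (2 * (n + 1))

/-- the sets of `n + 1` colours -/
abbrev X (n : ℕ) : Type := {t : Finset (I n) // t.card = n + 1}

/-- the space on which the submeasure is defined -/
abbrev Om : Type := ∀ n, X n

/-- the group: formal sums of cylinders -/
def V : Type := (Σ n, X n) →₀ ZMod 2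

noncomputable instance : AddCommGroup V := inferInstanceAs (AddCommGroup ((Σ n, X n) →₀ ZMod 2))

instance : Countable V := inferInstanceAs (Countable ((Σ n, X n) →₀ ZMod 2))

/-- evaluation at a point -/
noncomputable def ev (x : Om) : V →+ ZMod 2 :=
  Finsupp.liftAddHom (fun p : Σ n, X n => if x p.1 = p.2 then AddMonoidHom.id (ZMod 2) else 0)

/-- the cylinder generator -/
noncomputable def u (n : ℕ) (t : X n) : V := Finsupp.single ⟨n, t⟩ 1

lemma ev_u (x : Om) (n : ℕ) (t : X n) : ev x (u n t) = if x n = t then 1 else 0 := by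
  have h : (Finsupp.liftAddHom (fun p : Σ n, X n =>
      if x p.1 = p.2 then AddMonoidHom.id (ZMod 2) else 0)) (Finsupp.single ⟨n, t⟩ 1) =
      if x n = t then 1 else 0 := by
    rw [Finsupp.liftAddHom_apply_single]
    split_ifs <;> rfl
  exact h

/-- the embedding of the colours of a level -/
def emb (n : ℕ) : I n ↪ (Σ n, I n) := ⟨fun i => ⟨n, i⟩, fun i j h => by simpa using h⟩

@[simp] lemma emb_apply (n : ℕ) (i : I n) : emb n i = ⟨n, i⟩ := rfl

lemma add_self (v : V) : v + v = 0 := by
  have : ∀ w : (Σ n, X n) →₀ ZMod 2, w + w = 0 := by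
    intro w
    ext p
    have : ∀ c : ZMod 2, c + c = 0 := by decide
    exact this _
  exact this v

/-- a finite family of basic sets covers `S` -/
def Cov (F : Finset (Σ n, I n)) (S : Set Om) : Prop := ∀ x ∈ S, ∃ p ∈ F, p.2 ∈ (x p.1).1

/-- the cost of a family -/
noncomputable def cost (F : Finset (Σ n, I n)) : ℝ := ∑ p ∈ F, 1 / ((p.1 : ℝ) + 1)

lemma cost_nonneg (F : Finset (Σ n, I n)) : 0 ≤ cost F :=
  Finset.sum_nonneg fun p _ => by positivity

lemma cost_union_le (F F' : Finset (Σ n, I n)) : cost (F ∪ F') ≤ cost F + cost F' := by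
  unfold cost
  rw [← Finset.sum_union_inter]
  have : 0 ≤ ∑ p ∈ F ∩ F', 1 / ((p.1 : ℝ) + 1) := Finset.sum_nonneg fun p _ => by positivity
  linarith

/-- the possible costs of covers -/
def costs (S : Set Om) : Set ℝ := {c | ∃ F, Cov F S ∧ c = cost F}

lemma costs_nonempty (S : Set Om) : (costs S).Nonempty := by
  refine ⟨_, Finset.univ.map (emb 0), ?_, rfl⟩
  intro x _
  have h : (x 0).1.Nonempty := by
    rw [← Finset.card_pos, (x 0).2]; omega
  obtain ⟨i, hi⟩ := h
  exact ⟨⟨0, i⟩, by simp, hi⟩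

lemma costs_bdd (S : Set Om) : BddBelow (costs S) :=
  ⟨0, fun _ ⟨F, _, hc⟩ => hc ▸ cost_nonneg F⟩

/-- the submeasure -/
noncomputable def phi (S : Set Om) : ℝ := sInf (costs S)

lemma phi_nonneg (S : Set Om) : 0 ≤ phi S :=
  le_csInf (costs_nonempty S) fun _ ⟨F, _, hc⟩ => hc ▸ cost_nonneg F

lemma phi_le {S : Set Om} {F : Finset (Σ n, I n)} (h : Cov F S) : phi S ≤ cost F :=
  csInf_le (costs_bdd S) ⟨F, h, rfl⟩

lemma phi_mono {S T : Set Om} (h : S ⊆ T) : phi S ≤ phi T :=
  le_csInf (costs_nonempty T) fun _ ⟨_, hF, hc⟩ => hc ▸ phi_le fun x hx => hF x (h hx)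

lemma phi_union (S T : Set Om) : phi (S ∪ T) ≤ phi S + phi T := by
  have h1 : ∀ c ∈ costs S, ∀ d ∈ costs T, phi (S ∪ T) ≤ c + d := by
    rintro c ⟨F, hF, rfl⟩ d ⟨F', hF', rfl⟩
    refine le_trans (phi_le (F := F ∪ F') ?_) (cost_union_le F F')
    rintro x (hx | hx)
    · obtain ⟨p, hp, hp'⟩ := hF x hx
      exact ⟨p, Finset.mem_union_left _ hp, hp'⟩
    · obtain ⟨p, hp, hp'⟩ := hF' x hx
      exact ⟨p, Finset.mem_union_right _ hp, hp'⟩
  have h2 : ∀ c ∈ costs S, phi (S ∪ T) - c ≤ phi T := fun c hc =>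
    le_csInf (costs_nonempty T) fun d hd => by linarith [h1 c hc d hd]
  have h3 : phi (S ∪ T) - phi T ≤ phi S :=
    le_csInf (costs_nonempty S) fun c hc => by linarith [h2 c hc]
  linarith

lemma phi_empty : phi ∅ = 0 := by
  apply le_antisymm _ (phi_nonneg _)
  have := phi_le (S := ∅) (F := ∅) (fun x hx => absurd hx (by simp))
  simpa [cost] using this

/-- the whole space is not small -/
lemma one_le_phi_univ : 1 ≤ phi Set.univ := by
  apply le_csInf (costs_nonempty _)
  rintro c ⟨F, hF, rfl⟩
  by_contra hlt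
  push Not at hlt
  have key : ∀ n, ∃ t : X n, ∀ i ∈ t.1, (⟨n, i⟩ : Σ n, I n) ∉ F := by
    intro n
    classical
    set Fn : Finset (I n) := Finset.univ.filter (fun i => (⟨n, i⟩ : Σ n, I n) ∈ F) with hFn
    have h1 : (Fn.card : ℝ) * (1 / ((n : ℝ) + 1)) ≤ cost F := by
      have h2 : Fn.map (emb n) ⊆ F := by
        intro p hp
        rw [Finset.mem_map] at hp
        obtain ⟨i, hi, rfl⟩ := hp
        exact (Finset.mem_filter.1 hi).2
      calc (Fn.card : ℝ) * (1 / ((n : ℝ) + 1))
          = ∑ p ∈ Fn.map (emb n), 1 / ((p.1 : ℝ) + 1) := by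
            rw [Finset.sum_map]; simp
        _ ≤ cost F := Finset.sum_le_sum_of_subset_of_nonneg h2 fun p _ _ => by positivity
    have h3 : (Fn.card : ℝ) < (n : ℝ) + 1 := by
      have h4 : (Fn.card : ℝ) * (1 / ((n : ℝ) + 1)) < 1 := lt_of_le_of_lt h1 hlt
      have h5 : (0 : ℝ) < (n : ℝ) + 1 := by positivity
      rw [mul_one_div, div_lt_one h5] at h4
      exact h4
    have h4 : Fn.card < n + 1 := by exact_mod_cast h3
    have h5 : n + 1 ≤ (Fnᶜ).card := by
      rw [Finset.card_compl, Fintype.card_fin]; omega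
    obtain ⟨t, ht, htc⟩ := Finset.exists_subset_card_eq h5
    refine ⟨⟨t, htc⟩, fun i hi hiF => ?_⟩
    have := ht hi
    rw [Finset.mem_compl] at this
    exact this (Finset.mem_filter.2 ⟨Finset.mem_univ _, hiF⟩)
  choose x hx using key
  obtain ⟨p, hp, hp'⟩ := hF x (Set.mem_univ _)
  exact hx p.1 p.2 hp' hp

/-- the support of an element -/
def supp (v : V) : Set Om := {x | ev x v ≠ 0}

/-- the seminorm -/
noncomputable def sn : AddGroupSeminorm V where
  toFun v := phi (supp v)
  map_zero' := by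
    have : supp 0 = ∅ := by
      ext x; simp [supp]
    rw [this, phi_empty]
  add_le' v w := by
    refine le_trans (phi_mono ?_) (phi_union (supp v) (supp w))
    intro x hx
    by_contra h
    simp only [Set.mem_union, not_or, supp, Set.mem_setOf_eq, not_not] at h
    apply hx
    rw [map_add, h.1, h.2, add_zero]
  neg' v := by
    have : supp (-v) = supp v := by
      ext x; simp [supp]
    show phi (supp (-v)) = phi (supp v)
    rw [this]

noncomputable instance : SeminormedAddCommGroup V := AddGroupSeminorm.toSeminormedAddCommGroup sn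

lemma norm_def (v : V) : ‖v‖ = phi (supp v) := rfl

/-- the completed group -/
abbrev G : Type := Multiplicative (UniformSpace.Completion V)

noncomputable instance : PolishSpace G :=
  inferInstanceAs (PolishSpace (UniformSpace.Completion V))

/-- the element `one` -/
noncomputable def el (n : ℕ) : V := ∑ t : X n, u n t

lemma ev_el (x : Om) (n : ℕ) : ev x (el n) = 1 := by
  unfold el
  rw [map_sum]
  simp [ev_u]

lemma one_le_norm_el (n : ℕ) : 1 ≤ ‖el n‖ := by
  rw [norm_def]
  have : supp (el n) = Set.univ := by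
    ext x; simp [supp, ev_el]
  rw [this]
  exact one_le_phi_univ

lemma norm_el_sub (n m : ℕ) : ‖el n - el m‖ = 0 := by
  rw [norm_def]
  have : supp (el n - el m) = ∅ := by
    ext x; simp [supp, ev_el]
  rw [this, phi_empty]

/-- sums of cylinders contained in a basic set are small -/
lemma norm_sum_le (n : ℕ) (i : I n) (s : X n → ZMod 2) (hs : ∀ t, i ∉ t.1 → s t = 0) :
    ‖∑ t : X n, (s t).val • u n t‖ ≤ 1 / ((n : ℝ) + 1) := by
  rw [norm_def]
  have : Cov {⟨n, i⟩} (supp (∑ t : X n, (s t).val • u n t)) := by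
    intro x hx
    refine ⟨⟨n, i⟩, by simp, ?_⟩
    by_contra h
    apply hx
    rw [map_sum]
    apply Finset.sum_eq_zero
    intro t _
    rw [map_nsmul, ev_u]
    by_cases ht : x n = t
    · subst ht
      rw [hs _ h]; simp
    · rw [if_neg ht, smul_zero]
  refine le_trans (phi_le this) ?_
  simp [cost]

lemma card_colours (n : ℕ) (t : X n) :
    Fintype.card (I n) ≤ 2 * (Finset.univ.filter (fun i : I n => i ∈ t.1)).card := by
  have : Finset.univ.filter (fun i : I n => i ∈ t.1) = t.1 := by ext; simp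
  rw [this, t.2, Fintype.card_fin]

end Pool.Agent.H658.Exotic
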