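import Pool.Agent.H979.FC.Stm

set_option autoImplicit false

/-!
# Project FC (helper979): `S_RFAE`, a.s. equality of the two reachability relations
-/

namespace Pool.Agent.H658

open MeasureTheory ProbabilityTheory Pool.Agent.H979.FR Pool.Agent.H979.FC
open scoped ENNReal NNReal

/-- the clock of the particle `i` of `x` has the law of the clocks -/
theorem fc_mp {V : Type} [MeasurableSpace V] [DiscreteMeasurableSpace V]
    (G : SimpleGraph V) [G.LocallyFinite] (lam : ℝ≥0) (x : V) (i : ℕ) :
    MeasurePreserving (fun ω : Conf V => ((ω x).2 i).1) (law G lam) clockLaw := by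
  have h1 : MeasurePreserving (fun ω : Conf V => ω x) (law G lam)
      ((poissonMeasure lam).prod (Measure.infinitePi fun _ : ℕ => partLaw G)) :=
    measurePreserving_eval_infinitePi _ x
  have h2 : MeasurePreserving (Prod.snd : ℕ × (ℕ → H979.FR.Part V) → _)
      ((poissonMeasure lam).prod (Measure.infinitePi fun _ : ℕ => partLaw G))
      (Measure.infinitePi fun _ : ℕ => partLaw G) := measurePreserving_snd
  have h3 : MeasurePreserving (fun η : ℕ → H979.FR.Part V => η i)
      (Measure.infinitePi fun _ : ℕ => partLaw G) (partLaw G) :=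
    measurePreserving_eval_infinitePi _ i
  have h4 : MeasurePreserving (Prod.fst : H979.FR.Part V → _) (partLaw G) clockLaw :=
    measurePreserving_fst
  exact h4.comp (h3.comp (h2.comp h1))

theorem fc_field_iff {V : Type} (t : ℝ) (ω : Conf V) (x : V) (l : List V) :
    field t ω (x, l) = true ↔ l ≠ [] ∧ ∃ i < (ω x).1, run t x ((ω x).2 i) l := by
  classical
  unfold field
  rw [decide_eq_true_iff]

/-- the deterministic part -/
theorem fc_det {V : Type} (t : ℝ) (ω : Conf V)
    (h : ∀ (x : V) (i : ℕ), ∃ k : ℕ, ∀ n : ℕ,
      ∑ j ∈ Finset.range n, ((ω x).2 i).1 j ≤ t ↔ n ≤ k) (o y : V) :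
    Visited t ω o y ↔ RF (field t ω) o y := by
  constructor
  · intro hv
    induction hv with
    | start => exact Relation.ReflTransGen.refl
    | @step x y i _ hi hy ih =>
        obtain ⟨n, hn, hpn⟩ := hy
        obtain ⟨k, hk⟩ := h x i
        rcases Nat.eq_zero_or_pos n with h0 | h0
        · subst h0
          have : x = y := hpn
          subst this
          exact ih
        · have hnk : n ≤ k := (hk n).1 hn
          obtain ⟨l, hl⟩ : ∃ l : List V, l = (List.range k).map
              (fun j => path x ((ω x).2 i).2 (j + 1)) := ⟨_, rfl⟩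
          have hlen : l.length = k := by rw [hl]; simp
          refine Relation.ReflTransGen.tail ih ⟨l, ?_, ?_⟩
          · rw [fc_field_iff]
            refine ⟨?_, i, hi, ?_, ?_⟩
            · intro h1
              rw [h1] at hlen
              simp only [List.length_nil] at hlen
              omega
            · intro m
              rw [hlen]
              exact hk m
            · intro m hm
              simp [hl]
          · rw [hl, List.mem_map]
            refine ⟨n - 1, ?_, ?_⟩
            · rw [List.mem_range]
              omega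
            · rw [Nat.sub_add_cancel h0]
              exact hpn
  · intro hr
    induction hr with
    | refl => exact Visited.start
    | @tail x y _ hxy ih =>
        obtain ⟨l, hl, hyl⟩ := hxy
        rw [fc_field_iff] at hl
        obtain ⟨_, i, hi, hrun1, hrun2⟩ := hl
        obtain ⟨n, hn, hyn⟩ := List.mem_iff_getElem.1 hyl
        refine Visited.step i ih hi ⟨n + 1, ?_, ?_⟩
        · exact (hrun1 (n + 1)).2 hn
        · rw [hrun2 n hn]
          exact hyn

theorem fc_rfae (h : S_CLKA) : S_RFAE := by
  intro V _ _ _ G _ lam t ht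
  have h1 : ∀ x : V, ∀ i : ℕ, ∀ᵐ ω ∂(law G lam), ∃ k : ℕ, ∀ n : ℕ,
      ∑ j ∈ Finset.range n, ((ω x).2 i).1 j ≤ t ↔ n ≤ k := fun x i =>
    (fc_mp G lam x i).quasiMeasurePreserving.ae (h t ht)
  have h2 : ∀ᵐ ω ∂(law G lam), ∀ x : V, ∀ i : ℕ, ∃ k : ℕ, ∀ n : ℕ,
      ∑ j ∈ Finset.range n, ((ω x).2 i).1 j ≤ t ↔ n ≤ k := by
    rw [ae_all_iff]
    intro x
    rw [ae_all_iff]
    exact h1 x
  filter_upwards [h2] with ω hω o y
  exact fc_det t ω hω o y

end Pool.Agent.H658
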