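import Pool.Agent.H979.FR.Stm

set_option autoImplicit false

/-!
# Project FR (helper979): `S_IND`, independence of the out-neighbourhoods of disjoint cells
-/

namespace Pool.Agent.H658

open MeasureTheory ProbabilityTheory Pool.Agent.H979.FR
open scoped ENNReal NNReal

/-- Independence passes from the image measure. -/
theorem fr_indep_of_map {ι Ω Ω' : Type} {𝓧 : ι → Type} [MeasurableSpace Ω] [MeasurableSpace Ω']
    [∀ i, MeasurableSpace (𝓧 i)] (P : Measure Ω) [IsProbabilityMeasure P] (Φ : Ω → Ω')
    (hΦ : Measurable Φ) (X : ∀ i, Ω' → 𝓧 i) (hX : ∀ i, Measurable (X i))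
    (h : iIndepFun X (P.map Φ)) : iIndepFun (fun i ω => X i (Φ ω)) P := by
  have : IsProbabilityMeasure (P.map Φ) := Measure.isProbabilityMeasure_map hΦ.aemeasurable
  have hX' : ∀ i, Measurable (fun ω => X i (Φ ω)) := fun i => (hX i).comp hΦ
  rw [iIndepFun_iff_map_fun_eq_infinitePi_map hX] at h
  rw [iIndepFun_iff_map_fun_eq_infinitePi_map hX']
  rw [Measure.map_map (measurable_pi_iff.2 hX) hΦ] at h
  have h2 : ∀ i, (P.map Φ).map (X i) = P.map (fun ω => X i (Φ ω)) := by
    intro i
    rw [Measure.map_map (hX i) hΦ]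
    rfl
  simp only [h2] at h
  exact h

/-- The product measure, with the coordinates grouped by the cells of `π`. -/
theorem fr_group {I V Y R : Type} [MeasurableSpace Y] (π : V → R) (c : I → R)
    (hc : Function.Injective c) (ν : Measure Y) [IsProbabilityMeasure ν] :
    (Measure.infinitePi fun _ : V => ν).map
        (fun (ω : V → Y) (u : I) (x : {x // π x = c u}) => ω x) =
      Measure.infinitePi fun u : I => Measure.infinitePi fun _ : {x // π x = c u} => ν := by
  have hinj : Function.Injective (fun p : (u : I) × {x // π x = c u} => (p.2 : V)) := by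
    rintro ⟨u, x, hx⟩ ⟨v, y, hy⟩ h
    have h' : x = y := h
    subst h'
    have h2 : u = v := hc (hx.symm.trans hy)
    subst h2
    rfl
  have h1 := Measure.map_infinitePi_infinitePi_of_inj (P := fun _ : V => ν) hinj
  have h2 := Measure.infinitePi_map_piCurry (fun (u : I) (_ : {x // π x = c u}) => ν)
  rw [← h1, Measure.map_map (by fun_prop) (by fun_prop)] at h2
  rw [← h2]
  rfl

open Classical in
/-- `Nf` as a function of the restriction to the cell. -/
noncomputable def frPsi {V : Type} (π : V → V) (t : ℝ) (u : Set.range π)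
    (η : {x // π x = (u : V)} → ℕ × (ℕ → H979.FR.Part V)) (v : Set.range π) : Bool :=
  decide (∃ x : {x // π x = (u : V)}, ∃ i : ℕ, i < (η x).1 ∧
    ∀ y : V, π y = v → y ∈ visits t (x : V) ((η x).2 i))

theorem frPsi_measurable (h : S_MEAS) {V : Type} [MeasurableSpace V] [DiscreteMeasurableSpace V]
    [Countable V] (π : V → V) (t : ℝ) (u : Set.range π) : Measurable (frPsi π t u) := by
  rw [measurable_pi_iff]
  intro v
  refine measurable_to_bool ?_
  have e : (fun η => frPsi π t u η v) ⁻¹' {true} =
      ⋃ x : {x // π x = (u : V)}, ⋃ i : ℕ,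
        {η : {x // π x = (u : V)} → ℕ × (ℕ → H979.FR.Part V) | i < (η x).1} ∩
        ⋂ y : V, ⋂ _ : π y = v, {η : {x // π x = (u : V)} → ℕ × (ℕ → H979.FR.Part V) |
          y ∈ visits t (x : V) ((η x).2 i)} := by
    ext η
    simp only [frPsi, Set.mem_preimage, Set.mem_singleton_iff, decide_eq_true_eq, Set.mem_iUnion,
      Set.mem_inter_iff, Set.mem_ofPred_eq, Set.mem_iInter]
  rw [e]
  refine MeasurableSet.iUnion fun x => MeasurableSet.iUnion fun i => ?_
  have m1 : Measurable (fun η : {x // π x = (u : V)} → ℕ × (ℕ → H979.FR.Part V) => (η x).1) :=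
    measurable_fst.comp (measurable_pi_apply x)
  have m2 : Measurable (fun η : {x // π x = (u : V)} → ℕ × (ℕ → H979.FR.Part V) => (η x).2 i) :=
    (measurable_pi_apply i).comp (measurable_snd.comp (measurable_pi_apply x))
  refine MeasurableSet.inter ?_ ?_
  · exact m1 (MeasurableSet.of_discrete (s := {n : ℕ | i < n}))
  · refine MeasurableSet.iInter fun y => MeasurableSet.iInter fun _ => ?_
    exact m2 (h V t x y)

theorem fr_Nf_eq {V : Type} (π : V → V) (t : ℝ) (u : Set.range π) :
    Nf π t u = fun ω : Conf V => frPsi π t u (fun x => ω x) := by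
  funext ω v
  unfold Nf frPsi
  have : (∃ x, π x = u ∧ ∃ i < (ω x).1, ∀ y, π y = v → y ∈ visits t x ((ω x).2 i)) ↔
      ∃ x : {x // π x = (u : V)}, ∃ i : ℕ, i < (ω x).1 ∧
        ∀ y : V, π y = v → y ∈ visits t (x : V) ((ω x).2 i) := by
    constructor
    · rintro ⟨x, hx, i, hi, hy⟩
      exact ⟨⟨x, hx⟩, i, hi, hy⟩
    · rintro ⟨⟨x, hx⟩, i, hi, hy⟩
      exact ⟨x, hx, i, hi, hy⟩
  exact decide_eq_decide.2 this

theorem fr_ind (h : S_MEAS) : S_IND := by
  intro V _ _ _ G _ π _ t lam
  have hΨ := frPsi_measurable h π t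
  obtain ⟨Φ, hΦ⟩ : ∃ Φ : Conf V → (u : Set.range π) → {x // π x = (u : V)} →
      ℕ × (ℕ → H979.FR.Part V), Φ = fun ω u x => ω x := ⟨_, rfl⟩
  have hΦm : Measurable Φ := by
    rw [hΦ]
    fun_prop
  have hNf : ∀ u : Set.range π, Nf π t u = fun ω : Conf V => frPsi π t u (Φ ω u) := by
    intro u
    rw [fr_Nf_eq, hΦ]
  constructor
  · intro u
    rw [hNf u]
    exact (hΨ u).comp ((measurable_pi_apply u).comp hΦm)
  · have hfam : (fun u : Set.range π => Nf π t u) =
        fun u ω => (fun (u : Set.range π) (ζ : (u : Set.range π) → {x // π x = (u : V)} →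
          ℕ × (ℕ → H979.FR.Part V)) => frPsi π t u (ζ u)) u (Φ ω) := by
      funext u
      exact hNf u
    rw [hfam]
    refine fr_indep_of_map (law G lam) Φ hΦm _ (fun u => (hΨ u).comp (measurable_pi_apply u)) ?_
    have hmap : (law G lam).map Φ = Measure.infinitePi fun u : Set.range π =>
        Measure.infinitePi fun _ : {x // π x = (u : V)} =>
          (poissonMeasure lam).prod (Measure.infinitePi fun _ : ℕ => partLaw G) := by
      rw [hΦ]
      unfold law
      exact fr_group π (fun u : Set.range π => (u : V)) Subtype.val_injective _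
    rw [hmap]
    exact iIndepFun_infinitePi (P := fun u : Set.range π =>
        Measure.infinitePi fun _ : {x // π x = (u : V)} =>
          (poissonMeasure lam).prod (Measure.infinitePi fun _ : ℕ => partLaw G))
      (X := fun (u : Set.range π) => frPsi π t u) hΨ

end Pool.Agent.H658
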