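import Pool.Agent.H812.Gi.Spec
import Pool.Graph.R_seed8.W216.Stu.Hyp
import Pool.Graph.R_seed8.W816.Stu.BddL

/-!
# Project GI (helper812): winding of leaves (part `GWind`)
-/

set_option autoImplicit false

open Real Filter Topology Set MeasureTheory
open scoped ContDiff ENNReal

namespace Pool.Agent.H658.GiWind

open Pool.Agent.W811.Stu Pool.Agent.H812.Tm Pool.Agent.H812.Gi

/-- the last point where a continuous function is at most `l` -/
lemma last_le {f : ℝ → ℝ} {a b l : ℝ} (hab : a ≤ b) (hf : ContinuousOn f (Icc a b))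
    (ha : f a ≤ l) (hb : l < f b) :
    ∃ w, a ≤ w ∧ w < b ∧ f w = l ∧ ∀ z, w < z → z ≤ b → l < f z := by
  set s : Set ℝ := Icc a b ∩ f ⁻¹' Iic l with hs
  have hsc : IsCompact s :=
    isCompact_Icc.of_isClosed_subset (hf.preimage_isClosed_of_isClosed isClosed_Icc isClosed_Iic)
      inter_subset_left
  have hne : s.Nonempty := ⟨a, ⟨le_refl a, hab⟩, ha⟩
  have hw := hsc.sSup_mem hne
  set w := sSup s with hwd
  have hw2 : f w ≤ l := hw.2
  have hlast : ∀ z, w < z → z ≤ b → l < f z := by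
    intro z hz hzb
    by_contra hcon
    push Not at hcon
    have hzs : z ∈ s := ⟨⟨hw.1.1.trans hz.le, hzb⟩, hcon⟩
    exact absurd (le_csSup hsc.bddAbove hzs) (not_le.2 hz)
  have hwb : w < b := by
    rcases hw.1.2.lt_or_eq with h | h
    · exact h
    · rw [h] at hw2
      exact absurd hw2 (not_le.2 hb)
  refine ⟨w, hw.1.1, hwb, ?_, hlast⟩
  by_contra hne'
  have hlt : f w < l := lt_of_le_of_ne hw2 hne'
  have hcont : ContinuousOn f (Icc w b) := hf.mono (Icc_subset_Icc_left hw.1.1)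
  obtain ⟨z, hz, hzl⟩ := intermediate_value_Icc hwb.le hcont ⟨hlt.le, hb.le⟩
  have hzw : w < z := by
    rcases hz.1.lt_or_eq with h | h
    · exact h
    · rw [← h] at hzl
      exact absurd hzl hne'
  exact absurd hzl (ne_of_gt (hlast z hzw hz.2))

/-- the values of the angle where the cosine vanishes -/
noncomputable def la (j : ℤ) : ℝ := π / 2 + j * π

lemma la_add (j : ℤ) : la (j + 1) = la j + π := by
  unfold la; push_cast; ring

lemma la_mono {i j : ℤ} (h : i < j) : la i < la j := by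
  unfold la
  have h1 : (i : ℝ) < j := by exact_mod_cast h
  have := mul_lt_mul_of_pos_right h1 pi_pos
  linarith

lemma sgn_sq (j : ℤ) : ((-1 : ℝ) ^ j) * ((-1 : ℝ) ^ j) = 1 := by
  rcases Int.even_or_odd j with h | h
  · rw [h.neg_one_zpow]; norm_num
  · rw [h.neg_one_zpow]; norm_num

lemma sgn_abs (j : ℤ) : |((-1 : ℝ) ^ j)| = 1 := by
  rcases Int.even_or_odd j with h | h
  · rw [h.neg_one_zpow]; norm_num
  · rw [h.neg_one_zpow]; norm_num

lemma sin_la (j : ℤ) (u : ℝ) : sin (la j + u) = (-1) ^ j * cos u := by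
  have : la j + u = (u + π / 2) + j * π := by unfold la; ring
  rw [this, sin_add_int_mul_pi, sin_add_pi_div_two]

lemma cos_la (j : ℤ) (u : ℝ) : cos (la j + u) = -((-1) ^ j * sin u) := by
  have : la j + u = (u + π / 2) + j * π := by unfold la; ring
  rw [this, cos_add_int_mul_pi, cos_add_pi_div_two]
  ring

/-- existence of the limit at the right end -/
lemma lim_right {ψ : ℝ → ℝ} (hψ : ContinuousOn ψ (Ioo (-1) 1))
    (hlim : Tendsto (fun z => cos (ψ z)) (𝓝[<] 1) (𝓝 0)) :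
    ∃ k : ℤ, Tendsto ψ (𝓝[<] 1) (𝓝 (la k)) := by
  have h1 : ∀ᶠ z in 𝓝[<] (1 : ℝ), |cos (ψ z)| < 1 := by
    have h2 : Tendsto (fun z => |cos (ψ z)|) (𝓝[<] 1) (𝓝 |0|) := hlim.abs
    rw [abs_zero] at h2
    exact h2.eventually (gt_mem_nhds one_pos)
  obtain ⟨a, ha, hsub⟩ := (mem_nhdsLT_iff_exists_Ioo_subset).1 h1
  set a' := max a (-1) with ha'
  have ha1 : a' < 1 := max_lt ha (by norm_num)
  have haa : a ≤ a' := le_max_left _ _
  have ham : -1 ≤ a' := le_max_right _ _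
  have hcos : ∀ z ∈ Ioo a' 1, |cos (ψ z)| < 1 := fun z hz => hsub ⟨haa.trans_lt hz.1, hz.2⟩
  have hcont : ContinuousOn ψ (Ioo a' 1) := hψ.mono (Ioo_subset_Ioo_left ham)
  have hord : (ψ '' Ioo a' 1).OrdConnected :=
    (isPreconnected_Ioo.image ψ hcont).ordConnected
  set z1 := (a' + 1) / 2 with hz1
  have hz1m : z1 ∈ Ioo a' 1 := ⟨by rw [hz1]; linarith, by rw [hz1]; linarith⟩
  set k := ⌊ψ z1 / π⌋ with hk
  have hk1 : k * π ≤ ψ z1 := by
    have := Int.floor_le (ψ z1 / π)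
    rwa [le_div_iff₀ pi_pos] at this
  have hk2 : ψ z1 < (k + 1) * π := by
    have := Int.lt_floor_add_one (ψ z1 / π)
    rwa [div_lt_iff₀ pi_pos] at this
  have hno : ∀ (n : ℤ) (z : ℝ), z ∈ Ioo a' 1 → ψ z = n * π → False := by
    intro n z hz hzn
    have h2 := hcos z hz
    rw [hzn, abs_cos_int_mul_pi] at h2
    exact lt_irrefl _ h2
  have hrange : ∀ z ∈ Ioo a' 1, k * π < ψ z ∧ ψ z < (k + 1) * π := by
    intro z hz
    constructor
    · by_contra hcon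
      push Not at hcon
      obtain ⟨z', hz', he⟩ := hord.out ⟨z, hz, rfl⟩ ⟨z1, hz1m, rfl⟩ ⟨hcon, hk1⟩
      exact hno k z' hz' he
    · by_contra hcon
      push Not at hcon
      obtain ⟨z', hz', he⟩ := hord.out ⟨z1, hz1m, rfl⟩ ⟨z, hz, rfl⟩ ⟨hk2.le, hcon⟩
      exact hno (k + 1) z' hz' (by rw [he]; push_cast; ring)
  refine ⟨k, ?_⟩
  have h3 : Tendsto (fun z => arcsin (-((-1) ^ k * cos (ψ z)))) (𝓝[<] 1) (𝓝 0) := by
    have h4 : Tendsto (fun z => -((-1 : ℝ) ^ k * cos (ψ z))) (𝓝[<] 1) (𝓝 (-((-1) ^ k * 0))) :=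
      (hlim.const_mul _).neg
    rw [mul_zero, neg_zero] at h4
    have h5 := (continuous_arcsin.tendsto 0).comp h4
    rwa [arcsin_zero] at h5
  have h4 : Tendsto (fun z => la k + arcsin (-((-1) ^ k * cos (ψ z)))) (𝓝[<] 1) (𝓝 (la k + 0)) :=
    h3.const_add _
  rw [add_zero] at h4
  refine h4.congr' ?_
  filter_upwards [Ioo_mem_nhdsLT ha1] with z hz
  obtain ⟨e1, e2⟩ := hrange z hz
  have e3 : ψ z = la k + (ψ z - la k) := by ring
  have e4 : -((-1) ^ k * cos (ψ z)) = sin (ψ z - la k) := by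
    conv_lhs => rw [e3, cos_la]
    rw [mul_neg, neg_neg, ← mul_assoc, sgn_sq, one_mul]
  rw [e4, arcsin_sin]
  · ring
  · unfold la; linarith
  · unfold la; linarith

/-- existence of the limit at the left end -/
lemma lim_left {ψ : ℝ → ℝ} (hψ : ContinuousOn ψ (Ioo (-1) 1))
    (hlim : Tendsto (fun z => cos (ψ z)) (𝓝[>] (-1)) (𝓝 0)) :
    ∃ k : ℤ, Tendsto ψ (𝓝[>] (-1)) (𝓝 (la k)) := by
  have hneg : Tendsto (fun z : ℝ => -z) (𝓝[<] 1) (𝓝[>] (-1)) := tendsto_neg_nhdsLT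
  have hneg' : Tendsto (fun z : ℝ => -z) (𝓝[>] (-1)) (𝓝[<] 1) := tendsto_neg_nhdsGT_neg
  have h1 : ContinuousOn (fun z => ψ (-z)) (Ioo (-1) 1) := by
    refine hψ.comp continuous_neg.continuousOn ?_
    intro z hz
    exact ⟨by linarith [hz.2], by linarith [hz.1]⟩
  obtain ⟨k, hk⟩ := lim_right h1 (hlim.comp hneg)
  refine ⟨k, ?_⟩
  have := hk.comp hneg'
  refine this.congr fun z => ?_
  simp only [Function.comp, neg_neg]

/-- the data of the one-variable problem -/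
structure Dat1 (c : ℝ) (B S ψ g g' : ℝ → ℝ) : Prop where
  hc : 1 < c
  cont : ContinuousOn ψ (Ioo (-1) 1)
  hB : ∀ z ∈ Ioo (-1 : ℝ) 1, c ≤ B z
  hS : ∀ z ∈ Ioo (-1 : ℝ) 1, 0 ≤ S z
  hg : ∀ z ∈ Ioo (-1 : ℝ) 1, g z = B z * cos (ψ z)
  der : ∀ z ∈ Ioo (-1 : ℝ) 1, HasDerivAt g (g' z) z
  sgn : ∀ z ∈ Ioo (-1 : ℝ) 1, |g z| < c → 0 ≤ sin (ψ z) * g' z
  hx : ∀ z ∈ Ioo (-1 : ℝ) 1, 1 < |g z| → |z * g z + S z * sin (ψ z)| ≤ 1

variable {c : ℝ} {B S ψ g g' : ℝ → ℝ}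

lemma Dat1.gcont (h : Dat1 c B S ψ g g') : ContinuousOn g (Ioo (-1) 1) := fun z hz =>
  (h.der z hz).continuousAt.continuousWithinAt

/-- monotonicity on an interval -/
lemma Dat1.mono (h : Dat1 c B S ψ g g') (e : ℝ) {a b : ℝ} (ha : -1 < a) (hb : b < 1) (hab : a ≤ b)
    (hpos : ∀ z ∈ Ioo a b, 0 ≤ e * g' z) : e * g a ≤ e * g b := by
  have hsub : Icc a b ⊆ Ioo (-1) 1 := fun z hz => ⟨ha.trans_le hz.1, hz.2.trans_lt hb⟩
  have h1 : MonotoneOn (fun z => e * g z) (Icc a b) := by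
    apply monotoneOn_of_deriv_nonneg (convex_Icc a b)
    · exact (h.gcont.mono hsub).const_smul e
    · intro z hz
      rw [interior_Icc] at hz
      exact ((h.der z (hsub (Ioo_subset_Icc_self hz))).const_mul e).differentiableAt
        |>.differentiableWithinAt
    · intro z hz
      rw [interior_Icc] at hz
      rw [((h.der z (hsub (Ioo_subset_Icc_self hz))).const_mul e).deriv]
      exact hpos z hz
  exact h1 ⟨le_refl a, hab⟩ ⟨hab, le_refl b⟩ hab

/-- the lines `la j` are not crossed upwards -/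
lemma Dat1.noUp (h : Dat1 c B S ψ g g') {z1 z2 : ℝ} (h1 : -1 < z1) (h2 : z2 < 1) (h12 : z1 < z2)
    (j : ℤ) (ha : ψ z1 < la j) (hb : la j < ψ z2) : False := by
  have hsub : Icc z1 z2 ⊆ Ioo (-1) 1 := fun z hz => ⟨h1.trans_le hz.1, hz.2.trans_lt h2⟩
  obtain ⟨w, hw1, hw2, hw, hlast⟩ := last_le h12.le (h.cont.mono hsub) ha.le hb
  have hwm : w ∈ Ioo (-1 : ℝ) 1 := hsub ⟨hw1, hw2.le⟩
  have hψw : ContinuousAt ψ w := h.cont.continuousAt (Ioo_mem_nhds hwm.1 hwm.2)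
  have hgw : ContinuousAt g w := (h.der w hwm).continuousAt
  have hgw0 : g w = 0 := by
    have h3 := cos_la j 0
    rw [add_zero, sin_zero, mul_zero, neg_zero] at h3
    rw [h.hg w hwm, hw, h3, mul_zero]
  have hev : ∀ᶠ z in 𝓝 w, ψ z < la j + π / 2 ∧ |g z| < c := by
    have e1 : ∀ᶠ z in 𝓝 w, ψ z < la j + π / 2 := by
      apply hψw.eventually (gt_mem_nhds _)
      rw [hw]; linarith [pi_pos]
    have e2 : ∀ᶠ z in 𝓝 w, |g z| < c := by
      apply hgw.abs.eventually (gt_mem_nhds _)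
      show |g w| < c
      rw [hgw0, abs_zero]; linarith [h.hc]
    exact e1.and e2
  obtain ⟨η, hη, hball⟩ := Metric.eventually_nhds_iff.1 hev
  set z3 := min (w + η / 2) z2 with hz3
  have hwz3 : w < z3 := lt_min (by linarith) hw2
  have hz32 : z3 ≤ z2 := min_le_right _ _
  have hz3η : z3 ≤ w + η / 2 := min_le_left _ _
  have hnear : ∀ z, w < z → z ≤ z3 → 0 < ψ z - la j ∧ ψ z - la j < π / 2 ∧ |g z| < c := by
    intro z hz1 hz2
    have e1 := hlast z hz1 (hz2.trans hz32)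
    have e2 := hball (y := z) (by rw [Real.dist_eq, abs_of_pos (by linarith)]; linarith)
    exact ⟨by linarith, by linarith [e2.1], e2.2⟩
  have hmono := h.mono ((-1) ^ j) hwm.1 (hz32.trans_lt h2) hwz3.le (by
    intro z hz
    obtain ⟨e1, e2, e3⟩ := hnear z hz.1 hz.2.le
    have hzm : z ∈ Ioo (-1 : ℝ) 1 := ⟨hwm.1.trans hz.1, hz.2.trans (hz32.trans_lt h2)⟩
    have e4 := h.sgn z hzm e3
    have e5 : ψ z = la j + (ψ z - la j) := by ring
    rw [e5, sin_la] at e4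
    have e6 : 0 < cos (ψ z - la j) := cos_pos_of_mem_Ioo ⟨by linarith, by linarith⟩
    have e7 : (-1 : ℝ) ^ j * cos (ψ z - la j) * g' z = cos (ψ z - la j) * ((-1) ^ j * g' z) := by
      ring
    rw [e7] at e4
    exact nonneg_of_mul_nonneg_right e4 e6)
  rw [hgw0, mul_zero] at hmono
  have hz3m : z3 ∈ Ioo (-1 : ℝ) 1 := ⟨hwm.1.trans hwz3, hz32.trans_lt h2⟩
  obtain ⟨e1, e2, e3⟩ := hnear z3 hwz3 le_rfl
  have e5 : ψ z3 = la j + (ψ z3 - la j) := by ring
  rw [h.hg z3 hz3m, e5, cos_la] at hmono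
  have e6 : 0 < sin (ψ z3 - la j) := sin_pos_of_pos_of_lt_pi e1 (by linarith [pi_pos])
  have e7 : 0 < B z3 := by linarith [h.hB z3 hz3m, h.hc]
  have e8 : (-1 : ℝ) ^ j * (B z3 * -((-1) ^ j * sin (ψ z3 - la j))) =
      -(((-1) ^ j * (-1) ^ j) * (B z3 * sin (ψ z3 - la j))) := by ring
  rw [e8, sgn_sq, one_mul] at hmono
  have := mul_pos e7 e6
  linarith

lemma near_left {f : ℝ → ℝ} {l : ℝ} (hf : Tendsto f (𝓝[>] (-1)) (𝓝 l)) {u : ℝ} (hu : l < u)
    {b : ℝ} (hb : -1 < b) : ∃ z, -1 < z ∧ z < b ∧ f z < u := by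
  have h1 := hf.eventually (gt_mem_nhds hu)
  have h2 : ∀ᶠ z in 𝓝[>] (-1 : ℝ), z ∈ Ioo (-1) b := Ioo_mem_nhdsGT hb
  obtain ⟨z, hz1, hz2⟩ := (h1.and h2).exists
  exact ⟨z, hz2.1, hz2.2, hz1⟩

lemma near_right {f : ℝ → ℝ} {l : ℝ} (hf : Tendsto f (𝓝[<] 1) (𝓝 l)) {u : ℝ} (hu : u < l)
    {b : ℝ} (hb : b < 1) : ∃ a, b < a ∧ a < 1 ∧ ∀ z, a < z → z < 1 → u < f z := by
  have h1 := hf.eventually (lt_mem_nhds hu)
  obtain ⟨a, ha, hsub⟩ := (mem_nhdsLT_iff_exists_Ioo_subset).1 h1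
  refine ⟨max a ((b + 1) / 2), lt_max_of_lt_right (by linarith), max_lt ha (by linarith), ?_⟩
  intro z hz1 hz2
  exact hsub ⟨(le_max_left _ _).trans_lt hz1, hz2⟩

/-- the winding -/
lemma Dat1.wind (h : Dat1 c B S ψ g g') {k m : ℤ} (hk : Tendsto ψ (𝓝[<] 1) (𝓝 (la k)))
    (hm : Tendsto ψ (𝓝[>] (-1)) (𝓝 (la m))) : k ≤ m := by
  by_contra hkm
  push Not at hkm
  -- `k = m + 1`
  have hk1 : k = m + 1 := by
    by_contra hne
    have h1 : m + 1 < k := by omega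
    obtain ⟨z1, a1, a2, a3⟩ := near_left hm (la_mono (show m < m + 1 by omega)) (b := 0)
      (by norm_num)
    obtain ⟨a, b1, b2, b3⟩ := near_right hk (la_mono h1) (b := 0) (by norm_num)
    have hz2 : a < (a + 1) / 2 := by linarith
    exact h.noUp a1 (z2 := (a + 1) / 2) (by linarith) (by linarith) (m + 1) a3
      (b3 _ hz2 (by linarith))
  have hmk : la m = k * π - π / 2 := by rw [hk1]; unfold la; push_cast; ring
  have hkk : la k = k * π + π / 2 := by unfold la; ring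
  -- the range of `ψ`
  have hle : ∀ z ∈ Ioo (-1 : ℝ) 1, ψ z ≤ la k := by
    intro z hz
    by_contra hcon
    push Not at hcon
    obtain ⟨z1, a1, a2, a3⟩ := near_left hm (la_mono hkm) hz.1
    exact h.noUp a1 hz.2 a2 k a3 hcon
  have hge : ∀ z ∈ Ioo (-1 : ℝ) 1, la m ≤ ψ z := by
    intro z hz
    by_contra hcon
    push Not at hcon
    obtain ⟨a, b1, b2, b3⟩ := near_right hk (la_mono hkm) hz.2
    exact h.noUp hz.1 (z2 := (a + 1) / 2) (by linarith) (by linarith) m hcon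
      (b3 _ (by linarith) (by linarith))
  -- the last point with `ψ = k π`
  obtain ⟨z1, a1, a2, a3⟩ := near_left hm (u := k * π) (by rw [hmk]; linarith [pi_pos]) (b := 0)
    (by norm_num)
  obtain ⟨a, b1, b2, b3⟩ := near_right hk (u := k * π) (by rw [hkk]; linarith [pi_pos]) (b := 0)
    (by norm_num)
  set z2 := (a + 1) / 2 with hz2
  have hz2a : a < z2 := by rw [hz2]; linarith
  have hz21 : z2 < 1 := by rw [hz2]; linarith
  have hsub : Icc z1 z2 ⊆ Ioo (-1) 1 := fun z hz => ⟨a1.trans_le hz.1, hz.2.trans_lt hz21⟩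
  obtain ⟨w, hw1, hw2, hw, hlast⟩ := last_le (by linarith) (h.cont.mono hsub) a3.le
    (b3 z2 hz2a hz21)
  have hwm : w ∈ Ioo (-1 : ℝ) 1 := hsub ⟨hw1, hw2.le⟩
  have hgt : ∀ z, w < z → z < 1 → k * π < ψ z := by
    intro z hz hz1
    rcases le_or_gt z z2 with h1 | h1
    · exact hlast z hz h1
    · exact b3 z (hz2a.trans h1) hz1
  -- trigonometry
  have hcosψ : ∀ z, cos (ψ z) = (-1) ^ k * cos (ψ z - k * π) := by
    intro z
    have e1 : ψ z = (ψ z - k * π) + k * π := by ring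
    conv_lhs => rw [e1, cos_add_int_mul_pi]
  have hsinψ : ∀ z, sin (ψ z) = (-1) ^ k * sin (ψ z - k * π) := by
    intro z
    have e1 : ψ z = (ψ z - k * π) + k * π := by ring
    conv_lhs => rw [e1, sin_add_int_mul_pi]
  have hsin0 : ∀ z, w < z → z < 1 → 0 < sin (ψ z - k * π) := by
    intro z hz hz1
    have e1 := hgt z hz hz1
    have e2 := hle z ⟨hwm.1.trans hz, hz1⟩
    rw [hkk] at e2
    exact sin_pos_of_pos_of_lt_pi (by linarith) (by linarith [pi_pos])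
  have heg : ∀ z ∈ Ioo (-1 : ℝ) 1, (-1) ^ k * g z = B z * cos (ψ z - k * π) := by
    intro z hz
    rw [h.hg z hz, hcosψ]
    calc (-1 : ℝ) ^ k * (B z * ((-1) ^ k * cos (ψ z - k * π))) =
        ((-1) ^ k * (-1) ^ k) * (B z * cos (ψ z - k * π)) := by ring
      _ = _ := by rw [sgn_sq, one_mul]
  have heg0 : ∀ z ∈ Ioo (-1 : ℝ) 1, 0 ≤ (-1) ^ k * g z := by
    intro z hz
    rw [heg z hz]
    have e1 := hle z hz
    have e2 := hge z hz
    rw [hkk] at e1
    rw [hmk] at e2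
    have e3 : 0 ≤ cos (ψ z - k * π) := cos_nonneg_of_mem_Icc ⟨by linarith, by linarith⟩
    have e4 : 0 ≤ B z := by linarith [h.hB z hz, h.hc]
    exact mul_nonneg e4 e3
  have hegw : c ≤ (-1) ^ k * g w := by
    rw [heg w hwm, hw, sub_self, cos_zero, mul_one]
    exact h.hB w hwm
  -- `|g| ≥ c` to the right of `w`
  have hbig : ∀ z, w < z → z < 1 → c ≤ (-1) ^ k * g z := by
    intro z3 hz3 hz31
    by_contra hcon
    push Not at hcon
    have hsub3 : Icc w z3 ⊆ Ioo (-1) 1 := fun z hz => ⟨hwm.1.trans_le hz.1, hz.2.trans_lt hz31⟩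
    obtain ⟨w', c1, c2, c3, c4⟩ := last_le (f := fun z => -((-1) ^ k * g z)) (l := -c) hz3.le
      (((h.gcont.mono hsub3).const_smul ((-1 : ℝ) ^ k)).neg) (by simpa using hegw)
      (by simpa using hcon)
    have c3' : (-1) ^ k * g w' = c := by linarith
    have hw'm : w' ∈ Ioo (-1 : ℝ) 1 := hsub3 ⟨c1, c2.le⟩
    have hmono := h.mono ((-1) ^ k) hw'm.1 hz31 c2.le (by
      intro z hz
      have hzm : z ∈ Ioo (-1 : ℝ) 1 := ⟨hw'm.1.trans hz.1, hz.2.trans hz31⟩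
      have d1 : (-1) ^ k * g z < c := by
        have := c4 z hz.1 hz.2.le
        linarith
      have d2 := heg0 z hzm
      have d3 : |g z| < c := by
        have d4 : |(-1) ^ k * g z| = |g z| := by rw [abs_mul, sgn_abs, one_mul]
        rw [← d4, abs_of_nonneg d2]
        exact d1
      have d4 := h.sgn z hzm d3
      rw [hsinψ] at d4
      have d5 := hsin0 z (c1.trans_lt hz.1) (hz.2.trans hz31)
      have d6 : (-1 : ℝ) ^ k * sin (ψ z - k * π) * g' z =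
          sin (ψ z - k * π) * ((-1) ^ k * g' z) := by ring
      rw [d6] at d4
      exact nonneg_of_mul_nonneg_right d4 d5)
    linarith
  -- the contradiction
  have hc0 : 0 < c := by linarith [h.hc]
  have hci : c⁻¹ < 1 := inv_lt_one_of_one_lt₀ h.hc
  have hmax : max w c⁻¹ < 1 := max_lt hwm.2 hci
  set z := (max w c⁻¹ + 1) / 2 with hz
  have hz1 : z < 1 := by rw [hz]; linarith
  have hzm' : max w c⁻¹ < z := by rw [hz]; linarith
  have hzw : w < z := (le_max_left _ _).trans_lt hzm'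
  have hzc : c⁻¹ < z := (le_max_right _ _).trans_lt hzm'
  have hzm : z ∈ Ioo (-1 : ℝ) 1 := ⟨hwm.1.trans hzw, hz1⟩
  have f1 := hbig z hzw hz1
  have f2 : 1 < |g z| := by
    have d4 : |(-1) ^ k * g z| = |g z| := by rw [abs_mul, sgn_abs, one_mul]
    rw [← d4]
    exact (h.hc.trans_le f1).trans_le (le_abs_self _)
  have f3 := h.hx z hzm f2
  have f4 : (-1) ^ k * (z * g z + S z * sin (ψ z)) ≤ 1 := by
    have d4 : |(-1) ^ k * (z * g z + S z * sin (ψ z))| = |z * g z + S z * sin (ψ z)| := by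
      rw [abs_mul, sgn_abs, one_mul]
    exact (le_abs_self _).trans (d4 ▸ f3)
  have f5 : (-1) ^ k * (z * g z + S z * sin (ψ z)) =
      z * ((-1) ^ k * g z) + S z * sin (ψ z - k * π) := by
    rw [hsinψ]
    calc (-1 : ℝ) ^ k * (z * g z + S z * ((-1) ^ k * sin (ψ z - k * π))) =
        z * ((-1) ^ k * g z) + ((-1) ^ k * (-1) ^ k) * (S z * sin (ψ z - k * π)) := by ring
      _ = _ := by rw [sgn_sq, one_mul]
  rw [f5] at f4
  have f6 : 0 ≤ S z * sin (ψ z - k * π) := mul_nonneg (h.hS z hzm) (hsin0 z hzw hz1).le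
  have f7 : 1 < z * c := by
    have := mul_lt_mul_of_pos_right hzc hc0
    rwa [inv_mul_cancel₀ hc0.ne'] at this
  have hz0 : 0 < z := (inv_pos.2 hc0).trans hzc
  have f8 : z * c ≤ z * ((-1) ^ k * g z) := mul_le_mul_of_nonneg_left f1 hz0.le
  linarith

/-! ### geometry -/

lemma Bf_sq {δ z : ℝ} (hz : |z| < 1) : Bf δ z ^ 2 = (1 + δ ^ 2 - z ^ 2) / (1 - z ^ 2) := by
  unfold Bf
  have h1 : z ^ 2 < 1 := by rw [← sq_abs]; nlinarith [abs_nonneg z]
  rw [Real.sq_sqrt]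
  exact div_nonneg (by nlinarith [sq_nonneg δ]) (by linarith)

lemma cc_le_Bf {δ z : ℝ} (hz : |z| < 1) : cc δ ≤ Bf δ z := by
  have h1 : z ^ 2 < 1 := by rw [← sq_abs]; nlinarith [abs_nonneg z]
  unfold cc Bf
  apply Real.sqrt_le_sqrt
  rw [le_div_iff₀ (by linarith)]
  nlinarith [mul_nonneg (sq_nonneg δ) (sq_nonneg z)]

lemma cos_lim {δ C : ℝ} (hδ : δ ≠ 0) {ψ : ℝ → ℝ}
    (hb : ∀ z, |z| < 1 → |Bf δ z * cos (ψ z)| ≤ C) {l : Filter ℝ}
    (hl : ∀ᶠ z in l, |z| < 1) (hl2 : Tendsto (fun z : ℝ => 1 - z ^ 2) l (𝓝 0)) :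
    Tendsto (fun z => cos (ψ z)) l (𝓝 0) := by
  have hδ2 : 0 < δ ^ 2 := by positivity
  have h1 : Tendsto (fun z : ℝ => C ^ 2 / δ ^ 2 * (1 - z ^ 2)) l (𝓝 0) := by
    have := hl2.const_mul (C ^ 2 / δ ^ 2)
    rwa [mul_zero] at this
  have h2 : Tendsto (fun z => cos (ψ z) ^ 2) l (𝓝 0) := by
    refine tendsto_of_tendsto_of_tendsto_of_le_of_le' tendsto_const_nhds h1
      (Eventually.of_forall fun z => sq_nonneg _) ?_
    filter_upwards [hl] with z hz
    have e0 : z ^ 2 < 1 := by rw [← sq_abs]; nlinarith [abs_nonneg z]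
    have e1 := hb z hz
    have e2 : (Bf δ z * cos (ψ z)) ^ 2 ≤ C ^ 2 := by
      rw [← sq_abs]
      exact pow_le_pow_left₀ (abs_nonneg _) e1 2
    rw [mul_pow, Bf_sq hz, div_mul_eq_mul_div, div_le_iff₀ (by linarith)] at e2
    have e3 : δ ^ 2 * cos (ψ z) ^ 2 ≤ (1 + δ ^ 2 - z ^ 2) * cos (ψ z) ^ 2 :=
      mul_le_mul_of_nonneg_right (by linarith) (sq_nonneg _)
    rw [div_mul_eq_mul_div, le_div_iff₀ hδ2]
    linarith
  have h3 : Tendsto (fun z => √(cos (ψ z) ^ 2)) l (𝓝 (√0)) :=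
    (Real.continuous_sqrt.tendsto 0).comp h2
  rw [Real.sqrt_zero] at h3
  simp only [Real.sqrt_sq_eq_abs] at h3
  exact (tendsto_zero_iff_abs_tendsto_zero _).2 h3

/-- the third coordinate is bounded by one at alive points with `|y| > 1` -/
lemma x_le {δ : ℝ} (hδ : δ ≠ 0) {d : ℕ → ℕ} (hd : ∀ k, 1 ≤ d k) {p : P3} (hp : OnS δ p)
    (ha : Alive d p) (hz : |p.z| ≤ 1) (hy : 1 < |p.y|) : |p.x| ≤ 1 := by
  obtain ⟨K, hK⟩ := Pool.Agent.W216.Stu.Hyp.hyp δ 1 0 hδ zero_le_one (cc_pos δ)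
  have h1 : |(stepR^[d 0] p).z| ≤ 1 := by
    rcases ha 0 with h | h
    · exact absurd h (not_le.2 hy)
    · exact h
  exact (hK p (d 0) hp hy hz h1).1 1 (hd 0)

end Pool.Agent.H658.GiWind

namespace Pool.Agent.H658

open Pool.Agent.W811.Stu Pool.Agent.H812.Tm Pool.Agent.H812.Gi Pool.Agent.H658.GiWind

/-- **Winding of leaves.** -/
theorem tGWind (hSy : GSy) (hC : SCoord) (hD : SDt) : GWind := by
  intro δ κ θ d hcx ψ hψ
  have hδ := hcx.hδ
  have hU : IsOpen U := isOpen_lt (continuous_abs.comp continuous_fst) continuous_const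
  have habs : ∀ z ∈ Ioo (-1 : ℝ) 1, |z| < 1 := fun z hz => abs_lt.2 hz
  have hY : ∀ v, Yf δ d 0 v = Bf δ v.1 * cos v.2 := fun v => rfl
  -- the bound
  obtain ⟨C, -, hCb⟩ := Pool.Agent.W816.Stu.bddL δ hδ
  have hbound : ∀ z, |z| < 1 → |Bf δ z * cos (ψ z)| ≤ C := by
    intro z hz
    have ha := (hψ z hz).2
    have hp := (hC δ).1 (z, ψ z) hz
    rcases ha 1 with h | h
    · exact (hCb d hcx.hd _ hp hz.le 1 h 0 (by omega)).2.2.1
    · exact (hCb d hcx.hd _ hp hz.le 2 h 0 (by omega)).2.2.1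
  have hcont : ContinuousOn ψ (Ioo (-1) 1) := fun z hz =>
    (hψ z (habs z hz)).1.continuousAt.continuousWithinAt
  have hdat : Dat1 (cc δ) (Bf δ) (fun z => Bf δ z * √(1 - z ^ 2)) ψ
      (fun z => Bf δ z * cos (ψ z))
      (fun z => dz (Yf δ d 0) (z, ψ z) + sg θ δ d (z, ψ z) * dt (Yf δ d 0) (z, ψ z)) := by
    refine ⟨one_lt_cc hδ, hcont, fun z hz => cc_le_Bf (habs z hz), fun z hz => ?_,
      fun z _ => rfl, fun z hz => ?_, fun z hz hlt => ?_, fun z hz hlt => ?_⟩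
    · exact mul_nonneg (Real.sqrt_nonneg _) (Real.sqrt_nonneg _)
    · have hv : (z, ψ z) ∈ U := habs z hz
      have h1 : DifferentiableAt ℝ (Yf δ d 0) (z, ψ z) :=
        (((hD δ d 0).1.contDiffAt (hU.mem_nhds hv)).differentiableAt (by simp))
      have h2 : HasDerivAt (fun z => (z, ψ z)) (1, sg θ δ d (z, ψ z)) z :=
        (hasDerivAt_id z).prodMk (hψ z (habs z hz)).1
      have h3 := h1.hasFDerivAt.comp_hasDerivAt z h2
      have h4 : fderiv ℝ (Yf δ d 0) (z, ψ z) (1, sg θ δ d (z, ψ z)) =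
          dz (Yf δ d 0) (z, ψ z) + sg θ δ d (z, ψ z) * dt (Yf δ d 0) (z, ψ z) := by
        have e : ((1, sg θ δ d (z, ψ z)) : ℝ × ℝ) =
            (1, 0) + sg θ δ d (z, ψ z) • ((0, 1) : ℝ × ℝ) := by
          ext <;> simp
        rw [e, map_add, map_smul, smul_eq_mul]
        rfl
      rw [h4] at h3
      exact h3
    · exact hSy δ κ θ d hcx (z, ψ z) (habs z hz) (hψ z (habs z hz)).2 hlt
    · have hp := (hC δ).1 (z, ψ z) (habs z hz)
      have h1 := x_le hδ hcx.hd hp (hψ z (habs z hz)).2 (habs z hz).le hlt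
      have h2 : (ze δ (z, ψ z)).x =
          z * (Bf δ z * cos (ψ z)) + Bf δ z * √(1 - z ^ 2) * sin (ψ z) := by
        show Bf δ z * (z * cos (ψ z) + √(1 - z ^ 2) * sin (ψ z)) = _
        ring
      rw [h2] at h1
      exact h1
  have hl1 : Tendsto (fun z => cos (ψ z)) (𝓝[<] 1) (𝓝 0) := by
    refine cos_lim hδ hbound ?_ ?_
    · filter_upwards [Ioo_mem_nhdsLT (show (-1 : ℝ) < 1 by norm_num)] with z hz
      exact habs z hz
    · have : Tendsto (fun z : ℝ => 1 - z ^ 2) (𝓝 1) (𝓝 (1 - 1 ^ 2)) :=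
        Continuous.tendsto (by fun_prop) 1
      rw [one_pow, sub_self] at this
      exact this.mono_left nhdsWithin_le_nhds
  have hl2 : Tendsto (fun z => cos (ψ z)) (𝓝[>] (-1)) (𝓝 0) := by
    refine cos_lim hδ hbound ?_ ?_
    · filter_upwards [Ioo_mem_nhdsGT (show (-1 : ℝ) < 1 by norm_num)] with z hz
      exact habs z hz
    · have : Tendsto (fun z : ℝ => 1 - z ^ 2) (𝓝 (-1)) (𝓝 (1 - (-1) ^ 2)) :=
        Continuous.tendsto (by fun_prop) (-1)
      rw [neg_one_sq, sub_self] at this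
      exact this.mono_left nhdsWithin_le_nhds
  obtain ⟨k, hk⟩ := lim_right hcont hl1
  obtain ⟨m, hm⟩ := lim_left hcont hl2
  exact ⟨k, m, hdat.wind hk hm, hk, hm⟩

end Pool.Agent.H658
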