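import Pool.Agent.H658.Boolean
import Pool.Agent.H658.Exotic

/-!
# Actions of the exotic group on C*-algebras: invariant states and null differences
-/

set_option autoImplicit false
open Filter Topology

namespace Pool.Agent.H658.Invariant

open Exotic

variable {A : Type} [CStarAlgebra A]

/-- states, as a subset of the weak dual -/
def St (A : Type) [CStarAlgebra A] : Set (WeakDual ℂ A) :=
  {w | w ∈ (WeakDual.toStrongDual ⁻¹' Metric.closedBall (0 : StrongDual ℂ A) 1) ∧ w 1 = 1 ∧
    (∀ a, w (star a) = star (w a)) ∧ ∀ a, 0 ≤ (w (star a * a)).re}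

lemma isCompact_St : IsCompact (St A) := by
  have hc := WeakDual.isCompact_closedBall (𝕜 := ℂ) (E := A) 0 1
  refine hc.of_isClosed_subset ?_ (fun w hw => hw.1)
  have hev : ∀ a : A, Continuous (fun w : WeakDual ℂ A => w a) := fun a => WeakDual.eval_continuous a
  have h2 : IsClosed {w : WeakDual ℂ A | w 1 = 1} := isClosed_eq (hev 1) continuous_const
  have h3 : IsClosed {w : WeakDual ℂ A | ∀ a, w (star a) = star (w a)} := by
    simp only [Set.setOf_forall]
    exact isClosed_iInter fun a => isClosed_eq (hev _) (continuous_star.comp (hev _))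
  have h4 : IsClosed {w : WeakDual ℂ A | ∀ a, 0 ≤ (w (star a * a)).re} := by
    simp only [Set.setOf_forall]
    exact isClosed_iInter fun a => isClosed_le continuous_const (Complex.continuous_re.comp (hev _))
  exact hc.isClosed.inter (h2.inter (h3.inter h4))

lemma norm_apply_le {w : WeakDual ℂ A} (hw : w ∈ St A) (a : A) : ‖w a‖ ≤ ‖a‖ := by
  have h1 : ‖WeakDual.toStrongDual w‖ ≤ 1 := by
    have := hw.1
    rw [Set.mem_preimage, mem_closedBall_zero_iff] at this
    exact this
  calc ‖w a‖ = ‖(WeakDual.toStrongDual w) a‖ := rfl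
    _ ≤ ‖WeakDual.toStrongDual w‖ * ‖a‖ := ContinuousLinearMap.le_opNorm _ _
    _ ≤ 1 * ‖a‖ := by gcongr
    _ = ‖a‖ := one_mul _

/-- composition with an automorphism -/
noncomputable def comp (w : WeakDual ℂ A) (f : A ≃⋆ₐ[ℂ] A) : WeakDual ℂ A :=
  StrongDual.toWeakDual ((WeakDual.toStrongDual w).comp
    (⟨f.toAlgEquiv.toLinearMap, (StarAlgEquiv.isometry f).continuous⟩ : A →L[ℂ] A))

@[simp] lemma comp_apply (w : WeakDual ℂ A) (f : A ≃⋆ₐ[ℂ] A) (a : A) : comp w f a = w (f a) := rfl

lemma comp_mem {w : WeakDual ℂ A} (hw : w ∈ St A) (f : A ≃⋆ₐ[ℂ] A) : comp w f ∈ St A := by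
  refine ⟨?_, ?_, ?_, ?_⟩
  · rw [Set.mem_preimage, mem_closedBall_zero_iff]
    refine ContinuousLinearMap.opNorm_le_bound _ zero_le_one fun a => ?_
    show ‖w (f a)‖ ≤ 1 * ‖a‖
    rw [one_mul]
    refine le_trans (norm_apply_le hw _) ?_
    exact NonUnitalStarAlgHom.norm_apply_le f a
  · rw [comp_apply, map_one]; exact hw.2.1
  · intro a
    rw [comp_apply, comp_apply, map_star]; exact hw.2.2.1 _
  · intro a
    rw [comp_apply, map_mul, map_star]; exact hw.2.2.2 _

lemma half_mem {w w' : WeakDual ℂ A} (hw : w ∈ St A) (hw' : w' ∈ St A) :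
    ((1 / 2 : ℂ) • (w + w')) ∈ St A := by
  have happ : ∀ a, ((1 / 2 : ℂ) • (w + w')) a = (1 / 2 : ℂ) * (w a + w' a) := fun a => rfl
  refine ⟨?_, ?_, ?_, ?_⟩
  · rw [Set.mem_preimage, mem_closedBall_zero_iff]
    refine ContinuousLinearMap.opNorm_le_bound _ zero_le_one fun a => ?_
    show ‖((1 / 2 : ℂ) • (w + w')) a‖ ≤ 1 * ‖a‖
    rw [happ, one_mul, norm_mul]
    have h1 := norm_apply_le hw a
    have h2 := norm_apply_le hw' a
    have h3 := norm_add_le (w a) (w' a)
    have h4 : ‖(1 / 2 : ℂ)‖ = 1 / 2 := by norm_num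
    rw [h4]; linarith
  · rw [happ, hw.2.1, hw'.2.1]; norm_num
  · intro a
    rw [happ, happ, hw.2.2.1, hw'.2.2.1, star_mul', star_add]
    congr 1
    norm_num
  · intro a
    rw [happ]
    have h1 := hw.2.2.2 a
    have h2 := hw'.2.2.2 a
    have h3 : ((1 / 2 : ℂ) * (w (star a * a) + w' (star a * a))).re =
        (1 / 2) * ((w (star a * a)).re + (w' (star a * a)).re) := by
      rw [show (1 / 2 : ℂ) = ((1 / 2 : ℝ) : ℂ) by push_cast; rfl, Complex.re_ofReal_mul,
        Complex.add_re]
    rw [h3]; positivity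

variable (T : V → (A ≃⋆ₐ[ℂ] A))

/-- an action of the group `V` has an invariant state -/
theorem exists_invariant (hadd : ∀ v w a, T (v + w) a = T v (T w a)) (hzero : ∀ a, T 0 a = a)
    (hne : (St A).Nonempty) : ∃ w ∈ St A, ∀ v a, w (T v a) = w a := by
  have hcl : ∀ v : V, IsClosed {w : WeakDual ℂ A | ∀ a, w (T v a) = w a} := by
    intro v
    simp only [Set.setOf_forall]
    exact isClosed_iInter fun a =>
      isClosed_eq (WeakDual.eval_continuous _) (WeakDual.eval_continuous _)
  have hfin : ∀ s : Finset V,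
      (St A ∩ ⋂ v ∈ s, {w : WeakDual ℂ A | ∀ a, w (T v a) = w a}).Nonempty := by
    classical
    intro s
    induction s using Finset.induction_on with
    | empty => simpa using hne
    | insert v s hv ih =>
      obtain ⟨w, hw, hws⟩ := ih
      rw [Set.mem_iInter₂] at hws
      refine ⟨(1 / 2 : ℂ) • (w + comp w (T v)), half_mem hw (comp_mem hw _), ?_⟩
      rw [Set.mem_iInter₂]
      intro v' hv' a
      have happ : ∀ a, ((1 / 2 : ℂ) • (w + comp w (T v))) a = (1 / 2 : ℂ) * (w a + w (T v a)) :=
        fun a => rfl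
      rw [happ, happ]
      rcases Finset.mem_insert.1 hv' with rfl | hv'
      · rw [← hadd, Exotic.add_self, hzero]; ring
      · have h1 : ∀ a, w (T v' a) = w a := hws v' hv'
        have h2 : T v (T v' a) = T v' (T v a) := by rw [← hadd, ← hadd, add_comm]
        rw [h2, h1, h1]
  obtain ⟨w, hw, hw'⟩ := (isCompact_St (A := A)).inter_iInter_nonempty _ hcl hfin
  rw [Set.mem_iInter] at hw'
  exact ⟨w, hw, hw'⟩

/-- null vectors are orthogonal to everything -/
lemma null_orth {w : WeakDual ℂ A} (hw : w ∈ St A) {d : A} (hd : (w (star d * d)).re = 0) (y : A) :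
    w (star y * d) = 0 := by
  by_contra hz
  set z := w (star y * d) with hzdef
  have hzpos : 0 < ‖z‖ ^ 2 := by positivity
  set q := (w (star y * y)).re with hq
  have hqn : 0 ≤ q := hw.2.2.2 y
  have key : ∀ t : ℝ, 0 ≤ -2 * t * ‖z‖ ^ 2 + t ^ 2 * ‖z‖ ^ 2 * q := by
    intro t
    have h1 := hw.2.2.2 (d + (-(t : ℂ) * z) • y)
    have h2 : star (d + (-(t : ℂ) * z) • y) * (d + (-(t : ℂ) * z) • y) =
        star d * d + (-(t : ℂ) * z) • (star d * y) + (-(t : ℂ) * star z) • (star y * d) +
        ((-(t : ℂ) * star z) * (-(t : ℂ) * z)) • (star y * y) := by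
      rw [star_add, star_smul, add_mul, mul_add, mul_add, smul_mul_assoc, mul_smul_comm,
        smul_mul_smul_comm, star_mul', star_neg]
      simp only [RCLike.star_def, Complex.conj_ofReal]
      abel
    have h3 : w (star d * y) = star z := by
      have : star d * y = star (star y * d) := by rw [star_mul, star_star]
      rw [this, hw.2.2.1]
    rw [h2] at h1
    have h4 : w (star d * d + (-(t : ℂ) * z) • (star d * y) + (-(t : ℂ) * star z) • (star y * d) +
        ((-(t : ℂ) * star z) * (-(t : ℂ) * z)) • (star y * y)) =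
        w (star d * d) + (-(t : ℂ) * z) * star z + (-(t : ℂ) * star z) * z +
        ((-(t : ℂ) * star z) * (-(t : ℂ) * z)) * w (star y * y) := by
      rw [map_add, map_add, map_add, map_smul, map_smul, map_smul, h3]
      rfl
    rw [h4] at h1
    have h5 : w (star d * d) + (-(t : ℂ) * z) * star z + (-(t : ℂ) * star z) * z +
        ((-(t : ℂ) * star z) * (-(t : ℂ) * z)) * w (star y * y) =
        w (star d * d) + ((-2 * t * ‖z‖ ^ 2 : ℝ) : ℂ) + ((t ^ 2 * ‖z‖ ^ 2 : ℝ) : ℂ) * w (star y * y) := by
      have h6 : star z * z = ((‖z‖ ^ 2 : ℝ) : ℂ) := by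
        rw [RCLike.star_def, Complex.conj_mul']; push_cast; rfl
      have h7 : z * star z = ((‖z‖ ^ 2 : ℝ) : ℂ) := by rw [mul_comm]; exact h6
      calc _ = w (star d * d) + (-(t : ℂ)) * (z * star z) + (-(t : ℂ)) * (star z * z) +
            ((t : ℂ) ^ 2 * (star z * z)) * w (star y * y) := by ring
        _ = _ := by rw [h6, h7]; push_cast; ring
    rw [h5, Complex.add_re, Complex.add_re, Complex.ofReal_re, Complex.re_ofReal_mul, hd] at h1
    linarith
  have h8 := key (1 / (q + 1))
  have h9 : (0 : ℝ) < q + 1 := by linarith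
  have h10 : -2 * (1 / (q + 1)) * ‖z‖ ^ 2 + (1 / (q + 1)) ^ 2 * ‖z‖ ^ 2 * q =
      (‖z‖ ^ 2 / (q + 1)) * (q / (q + 1) - 2) := by
    field_simp
    ring
  rw [h10] at h8
  have h11 : q / (q + 1) - 2 < 0 := by
    have : q / (q + 1) ≤ 1 := by rw [div_le_one h9]; linarith
    linarith
  have h12 : 0 < ‖z‖ ^ 2 / (q + 1) := by positivity
  nlinarith [mul_neg_of_pos_of_neg h12 h11]

/-- the element of `V` given by a vector of coefficients at level `n` -/
noncomputable def U (n : ℕ) (s : X n → ZMod 2) : V := ∑ t : X n, (s t).val • u n t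

lemma U_zero (n : ℕ) : U n 0 = 0 := by simp [U]

lemma U_add (n : ℕ) (s s' : X n → ZMod 2) : U n (s + s') = U n s + U n s' := by
  unfold U
  rw [← Finset.sum_add_distrib]
  refine Finset.sum_congr rfl fun t _ => ?_
  have h : ∀ (a b : ZMod 2), (a + b).val = a.val + b.val ∨ ((a + b).val = 0 ∧ a.val + b.val = 2) := by
    decide
  rw [← add_smul]
  rcases h (s t) (s' t) with h | ⟨h1, h2⟩
  · show ((s + s') t).val • _ = _
    rw [Pi.add_apply, h]
  · show ((s + s') t).val • _ = _
    rw [Pi.add_apply, h1, h2, zero_smul, two_smul, Exotic.add_self]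

lemma U_one (n : ℕ) : U n (fun _ => 1) = el n := by
  unfold U el
  refine Finset.sum_congr rfl fun t _ => ?_
  show (1 : ZMod 2).val • u n t = u n t
  rw [show (1 : ZMod 2).val = 1 from rfl, one_smul]

/-- the difference quotient form -/
lemma form_diff {w : WeakDual ℂ A} (hw : w ∈ St A) (hinv : ∀ v a, w (T v a) = w a) (v : V) (a : A) :
    (w (star (T v a - a) * (T v a - a))).re =
      2 * ((w (star a * a)).re - (w (star a * T v a)).re) := by
  have h1 : w (star (T v a) * T v a) = w (star a * a) := by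
    rw [← map_star, ← map_mul, hinv]
  have h2 : w (star (T v a) * a) = star (w (star a * T v a)) := by
    rw [← hw.2.2.1, star_mul, star_star]
  rw [star_sub, sub_mul, mul_sub, mul_sub, map_sub, map_sub, map_sub, h1, h2]
  simp only [Complex.sub_re, RCLike.star_def, Complex.conj_re]
  ring

theorem null_diff (hadd : ∀ v w a, T (v + w) a = T v (T w a)) (hzero : ∀ a, T 0 a = a)
    (hcont : ∀ a, ∀ δ > 0, ∃ ε > 0, ∀ v : V, ‖v‖ < ε → ‖T v a - a‖ ≤ δ)
    {w : WeakDual ℂ A} (hw : w ∈ St A) (hinv : ∀ v a, w (T v a) = w a) (a : A) :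
    (w (star (T (el 0) a - a) * (T (el 0) a - a))).re = 0 := by
  -- the value does not depend on the level
  have hel : ∀ n, T (el n) a = T (el 0) a := by
    intro n
    have h1 : T (el n - el 0) a = a := by
      have : ∀ δ > 0, ‖T (el n - el 0) a - a‖ ≤ δ := by
        intro δ hδ
        obtain ⟨ε, hε, h⟩ := hcont a δ hδ
        exact h _ (by rw [norm_el_sub]; exact hε)
      have h2 : ‖T (el n - el 0) a - a‖ ≤ 0 := le_of_forall_pos_le_add fun δ hδ => by
        rw [zero_add]; exact this δ hδ
      exact sub_eq_zero.1 (norm_le_zero_iff.1 h2)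
    have h2 : T (el n) a = T (el 0) (T (el n - el 0) a) := by
      rw [← hadd]; congr 2; abel
    rw [h2, h1]
  have hbound : ∀ δ > 0, (w (star (T (el 0) a - a) * (T (el 0) a - a))).re ≤ 4 * δ ^ 2 := by
    intro δ hδ
    obtain ⟨ε, hε, h⟩ := hcont a δ hδ
    obtain ⟨n, hn⟩ := exists_nat_one_div_lt hε
    have hkey := Boolean.key (X := X n) (I := I n) (fun i t => i ∈ t.1) (card_colours n)
      (fun s => (w (star a * T (U n s) a)).re) ?_ (δ ^ 2 / 2) ?_
    · rw [← hel n, form_diff T hw hinv]
      simp only [U_zero, hzero, U_one] at hkey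
      linarith
    · -- positive definiteness
      intro c
      have h1 := hw.2.2.2 (∑ s : X n → ZMod 2, (c s : ℂ) • T (U n s) a)
      have h2 : w (star (∑ s : X n → ZMod 2, (c s : ℂ) • T (U n s) a) *
          (∑ s : X n → ZMod 2, (c s : ℂ) • T (U n s) a)) =
          ∑ s : X n → ZMod 2, ∑ s' : X n → ZMod 2,
            ((c s * c s' : ℝ) : ℂ) * w (star a * T (U n (s + s')) a) := by
        rw [star_sum, Finset.sum_mul, map_sum]
        refine Finset.sum_congr rfl fun s _ => ?_
        rw [Finset.mul_sum, map_sum]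
        refine Finset.sum_congr rfl fun s' _ => ?_
        rw [star_smul, smul_mul_smul_comm, map_smul]
        have h3 : w (star (T (U n s) a) * T (U n s') a) = w (star a * T (U n (s + s')) a) := by
          rw [← hinv (U n s), map_mul, map_star, ← hadd, Exotic.add_self, hzero, ← hadd, U_add]
        rw [h3]
        simp only [RCLike.star_def, Complex.conj_ofReal, smul_eq_mul]
        push_cast
        ring
      rw [h2, Complex.re_sum] at h1
      simp only [Complex.re_sum, Complex.re_ofReal_mul] at h1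
      exact h1
    · -- small elements
      intro i s hs
      have h1 : ‖U n s‖ < ε := lt_of_le_of_lt (norm_sum_le n i s hs) hn
      have h2 := h _ h1
      have h3 := form_diff T hw hinv (U n s) a
      have h4 : (w (star (T (U n s) a - a) * (T (U n s) a - a))).re ≤ δ ^ 2 := by
        calc _ ≤ ‖w (star (T (U n s) a - a) * (T (U n s) a - a))‖ := Complex.re_le_norm _
          _ ≤ ‖star (T (U n s) a - a) * (T (U n s) a - a)‖ := norm_apply_le hw _
          _ = ‖T (U n s) a - a‖ * ‖T (U n s) a - a‖ := CStarRing.norm_star_mul_self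
          _ ≤ δ * δ := by gcongr
          _ = δ ^ 2 := by ring
      simp only [U_zero, hzero]
      linarith
  apply le_antisymm _ (hw.2.2.2 _)
  apply le_of_forall_pos_le_add
  intro η hη
  have := hbound (Real.sqrt (η / 4)) (by positivity)
  rw [Real.sq_sqrt (by positivity)] at this
  linarith

/-- products of differences are null -/
theorem null_mul {w : WeakDual ℂ A} (hw : w ∈ St A) (f : A ≃⋆ₐ[ℂ] A)
    (hf : ∀ a, (w (star (f a - a) * (f a - a))).re = 0) (a c : A) :
    w (star ((f a - a) * c) * ((f a - a) * c)) = 0 := by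
  have h : ∀ y, w (star y * ((f a - a) * c)) = 0 := by
    intro y
    have e1 : (f a - a) * c = (f (a * c) - a * c) - f a * (f c - c) := by
      rw [map_mul]; noncomm_ring
    rw [e1, mul_sub, map_sub, null_orth hw (hf _), zero_sub, neg_eq_zero]
    have e2 : star y * (f a * (f c - c)) = star (star (f a) * y) * (f c - c) := by
      rw [star_mul, star_star, mul_assoc]
    rw [e2]
    exact null_orth hw (hf _) _
  exact h _

end Pool.Agent.H658.Invariant
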