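import Pool.Agent.H658.Cuntz
import Pool.Agent.H658.Invariant

/-!
# The automorphism group of the Cuntz algebra does not contain the exotic group
-/

set_option autoImplicit false
open Filter Topology

namespace Pool.Agent.H658.Main

open Cuntz Exotic Invariant

/-- the generated star algebra -/
noncomputable abbrev B : StarSubalgebra ℂ (H →L[ℂ] H) := StarAlgebra.adjoin ℂ {S false, S true}

/-- the C*-algebra generated by the two isometries -/
abbrev A : Type := (B.topologicalClosure : StarSubalgebra ℂ (H →L[ℂ] H))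

noncomputable instance : CStarAlgebra A :=
  StarSubalgebra.cstarAlgebra _ (h_closed := StarSubalgebra.isClosed_topologicalClosure B)

lemma S_mem (i : Bool) : S i ∈ B := by
  apply StarAlgebra.subset_adjoin
  cases i
  · exact Set.mem_insert _ _
  · exact Set.mem_insert_of_mem _ rfl

/-- the generators -/
noncomputable def s (i : Bool) : A := ⟨S i, StarSubalgebra.le_topologicalClosure B (S_mem i)⟩

lemma star_s_mul_s (i : Bool) : star (s i) * s i = 1 := Subtype.ext (star_S_mul_S i)

lemma sum_s : s false * star (s false) + s true * star (s true) = 1 := Subtype.ext sum_S_mul_star_S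

instance : Nontrivial A := by
  refine ⟨⟨1, 0, fun h => ?_⟩⟩
  have h1 : (1 : H →L[ℂ] H) = 0 := congrArg Subtype.val h
  have h2 := congrArg (fun T : H →L[ℂ] H => T (e y0)) h1
  have h3 : e y0 = 0 := h2
  have h4 := norm_e y0
  rw [h3, norm_zero] at h4
  exact zero_ne_one h4

lemma coe_mem_of_adjoin : ∀ b ∈ B, ∃ b' : A, b' ∈ StarAlgebra.adjoin ℂ ({s false, s true} : Set A) ∧
    (b' : H →L[ℂ] H) = b := by
  intro b hb
  have h1 : B = (StarAlgebra.adjoin ℂ ({s false, s true} : Set A)).map
      (B.topologicalClosure.subtype) := by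
    rw [StarAlgHom.map_adjoin, Set.image_pair]
    rfl
  rw [h1] at hb
  obtain ⟨b', hb', rfl⟩ := hb
  exact ⟨b', hb', rfl⟩

lemma closure_eq_top :
    (StarAlgebra.adjoin ℂ ({s false, s true} : Set A)).topologicalClosure = ⊤ := by
  rw [eq_top_iff]
  intro a _
  show a ∈ closure ((StarAlgebra.adjoin ℂ ({s false, s true} : Set A) : StarSubalgebra ℂ A) : Set A)
  rw [Metric.mem_closure_iff]
  intro ε hε
  have ha : (a : H →L[ℂ] H) ∈ closure (B : Set (H →L[ℂ] H)) := a.2
  rw [Metric.mem_closure_iff] at ha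
  obtain ⟨b, hb, hab⟩ := ha ε hε
  obtain ⟨b', hb', rfl⟩ := coe_mem_of_adjoin b hb
  exact ⟨b', hb', hab⟩

/-- words as elements of the algebra -/
noncomputable def w (μ : List Bool) : A := (μ.map s).prod

lemma coe_w (μ : List Bool) : ((w μ : A) : H →L[ℂ] H) = W μ := by
  induction μ with
  | nil => rfl
  | cons i μ ih =>
    show (((s i) * w μ : A) : H →L[ℂ] H) = _
    rw [W_cons, ← ih]
    rfl

/-- the vector state at a basis vector -/
noncomputable def vs : WeakDual ℂ A :=
  StrongDual.toWeakDual (LinearMap.mkContinuous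
    { toFun := fun a : A => inner ℂ (e y0) ((a : H →L[ℂ] H) (e y0))
      map_add' := fun a b => by
        show inner ℂ (e y0) (((a : H →L[ℂ] H) + (b : H →L[ℂ] H)) (e y0)) = _
        rw [ContinuousLinearMap.add_apply, inner_add_right]
      map_smul' := fun c a => by
        show inner ℂ (e y0) ((c • (a : H →L[ℂ] H)) (e y0)) = _
        rw [ContinuousLinearMap.smul_apply, inner_smul_right]; rfl } 1 (fun a => by
      show ‖inner ℂ (e y0) ((a : H →L[ℂ] H) (e y0))‖ ≤ 1 * ‖a‖
      calc ‖inner ℂ (e y0) ((a : H →L[ℂ] H) (e y0))‖ ≤ ‖e y0‖ * ‖(a : H →L[ℂ] H) (e y0)‖ :=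
            norm_inner_le_norm _ _
        _ ≤ ‖e y0‖ * (‖(a : H →L[ℂ] H)‖ * ‖e y0‖) := by
            gcongr; exact ContinuousLinearMap.le_opNorm _ _
        _ = 1 * ‖a‖ := by rw [norm_e, one_mul, mul_one, one_mul]; rfl))

lemma vs_apply (a : A) : vs a = inner ℂ (e y0) ((a : H →L[ℂ] H) (e y0)) := rfl

lemma vs_mem : vs ∈ St A := by
  refine ⟨?_, ?_, ?_, ?_⟩
  · rw [Set.mem_preimage, mem_closedBall_zero_iff]
    refine ContinuousLinearMap.opNorm_le_bound _ zero_le_one fun a => ?_
    show ‖inner ℂ (e y0) ((a : H →L[ℂ] H) (e y0))‖ ≤ 1 * ‖a‖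
    calc ‖inner ℂ (e y0) ((a : H →L[ℂ] H) (e y0))‖ ≤ ‖e y0‖ * ‖(a : H →L[ℂ] H) (e y0)‖ :=
          norm_inner_le_norm _ _
      _ ≤ ‖e y0‖ * (‖(a : H →L[ℂ] H)‖ * ‖e y0‖) := by
          gcongr; exact ContinuousLinearMap.le_opNorm _ _
      _ = 1 * ‖a‖ := by rw [norm_e, one_mul, mul_one, one_mul]; rfl
  · rw [vs_apply]
    show inner ℂ (e y0) (e y0) = 1
    rw [inner_e]; simp
  · intro a
    rw [vs_apply, vs_apply]
    show inner ℂ (e y0) ((star (a : H →L[ℂ] H)) (e y0)) = _
    rw [ContinuousLinearMap.star_eq_adjoint, ContinuousLinearMap.adjoint_inner_right,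
      RCLike.star_def, inner_conj_symm]
  · intro a
    rw [vs_apply]
    show 0 ≤ (inner ℂ (e y0) ((star (a : H →L[ℂ] H)) ((a : H →L[ℂ] H) (e y0)))).re
    rw [ContinuousLinearMap.star_eq_adjoint, ContinuousLinearMap.adjoint_inner_right]
    exact inner_self_nonneg (𝕜 := ℂ)

/-- an element of the algebra all of whose multiples are null is zero -/
lemma eq_zero_of_null {om : WeakDual ℂ A} (hom : om ∈ St A) (b : A)
    (hb : ∀ c : A, om (star (b * c) * (b * c)) = 0) : b = 0 := by
  apply Subtype.ext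
  apply ext_e
  intro y
  have h1 := tendsto_compression y (star b * b : A).2
  have h2 : Tendsto (fun n => star (w (pre y n)) * (star b * b) * w (pre y n)) atTop
      (𝓝 (algebraMap ℂ A (inner ℂ (e y) (((star b * b : A) : H →L[ℂ] H) (e y))))) := by
    rw [tendsto_subtype_rng]
    have e1 : (fun n => (((star (w (pre y n)) * (star b * b) * w (pre y n) : A)) : H →L[ℂ] H)) =
        fun n => star (W (pre y n)) * ((star b * b : A) : H →L[ℂ] H) * W (pre y n) := by
      funext n
      rw [← coe_w]; rfl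
    rw [e1]
    exact h1
  have h3 : Tendsto (fun n => om (star (w (pre y n)) * (star b * b) * w (pre y n))) atTop
      (𝓝 (om (algebraMap ℂ A (inner ℂ (e y) (((star b * b : A) : H →L[ℂ] H) (e y)))))) :=
    ((map_continuous om).tendsto _).comp h2
  have h4 : (fun n => om (star (w (pre y n)) * (star b * b) * w (pre y n))) = fun _ => 0 := by
    funext n
    have e2 : star (w (pre y n)) * (star b * b) * w (pre y n) =
        star (b * w (pre y n)) * (b * w (pre y n)) := by
      rw [star_mul]; noncomm_ring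
    rw [e2]
    exact hb _
  rw [h4] at h3
  have h5 := tendsto_nhds_unique h3 tendsto_const_nhds
  rw [Algebra.algebraMap_eq_smul_one, map_smul, hom.2.1, smul_eq_mul, mul_one] at h5
  have h6 : inner ℂ (e y) ((star (b : H →L[ℂ] H)) ((b : H →L[ℂ] H) (e y))) = 0 := h5
  rw [ContinuousLinearMap.star_eq_adjoint, ContinuousLinearMap.adjoint_inner_right,
    inner_self_eq_zero] at h6
  rw [h6]
  rfl

/-- the main argument -/
theorem no_embedding (φ : G → (A ≃⋆ₐ[ℂ] A)) (hmul : ∀ g h : G, ∀ a : A, φ (g * h) a = φ g (φ h a))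
    (hemb : IsEmbedding (fun g : G => (⇑(φ g) : A → A))) : False := by
  have hone : ∀ a, φ 1 a = a := by
    intro a
    apply (φ 1).injective
    show φ 1 (φ 1 a) = φ 1 a
    rw [← hmul, one_mul]
  let T : V → (A ≃⋆ₐ[ℂ] A) := fun v => φ (Multiplicative.ofAdd (v : UniformSpace.Completion V))
  have hadd : ∀ v w a, T (v + w) a = T v (T w a) := by
    intro v w a
    show φ (Multiplicative.ofAdd ((v + w : V) : UniformSpace.Completion V)) a = _
    rw [UniformSpace.Completion.coe_add, ofAdd_add, hmul]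
  have hzero : ∀ a, T 0 a = a := by
    intro a
    show φ (Multiplicative.ofAdd ((0 : V) : UniformSpace.Completion V)) a = _
    rw [UniformSpace.Completion.coe_zero, ofAdd_zero, hone]
  have hc : ∀ a : A, Continuous (fun v : V => T v a) := by
    intro a
    have h1 : Continuous (fun g : G => φ g a) := (continuous_apply a).comp hemb.continuous
    have h2 : Continuous (fun v : V =>
        (Multiplicative.ofAdd (v : UniformSpace.Completion V) : G)) :=
      continuous_ofAdd.comp (UniformSpace.Completion.continuous_coe V)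
    exact h1.comp h2
  have hcont : ∀ a, ∀ δ > 0, ∃ ε > 0, ∀ v : V, ‖v‖ < ε → ‖T v a - a‖ ≤ δ := by
    intro a δ hδ
    have h1 := Metric.tendsto_nhds_nhds.1 ((hc a).tendsto 0) δ hδ
    obtain ⟨ε, hε, h⟩ := h1
    refine ⟨ε, hε, fun v hv => ?_⟩
    have h2 := h (x := v) (by rw [dist_zero_right]; exact hv)
    rw [hzero, dist_eq_norm] at h2
    exact h2.le
  obtain ⟨om, hom, hinv⟩ := exists_invariant T hadd hzero ⟨vs, vs_mem⟩
  have hnull := null_diff T hadd hzero hcont hom hinv
  have hid : ∀ a, T (el 0) a = a := by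
    intro a
    rw [← sub_eq_zero]
    exact eq_zero_of_null hom _ fun c => null_mul hom (T (el 0)) hnull a c
  have h1 : (Multiplicative.ofAdd ((el 0 : V) : UniformSpace.Completion V) : G) = 1 := by
    apply hemb.injective
    funext a
    show T (el 0) a = φ 1 a
    rw [hid, hone]
  have h2 : ((el 0 : V) : UniformSpace.Completion V) = 0 := h1
  have h3 : ‖el 0‖ = 0 := by
    rw [← UniformSpace.Completion.norm_coe, h2, norm_zero]
  have h4 := one_le_norm_el 0
  rw [h3] at h4
  linarith

end Pool.Agent.H658.Main
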