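import Pool.Agent.H724.ST.Stm

/-!
# ST-INV: inversion of `L` on OK words (statement `S_INV` of helper724)
-/

set_option autoImplicit false

namespace Pool.Agent.H658.STINV

open Pool.Agent.H724.ST

theorem arith {p N al : ℕ} (h : al ≤ p * (N + 1)) (hr : al % (N + 1) ≠ 0) :
    1 ≤ N + 1 - al % (N + 1) ∧ N + 1 - al % (N + 1) ≤ N ∧ al / (N + 1) < p ∧
      (al / (N + 1) + 1) * (N + 1) - (N + 1 - al % (N + 1)) = al := by
  have h1 : al % (N + 1) < N + 1 := Nat.mod_lt al (Nat.succ_pos N)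
  have h2 := Nat.div_add_mod al (N + 1)
  have h3 : al / (N + 1) < p := by
    rw [Nat.div_lt_iff_lt_mul (Nat.succ_pos N)]
    rcases Nat.lt_or_ge al (p * (N + 1)) with h4 | h4
    · exact h4
    · exfalso
      have h5 : al = p * (N + 1) := le_antisymm h h4
      apply hr
      rw [h5, Nat.mul_mod_left]
  refine ⟨by omega, by omega, h3, ?_⟩
  have h4 : (al / (N + 1) + 1) * (N + 1) = (N + 1) * (al / (N + 1)) + (N + 1) := by ring
  rw [h4]
  omega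

theorem inv (h1 : S_SC) : S_INV := by
  intro C hC u v hu hv hL
  obtain ⟨k1, k2, k3, k4, -, -, -, -⟩ := h1 C
  have hp := hC.hp
  have hN := hC.hN
  unfold Lp at hL
  unfold OK at hu hv
  -- shape of the words in terms of the states
  have shape : ∀ w : List Bool, (sc C w).1 = 1 ∨ (sc C w).1 = 2 →
      (sc C w).2.1 ≤ C.E ∧ ∃ z, w = rn (sc C w).2.1 ++ true :: z := by
    intro w hw
    rcases hs : sc C w with ⟨t, al, l, g⟩
    rw [hs] at hw
    rcases hw with hw | hw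
    · simp only at hw
      subst hw
      obtain ⟨a1, a2, -, -⟩ := k2 w al l g hs
      exact ⟨a2, _, a1⟩
    · simp only at hw
      subst hw
      obtain ⟨a1, -, -, a2⟩ := k3 w al l g hs
      exact ⟨a1, a2⟩
  have shape1 : ∀ w : List Bool, (sc C w).1 = 1 →
      (sc C w).2.1 ≤ C.E ∧ w = rn (sc C w).2.1 ++ true :: rn (sc C w).2.2.2 := by
    intro w hw
    rcases hs : sc C w with ⟨t, al, l, g⟩
    rw [hs] at hw
    simp only at hw
    subst hw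
    obtain ⟨a1, a2, -, -⟩ := k2 w al l g hs
    exact ⟨a2, a1⟩
  have shape0 : ∀ w : List Bool, sc C w = (0, 0, 0, 0) → w = [] := by
    intro w hw
    obtain ⟨a1, -, -, -⟩ := k1 w 0 0 0 hw
    exact a1
  have ar : ∀ al : ℕ, al ≤ C.E → al % (C.N + 1) ≠ 0 →
      1 ≤ C.N + 1 - al % (C.N + 1) ∧ C.N + 1 - al % (C.N + 1) ≤ C.N ∧ al / (C.N + 1) < C.p ∧
      (al / (C.N + 1) + 1) * (C.N + 1) - (C.N + 1 - al % (C.N + 1)) = al :=
    fun al h h' => arith h h'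
  simp only [acc, Bool.or_eq_true, Bool.and_eq_true, decide_eq_true_eq] at hL
  rcases hL with ((((hL | hL) | hL) | hL) | hL) | hL
  · exact absurd hL hu
  · exact absurd hL hv
  · obtain ⟨⟨⟨a1, a2⟩, a3⟩, a4⟩ := hL
    left
    obtain ⟨b1, b2⟩ := shape1 u a1
    obtain ⟨c1, c2, c3, c4⟩ := ar (sc C u).2.1 b1 (by rw [a2]; omega)
    refine ⟨(sc C u).2.1 / (C.N + 1), c3, ?_, shape0 v a4⟩
    rw [a2] at c4
    have h5 : C.N + 1 - C.N = 1 := by omega
    rw [h5] at c4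
    unfold blk
    rw [c4]
    rw [a3] at b2
    exact b2
  · obtain ⟨⟨⟨a1, a2⟩, a3⟩, a4⟩ := hL
    right; left
    obtain ⟨b1, b2⟩ := shape1 v a1
    obtain ⟨c1, c2, c3, c4⟩ := ar (sc C v).2.1 b1 (by rw [a2]; omega)
    refine ⟨(sc C v).2.1 / (C.N + 1), c3, shape0 u a4, ?_⟩
    rw [a2] at c4
    have h5 : C.N + 1 - C.N = 1 := by omega
    rw [h5] at c4
    unfold blk
    rw [c4]
    rw [a3] at b2
    exact b2
  · obtain ⟨⟨⟨⟨⟨⟨a1, a2⟩, a3⟩, a4⟩, a5⟩, a6⟩, a7⟩ := hL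
    right; right; left
    obtain ⟨b1, b2⟩ := shape1 u a1
    obtain ⟨b1', b2'⟩ := shape1 v a2
    obtain ⟨c1, c2, c3, c4⟩ := ar (sc C u).2.1 b1 a4
    obtain ⟨c1', c2', c3', c4'⟩ := ar (sc C v).2.1 b1' (by rw [← a3]; exact a4)
    refine ⟨C.N + 1 - (sc C u).2.1 % (C.N + 1), (sc C u).2.1 / (C.N + 1),
      (sc C v).2.1 / (C.N + 1), (sc C u).2.2.2, c1, c2, c3, c3', Nat.one_le_iff_ne_zero.2 a6, a7,
      ?_, ?_⟩
    · rw [c4]; exact b2
    · rw [a3, c4', a5]; exact b2'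
  · obtain ⟨⟨⟨⟨a1, a2⟩, a3⟩, a4⟩, a5⟩ := hL
    right; right; right
    obtain ⟨b1, z, b2⟩ := shape u a1
    obtain ⟨b1', z', b2'⟩ := shape v a2
    obtain ⟨c1, c2, c3, c4⟩ := ar (sc C u).2.1 b1 a4
    obtain ⟨c1', c2', c3', c4'⟩ := ar (sc C v).2.1 b1' (by rw [← a3]; exact a4)
    refine ⟨C.N + 1 - (sc C u).2.1 % (C.N + 1), (sc C u).2.1 / (C.N + 1),
      (sc C v).2.1 / (C.N + 1), z, z', c1, c2, c3, c3', a5, ?_, ?_⟩
    · rw [c4]; exact b2
    · rw [a3, c4']; exact b2'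

end Pool.Agent.H658.STINV
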