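import Pool.Agent.H770.GS.TB

/-!
# Project TB (helper770): `S_d1`, the monotone derivative
-/

set_option autoImplicit false

open MeasureTheory Set intervalIntegral Filter Topology

namespace Pool.Agent.H658.TBd1

open Pool.Agent.H770.GS

theorem der_F (r : ℝ) {y s : ℝ} (hy : 0 < y) (hs : 0 < s) :
    HasDerivAt (fun s : ℝ => Real.sqrt (2 + s) * Real.sqrt s * nL r (Real.sqrt s * y) / (2 * y))
      (Real.sqrt (2 + s) / 4 * (nE r (s / (s + 2)) (Real.sqrt s * y) / (Real.sqrt s * y))) s := by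
  have h1 : HasDerivAt (fun s : ℝ => Real.sqrt (2 + s)) (1 / (2 * Real.sqrt (2 + s))) s := by
    have h0 : HasDerivAt (fun s : ℝ => 2 + s) 1 s := (hasDerivAt_id s).const_add 2
    exact h0.sqrt (by linarith)
  have h2 : HasDerivAt (fun s : ℝ => Real.sqrt s) (1 / (2 * Real.sqrt s)) s :=
    Real.hasDerivAt_sqrt hs.ne'
  have h3 : HasDerivAt (fun s : ℝ => Real.sqrt s * y) (1 / (2 * Real.sqrt s) * y) s :=
    h2.mul_const y
  have hn : HasDerivAt (nL r) (nLd r (Real.sqrt s * y)) (Real.sqrt s * y) :=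
    nL_deriv r (Real.sqrt s * y)
  have h4 : HasDerivAt (fun s : ℝ => nL r (Real.sqrt s * y))
      (nLd r (Real.sqrt s * y) * (1 / (2 * Real.sqrt s) * y)) s := by
    have h0 : HasDerivAt (nL r ∘ fun s : ℝ => Real.sqrt s * y)
        (nLd r (Real.sqrt s * y) * (1 / (2 * Real.sqrt s) * y)) s := HasDerivAt.comp s hn h3
    exact h0
  have h12 : HasDerivAt (fun s : ℝ => Real.sqrt (2 + s) * Real.sqrt s)
      (1 / (2 * Real.sqrt (2 + s)) * Real.sqrt s + Real.sqrt (2 + s) * (1 / (2 * Real.sqrt s))) s :=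
    h1.mul h2
  have h124 : HasDerivAt (fun s : ℝ => Real.sqrt (2 + s) * Real.sqrt s * nL r (Real.sqrt s * y))
      ((1 / (2 * Real.sqrt (2 + s)) * Real.sqrt s + Real.sqrt (2 + s) * (1 / (2 * Real.sqrt s))) *
        nL r (Real.sqrt s * y) + Real.sqrt (2 + s) * Real.sqrt s *
        (nLd r (Real.sqrt s * y) * (1 / (2 * Real.sqrt s) * y))) s :=
    h12.mul h4
  have h5 := h124.div_const (2 * y)
  refine h5.congr_deriv ?_
  have ha : 0 < Real.sqrt (2 + s) := Real.sqrt_pos.2 (by linarith)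
  have hb : 0 < Real.sqrt s := Real.sqrt_pos.2 hs
  have hq : s / (s + 2) = Real.sqrt s ^ 2 / Real.sqrt (2 + s) ^ 2 := by
    rw [Real.sq_sqrt hs.le, Real.sq_sqrt (by linarith), add_comm]
  unfold nE
  rw [hq]
  generalize Real.sqrt (2 + s) = a at *
  generalize Real.sqrt s = b at *
  generalize nL r (b * y) = n at *
  generalize nLd r (b * y) = n' at *
  field_simp
  ring

theorem d1 : S_d1 := by
  intro hS r s1 s2 hr hr2 hs1 hs12 hs2 y1 y2 hy1 hy12 hy2
  have hy2' : 0 < y2 := hy1.trans_le hy12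
  have hder : ∀ s, 0 < s → HasDerivAt (fun s : ℝ =>
      Real.sqrt (2 + s) * Real.sqrt s * nL r (Real.sqrt s * y2) / (2 * y2) -
      Real.sqrt (2 + s) * Real.sqrt s * nL r (Real.sqrt s * y1) / (2 * y1))
      (Real.sqrt (2 + s) / 4 * (nE r (s / (s + 2)) (Real.sqrt s * y2) / (Real.sqrt s * y2)) -
      Real.sqrt (2 + s) / 4 * (nE r (s / (s + 2)) (Real.sqrt s * y1) / (Real.sqrt s * y1))) s :=
    fun s hs => (der_F r hy2' hs).sub (der_F r hy1 hs)
  have hanti : AntitoneOn (fun s : ℝ =>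
      Real.sqrt (2 + s) * Real.sqrt s * nL r (Real.sqrt s * y2) / (2 * y2) -
      Real.sqrt (2 + s) * Real.sqrt s * nL r (Real.sqrt s * y1) / (2 * y1)) (Icc s1 s2) := by
    refine antitoneOn_of_deriv_nonpos (convex_Icc s1 s2) ?_ ?_ ?_
    · intro s hs
      exact (hder s (hs1.trans_le hs.1)).continuousAt.continuousWithinAt
    · intro s hs
      rw [interior_Icc] at hs
      exact (hder s (hs1.trans hs.1)).differentiableAt.differentiableWithinAt
    · intro s hs
      rw [interior_Icc] at hs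
      have hs0 : 0 < s := hs1.trans hs.1
      have hsle : s ≤ 1 := hs.2.le.trans hs2
      rw [(hder s hs0).deriv]
      have hb : 0 < Real.sqrt s := Real.sqrt_pos.2 hs0
      have hb1 : Real.sqrt s ≤ 1 := Real.sqrt_le_one.2 hsle
      have ha : 0 ≤ Real.sqrt (2 + s) / 4 := by positivity
      have hq0 : 0 ≤ s / (s + 2) := by positivity
      have hq1 : s / (s + 2) ≤ 1 / 3 := by
        rw [div_le_div_iff₀ (by linarith) (by norm_num)]
        linarith
      obtain ⟨-, -, -, h4⟩ := hS r (s / (s + 2)) hr hr2 hq0 hq1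
      have hx0 : Real.sqrt s * y1 ≤ r := by
        calc Real.sqrt s * y1 ≤ 1 * y1 := mul_le_mul_of_nonneg_right hb1 hy1.le
          _ ≤ r := by linarith
      have hx : Real.sqrt s * y2 ≤ 2 * r := by
        calc Real.sqrt s * y2 ≤ 1 * y2 := mul_le_mul_of_nonneg_right hb1 hy2'.le
          _ ≤ 2 * r := by linarith
      have h5 := h4 (Real.sqrt s * y1) (Real.sqrt s * y2) (mul_pos hb hy1) hx0
        (mul_le_mul_of_nonneg_left hy12 hb.le) hx
      have h6 := mul_le_mul_of_nonneg_left h5 ha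
      linarith
  have h := hanti (left_mem_Icc.2 hs12.le) (right_mem_Icc.2 hs12.le) hs12.le
  unfold dm
  rw [neg_div, neg_div, sub_div, sub_div]
  have h' : Real.sqrt (2 + s2) * Real.sqrt s2 * nL r (Real.sqrt s2 * y2) / (2 * y2) -
      Real.sqrt (2 + s2) * Real.sqrt s2 * nL r (Real.sqrt s2 * y1) / (2 * y1) ≤
      Real.sqrt (2 + s1) * Real.sqrt s1 * nL r (Real.sqrt s1 * y2) / (2 * y2) -
      Real.sqrt (2 + s1) * Real.sqrt s1 * nL r (Real.sqrt s1 * y1) / (2 * y1) := h
  linarith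

end Pool.Agent.H658.TBd1
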