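import Pool.Agent.H812.Tm.Spec4

/-!
# Project TM (helper812): growth along the chain of good functions (part `SChG`)
-/

set_option autoImplicit false

open Real Filter Topology Set
open scoped ContDiff

namespace Pool.Agent.H658.TmChG

open Pool.Agent.W811.Stu Pool.Agent.H812.Tm

/-! ### geometric sums -/

lemma geo1 {ι : Type*} {r : ℝ} (h0 : 0 < r) (h1 : r < 1) (S : Finset ι) (u : ι → ℕ)
    (hu : ∀ x ∈ S, ∀ y ∈ S, u x = u y → x = y) : ∑ l ∈ S, r ^ u l ≤ (1 - r)⁻¹ := by
  classical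
  have e : ∑ l ∈ S, r ^ u l = ∑ n ∈ S.image u, r ^ n := by
    rw [Finset.sum_image (fun x hx y hy h => hu x hx y hy h)]
  rw [e, ← tsum_geometric_of_lt_one h0.le h1]
  exact (summable_geometric_of_lt_one h0.le h1).sum_le_tsum _ (fun n _ => by positivity)

lemma geo2 {ι : Type*} {r : ℝ} (h0 : 0 < r) (h1 : r < 1) (S : Finset ι) (u w : ι → ℕ)
    (hu : ∀ x ∈ S, ∀ y ∈ S, u x = u y → w x = w y → x = y) :
    ∑ l ∈ S, r ^ u l * r ^ w l ≤ (1 - r)⁻¹ ^ 2 := by
  classical
  have e : ∑ l ∈ S, r ^ u l * r ^ w l = ∑ p ∈ S.image (fun l => (u l, w l)), r ^ p.1 * r ^ p.2 := by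
    rw [Finset.sum_image (fun x hx y hy h => hu x hx y hy (congrArg Prod.fst h) (congrArg Prod.snd h))]
  rw [e]
  have hsub : S.image (fun l => (u l, w l)) ⊆ (S.image u) ×ˢ (S.image w) := by
    intro p hp
    obtain ⟨l, hl, rfl⟩ := Finset.mem_image.1 hp
    exact Finset.mk_mem_product (Finset.mem_image_of_mem _ hl) (Finset.mem_image_of_mem _ hl)
  refine (Finset.sum_le_sum_of_subset_of_nonneg hsub (fun p _ _ => by positivity)).trans ?_
  rw [Finset.sum_product, ← Finset.sum_mul_sum, pow_two]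
  have hh : ∀ T : Finset ℕ, ∑ n ∈ T, r ^ n ≤ (1 - r)⁻¹ := fun T =>
    geo1 h0 h1 T id (fun x _ y _ h => h)
  exact mul_le_mul (hh _) (hh _) (Finset.sum_nonneg fun n _ => by positivity)
    (inv_nonneg.2 (by linarith))

/-- the two sums along a sequence which is divided into blocks -/
lemma chain_sums {W : ℕ → ℝ} {M a k : ℕ → ℕ} {C r : ℝ} (hW : ∀ i, 0 < W i) (hC : 0 < C)
    (h0 : 0 < r) (h1 : r < 1)
    (H : ∀ l i, l ≤ i → (M l < M i ∧ W l ≤ C * (r ^ (M i - M l) * r ^ a l * r ^ k i) * W i) ∨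
      (M l = M i ∧ k i = k l + (i - l) ∧ a l = a i + (i - l) ∧ W l ≤ C * r ^ (i - l) * W i)) :
    (∀ i, ∑ l ∈ Finset.range (i + 1), W l ≤ (C * ((1 - r)⁻¹ + (1 - r)⁻¹ ^ 2)) * W i) ∧
    (∀ i n, ∑ l ∈ Finset.Ico i n, 1 / W l ≤ (C * ((1 - r)⁻¹ + (1 - r)⁻¹ ^ 2)) / W i) := by
  classical
  have hr1 : ∀ n : ℕ, r ^ n ≤ 1 := fun n => pow_le_one₀ h0.le h1.le
  have hrp : ∀ n : ℕ, 0 < r ^ n := fun n => pow_pos h0 n
  constructor
  · intro i
    have h2 : ∀ l ∈ Finset.range (i + 1), W l ≤ C * W i * (r ^ (i - l)) +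
        C * W i * (if M l < M i then r ^ (M i - M l) * r ^ a l else 0) := by
      intro l hl
      rw [Finset.mem_range] at hl
      have hCW : 0 < C * W i := mul_pos hC (hW i)
      rcases H l i (by omega) with ⟨h3, h4⟩ | ⟨h3, -, -, h4⟩
      · rw [if_pos h3]
        have h5 : C * (r ^ (M i - M l) * r ^ a l * r ^ k i) * W i ≤
            C * W i * (r ^ (M i - M l) * r ^ a l) := by
          have h6 : r ^ (M i - M l) * r ^ a l * r ^ k i ≤ r ^ (M i - M l) * r ^ a l :=
            mul_le_of_le_one_right (mul_pos (hrp _) (hrp _)).le (hr1 _)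
          calc C * (r ^ (M i - M l) * r ^ a l * r ^ k i) * W i
              = C * W i * (r ^ (M i - M l) * r ^ a l * r ^ k i) := by ring
            _ ≤ _ := mul_le_mul_of_nonneg_left h6 hCW.le
        have h7 : 0 < C * W i * r ^ (i - l) := mul_pos hCW (hrp _)
        linarith
      · rw [if_neg (by omega), mul_zero, add_zero]
        calc W l ≤ C * r ^ (i - l) * W i := h4
          _ = C * W i * r ^ (i - l) := by ring
    refine (Finset.sum_le_sum h2).trans ?_
    rw [Finset.sum_add_distrib, ← Finset.mul_sum, ← Finset.mul_sum, ← Finset.sum_filter]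
    have h8 : ∑ l ∈ Finset.range (i + 1), r ^ (i - l) ≤ (1 - r)⁻¹ := by
      apply geo1 h0 h1
      intro x hx y hy h
      rw [Finset.mem_range] at hx hy
      omega
    have h9 : ∑ l ∈ (Finset.range (i + 1)).filter (fun l => M l < M i), r ^ (M i - M l) * r ^ a l ≤
        (1 - r)⁻¹ ^ 2 := by
      apply geo2 h0 h1 _ (fun l => M i - M l) (fun l => a l)
      intro x hx y hy h h'
      rw [Finset.mem_filter, Finset.mem_range] at hx hy
      have e1 : M x = M y := by omega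
      have h' : a x = a y := h'
      rcases le_total x y with hxy | hxy
      · rcases H x y hxy with ⟨h3, -⟩ | ⟨-, -, h3, -⟩ <;> omega
      · rcases H y x hxy with ⟨h3, -⟩ | ⟨-, -, h3, -⟩ <;> omega
    have hCW : 0 ≤ C * W i := (mul_pos hC (hW i)).le
    have h10 := mul_le_mul_of_nonneg_left h8 hCW
    have h11 := mul_le_mul_of_nonneg_left h9 hCW
    calc _ ≤ C * W i * (1 - r)⁻¹ + C * W i * (1 - r)⁻¹ ^ 2 := add_le_add h10 h11
      _ = _ := by ring
  · intro i n
    have h2 : ∀ l ∈ Finset.Ico i n, 1 / W l ≤ C / W i * (r ^ (l - i)) +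
        C / W i * (if M i < M l then r ^ (M l - M i) * r ^ k l else 0) := by
      intro l hl
      rw [Finset.mem_Ico] at hl
      have hCW : 0 < C / W i := div_pos hC (hW i)
      have key : ∀ X : ℝ, W i ≤ C * X * W l → 1 / W l ≤ C / W i * X := by
        intro X hX
        rw [div_le_iff₀ (hW l)]
        have : C / W i * X * W l = (C * X * W l) / W i := by ring
        rw [this, le_div_iff₀ (hW i)]
        linarith
      rcases H i l (by omega) with ⟨h3, h4⟩ | ⟨h3, -, -, h4⟩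
      · rw [if_pos h3]
        have h5 := key _ h4
        have h6 : r ^ (M l - M i) * r ^ a i * r ^ k l ≤ r ^ (M l - M i) * r ^ k l := by
          calc r ^ (M l - M i) * r ^ a i * r ^ k l = r ^ (M l - M i) * r ^ k l * r ^ a i := by ring
            _ ≤ _ := mul_le_of_le_one_right (mul_pos (hrp _) (hrp _)).le (hr1 _)
        have h8 := mul_le_mul_of_nonneg_left h6 hCW.le
        have h7 : 0 < C / W i * r ^ (l - i) := mul_pos hCW (hrp _)
        linarith
      · rw [if_neg (by omega), mul_zero, add_zero]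
        exact key _ h4
    refine (Finset.sum_le_sum h2).trans ?_
    rw [Finset.sum_add_distrib, ← Finset.mul_sum, ← Finset.mul_sum, ← Finset.sum_filter]
    have h8 : ∑ l ∈ Finset.Ico i n, r ^ (l - i) ≤ (1 - r)⁻¹ := by
      apply geo1 h0 h1
      intro x hx y hy h
      rw [Finset.mem_Ico] at hx hy
      omega
    have h9 : ∑ l ∈ (Finset.Ico i n).filter (fun l => M i < M l), r ^ (M l - M i) * r ^ k l ≤
        (1 - r)⁻¹ ^ 2 := by
      apply geo2 h0 h1 _ (fun l => M l - M i) (fun l => k l)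
      intro x hx y hy h h'
      rw [Finset.mem_filter, Finset.mem_Ico] at hx hy
      have e1 : M x = M y := by omega
      have h' : k x = k y := h'
      rcases le_total x y with hxy | hxy
      · rcases H x y hxy with ⟨h3, -⟩ | ⟨-, h3, -, -⟩ <;> omega
      · rcases H y x hxy with ⟨h3, -⟩ | ⟨-, h3, -, -⟩ <;> omega
    have hCW : 0 ≤ C / W i := (div_pos hC (hW i)).le
    have h10 := mul_le_mul_of_nonneg_left h8 hCW
    have h11 := mul_le_mul_of_nonneg_left h9 hCW
    calc _ ≤ C / W i * (1 - r)⁻¹ + C / W i * (1 - r)⁻¹ ^ 2 := add_le_add h10 h11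
      _ = _ := by ring

/-! ### the structure of the chain -/

/-- the level of a state -/
def lev : Ch → ℕ
  | .Y j => j
  | .T j _ => j + 1

/-- the position of a state in its run -/
def pos : Ch → ℕ
  | .Y _ => 0
  | .T _ k => k

/-- the number of the states of the run after the given one -/
def aft (d : ℕ → ℕ) : Ch → ℕ
  | .Y _ => 0
  | .T j k => d j - 1 - k

/-- the states which occur -/
def Ok (d : ℕ → ℕ) (bad : ℕ → Bool) : Ch → Prop
  | .Y j => bad j = false
  | .T j k => bad j = true ∧ k < d j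

lemma ok_nx {d : ℕ → ℕ} (hd : ∀ k, 1 ≤ d k) {bad : ℕ → Bool} {s : Ch} (h : Ok d bad s) :
    Ok d bad (Ch.nx d bad s) := by
  cases s with
  | Y j =>
    simp only [Ch.nx]
    split_ifs with h1
    · exact ⟨h1, hd _⟩
    · exact Bool.eq_false_iff.2 h1
  | T j k =>
    simp only [Ch.nx]
    split_ifs with h1 h2
    · exact ⟨h.1, h1⟩
    · exact ⟨h2, hd _⟩
    · exact Bool.eq_false_iff.2 h2

lemma ok_seq {d : ℕ → ℕ} (hd : ∀ k, 1 ≤ d k) (bad : ℕ → Bool) (i : ℕ) :
    Ok d bad (Ch.seq d bad i) := by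
  induction i with
  | zero =>
    simp only [Ch.seq]
    split_ifs with h1
    · exact ⟨h1, hd _⟩
    · exact Bool.eq_false_iff.2 h1
  | succ i ih => exact ok_nx hd ih

/-- two states of the chain: in different runs or in the same one -/
lemma seq_cases {d : ℕ → ℕ} (hd : ∀ k, 1 ≤ d k) (bad : ℕ → Bool) (l i : ℕ) (hli : l ≤ i) :
    lev (Ch.seq d bad l) < lev (Ch.seq d bad i) ∨ l = i ∨
      ∃ j k, Ch.seq d bad l = .T j k ∧ Ch.seq d bad i = .T j (k + (i - l)) := by
  induction i, hli using Nat.le_induction with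
  | base => exact Or.inr (Or.inl rfl)
  | succ i hi ih =>
    have hok := ok_seq hd bad i
    have e : Ch.seq d bad (i + 1) = Ch.nx d bad (Ch.seq d bad i) := rfl
    have step : lev (Ch.seq d bad i) < lev (Ch.seq d bad (i + 1)) ∨
        ∃ j k, Ch.seq d bad i = .T j k ∧ Ch.seq d bad (i + 1) = .T j (k + 1) := by
      rw [e]
      generalize Ch.seq d bad i = s at hok
      cases s with
      | Y j =>
        left
        simp only [Ch.nx]
        split_ifs <;> simp only [lev] <;> omega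
      | T j k =>
        simp only [Ch.nx]
        split_ifs with h1 h2
        · exact Or.inr ⟨j, k, rfl, rfl⟩
        · left; simp only [lev]; omega
        · left; simp only [lev]; omega
    rcases ih with h1 | h1 | ⟨j, k, h1, h2⟩
    · left
      rcases step with h2 | ⟨j, k, h2, h3⟩
      · omega
      · rw [h3]; rw [h2] at h1; exact h1
    · subst h1
      rcases step with h2 | ⟨j, k, h2, h3⟩
      · exact Or.inl h2
      · right; right
        refine ⟨j, k, h2, ?_⟩
        rw [h3]; congr 1; omega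
    · rcases step with h3 | ⟨j', k', h3, h4⟩
      · left
        rw [h1]; rw [h2] at h3; exact h3
      · right; right
        refine ⟨j, k, h1, ?_⟩
        rw [h2] at h3
        simp only [Ch.T.injEq] at h3
        rw [h4, ← h3.1, ← h3.2]; congr 1; omega

/-! ### lower bounds -/

/-- good level functions have derivatives bounded below, all levels -/
lemma low (hL : SLow) (hQ : SQ) (hD : SDt) (hC : SCoord) {δ κ : ℝ} (hδ : δ ≠ 0) (hκ1 : 1 ≤ κ)
    (hκ : κ < cc δ) {v : ℝ × ℝ} (hv : v ∈ Pool.Agent.H812.Tm.U) :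
    ∃ c : ℝ, 0 < c ∧ ∀ d : ℕ → ℕ, (∀ k, 1 ≤ d k) → ∀ m, |Yf δ d m v| ≤ κ →
      c * 2 ^ (m / 2) ≤ |dt (Yf δ d m) v| := by
  obtain ⟨c0, hc0, h0⟩ := hL δ κ hδ (by linarith) hκ
  obtain ⟨c1, hc1, h1⟩ := hQ δ κ hδ (by linarith) hκ
  have hv1 : |v.1| < 1 := hv
  have hv2 : v.1 ^ 2 < 1 := by
    have := sq_abs v.1
    nlinarith [abs_nonneg v.1]
  have hsq : 0 < √(1 - v.1 ^ 2) := Real.sqrt_pos.2 (by linarith)
  have hsq1 : √(1 - v.1 ^ 2) ≤ 1 := Real.sqrt_le_one.2 (by nlinarith [sq_nonneg v.1])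
  have hS : OnS δ (ze δ v) := (hC δ).1 v hv
  have hcc : κ ^ 2 < 1 + δ ^ 2 := by
    rw [← cc_sq]; nlinarith [cc_pos δ]
  have hdt : ∀ (d : ℕ → ℕ) (m : ℕ), |Vy d m (ze δ v)| ≤ |dt (Yf δ d m) v| := by
    intro d m
    rw [(hD δ d m).2.2 v hv, abs_div, abs_neg, abs_of_pos hsq, le_div_iff₀ hsq]
    exact mul_le_of_le_one_right (abs_nonneg _) hsq1
  have hc2 : 0 < √(1 + δ ^ 2 - κ ^ 2) := Real.sqrt_pos.2 (by linarith)
  refine ⟨min c0 (min c1 (√(1 + δ ^ 2 - κ ^ 2))), lt_min hc0 (lt_min hc1 hc2), ?_⟩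
  intro d hd m hm
  rcases Nat.lt_or_ge m 2 with hm2 | hm2
  · have hpow : (2 : ℝ) ^ (m / 2) = 1 := by
      rw [Nat.div_eq_of_lt hm2, pow_zero]
    rw [hpow, mul_one]
    refine le_trans ?_ (hdt d m)
    refine (min_le_right _ _).trans ?_
    obtain rfl | rfl : m = 0 ∨ m = 1 := by omega
    · refine (min_le_right _ _).trans ?_
      have e : Vy d 0 (ze δ v) = gX (ze δ v) := rfl
      rw [e]
      have e2 := hS.X2
      have hy : (ze δ v).y ^ 2 ≤ κ ^ 2 := by
        have h3 : |(ze δ v).y| ≤ κ := hm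
        rw [← sq_abs]
        exact pow_le_pow_left₀ (abs_nonneg _) h3 2
      have hz : (ze δ v).z ^ 2 < 1 := hv2
      rw [← Real.sqrt_sq_eq_abs]
      apply Real.sqrt_le_sqrt
      rw [e2]
      have h4 : 0 ≤ (κ ^ 2 - (ze δ v).y ^ 2) * (1 - (ze δ v).z ^ 2) :=
        mul_nonneg (by linarith) (by linarith)
      have h5 : 0 ≤ (κ ^ 2 - 1) * (ze δ v).z ^ 2 := mul_nonneg (by nlinarith) (sq_nonneg _)
      nlinarith
    · refine (min_le_left _ _).trans ?_
      exact (h1 (ze δ v) (d 0) hS (hd 0) (by show |v.1| ≤ κ; linarith) hm).1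
  · refine le_trans ?_ (h0 d hd m hm2 v hv hm)
    exact mul_le_mul_of_nonneg_right (min_le_left _ _) (by positivity)

/-- the digits of the first function of the run of a state -/
def fd (d : ℕ → ℕ) : Ch → ℕ → ℕ
  | .Y _ => d
  | .T j _ => Function.update d j 1

lemma half_pow (n : ℕ) : ((2 : ℝ) ^ (n / 2))⁻¹ ≤ 2 * (3 / 4) ^ n := by
  obtain ⟨m, rfl | rfl⟩ := Nat.even_or_odd' n
  · rw [Nat.mul_div_cancel_left m two_pos, pow_mul, ← inv_pow]
    have h1 : ((2 : ℝ)⁻¹) ^ m ≤ ((3 / 4) ^ 2) ^ m := pow_le_pow_left₀ (by norm_num) (by norm_num) m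
    have h2 : (0 : ℝ) < ((3 / 4) ^ 2) ^ m := by positivity
    linarith
  · have e : (2 * m + 1) / 2 = m := by omega
    rw [e, pow_succ, pow_mul, ← inv_pow]
    have h1 : ((2 : ℝ)⁻¹) ^ m ≤ ((3 / 4) ^ 2) ^ m := pow_le_pow_left₀ (by norm_num) (by norm_num) m
    have h2 : (0 : ℝ) < ((3 / 4) ^ 2) ^ m := by positivity
    linarith

theorem tChG (h1 : SRG) (h2 : SRGT) (_h3 : SRev) (h4 : SLow) (h5 : SQ) (h6 : SDt)
    (h7 : SCoord) : SChG := by
  intro δ κ κ2 d bad hδ hκ1 hκ hκ2 hd v hv hfit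
  obtain ⟨C1, hC1, g1⟩ := h1 δ κ hδ hκ1 hκ
  obtain ⟨C2', hC2', g2'⟩ := h2 δ κ κ2 hδ hκ1.le hκ hκ2
  obtain ⟨c, hc, hlow⟩ := low h4 h5 h6 h7 hδ hκ1.le hκ hv
  obtain ⟨C2, hC2, hC2''⟩ : ∃ C2 : ℝ, 1 ≤ C2 ∧ C2' ≤ C2 := ⟨max C2' 1, le_max_right _ _, le_max_left _ _⟩
  have hC2p : 0 < C2 := by linarith
  have hκ20 : 0 < κ2 := by linarith
  -- growth in the runs
  have g2 : ∀ j k l, k ≤ l → κ2 ≤ |Yf δ d j v| → |Tf δ d j k v| ≤ κ → |Tf δ d j l v| ≤ κ →
      |dt (Tf δ d j k) v| * κ2 ^ (l - k) ≤ C2 * |dt (Tf δ d j l) v| := by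
    intro j k l hkl a1 a2 a3
    refine (g2' d hd j k l hkl v hv a1 a2 a3).trans ?_
    exact mul_le_mul_of_nonneg_right hC2'' (abs_nonneg _)
  have hgood : ∀ s, Ok d bad s → |Yf δ d (lev s) v| ≤ κ := by
    intro s hs
    cases s with
    | Y j => exact hfit.1 j hs
    | T j k => exact hfit.1 (j + 1) (hfit.2.2 j hs.1)
  have hend : ∀ s, Ok d bad s → |dt (s.fn δ d) v| * κ2 ^ (aft d s) ≤
      C2 * |dt (Yf δ d (lev s)) v| := by
    intro s hs
    cases s with
    | Y j =>
      show |dt (Yf δ d j) v| * κ2 ^ 0 ≤ C2 * |dt (Yf δ d j) v|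
      rw [pow_zero, mul_one]
      exact le_mul_of_one_le_left (abs_nonneg _) hC2
    | T j k =>
      have hk : k < d j := hs.2
      have h8 := hfit.2.1 j hs.1
      have h9 := g2 j (k + 1) (d j) hk h8.1 (h8.2 _ hk) (h8.2 _ le_rfl)
      rw [Tf_last] at h9
      have e : d j - (k + 1) = d j - 1 - k := by omega
      rw [e] at h9
      exact h9
  -- the first function of the run
  have fd1 : ∀ s k, 1 ≤ fd d s k := by
    intro s
    cases s with
    | Y j => exact hd
    | T j k => exact update_ge hd j le_rfl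
  have fd2 : ∀ s, Ok d bad s → |Yf δ (fd d s) (lev s) v| ≤ κ := by
    intro s hs
    cases s with
    | Y j => exact hfit.1 j hs
    | T j k =>
      show |Yf δ (Function.update d j 1) (j + 1) v| ≤ κ
      rw [← Tf_eq]
      exact (hfit.2.1 j hs.1).2 1 (hd j)
  have fd3 : ∀ s m, m < lev s → Yf δ (fd d s) m = Yf δ d m := by
    intro s m hm
    cases s with
    | Y j => rfl
    | T j k =>
      funext w
      have hm' : m < j + 1 := hm
      show (orb (Function.update d j 1) (ze δ w) m).y = (orb d (ze δ w) m).y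
      rw [orb_congr (d := Function.update d j 1) (d' := d) _
        (fun i hi => Function.update_of_ne (by omega) _ _)]
  have fd4 : ∀ s, Ok d bad s → |dt (Yf δ (fd d s) (lev s)) v| * κ2 ^ (pos s) ≤
      C2 * |dt (s.fn δ d) v| := by
    intro s hs
    cases s with
    | Y j =>
      show |dt (Yf δ d j) v| * κ2 ^ 0 ≤ C2 * |dt (Yf δ d j) v|
      rw [pow_zero, mul_one]
      exact le_mul_of_one_le_left (abs_nonneg _) hC2
    | T j k =>
      have hk : k < d j := hs.2
      have h8 := hfit.2.1 j hs.1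
      have h9 := g2 j 1 (k + 1) (by omega) h8.1 (h8.2 _ (hd j)) (h8.2 _ hk)
      rw [Nat.add_sub_cancel] at h9
      show |dt (Yf δ (Function.update d j 1) (j + 1)) v| * κ2 ^ k ≤ C2 * |dt (Tf δ d j (k + 1)) v|
      rw [← Tf_eq]
      exact h9
  -- the lower bound
  have lb : ∀ s, Ok d bad s → c * 2 ^ (lev s / 2) * κ2 ^ (pos s) ≤ C2 * |dt (s.fn δ d) v| := by
    intro s hs
    refine le_trans ?_ (fd4 s hs)
    exact mul_le_mul_of_nonneg_right (hlow _ (fd1 s) _ (fd2 s hs)) (by positivity)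
  have hpos : ∀ s, Ok d bad s → 0 < |dt (s.fn δ d) v| := by
    intro s hs
    have h8 := lb s hs
    have h9 : 0 < c * 2 ^ (lev s / 2) * κ2 ^ (pos s) := by positivity
    exact (mul_pos_iff_of_pos_left hC2p).1 (lt_of_lt_of_le h9 h8)
  -- the constant
  set w0 : ℝ := |dt (Yf δ d 0) v| with hw0
  set C3 : ℝ := C2 * C1 * C2 + C2 + w0 * C2 / c with hC3
  have hw0' : 0 ≤ w0 := abs_nonneg _
  have hC3a : C2 * C1 * C2 ≤ C3 := by
    have : 0 ≤ w0 * C2 / c := by positivity
    linarith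
  have hC3b : w0 * C2 / c ≤ C3 := by
    have : 0 ≤ C2 * C1 * C2 := by positivity
    linarith
  have hC3c : C2 ≤ C3 := by
    have : 0 ≤ C2 * C1 * C2 := by positivity
    have : 0 ≤ w0 * C2 / c := by positivity
    linarith
  have hC3p : 0 < C3 := by linarith
  have far : ∀ s s', Ok d bad s → Ok d bad s' → lev s < lev s' →
      |dt (s.fn δ d) v| * κ2 ^ (aft d s) * 2 ^ ((lev s' - lev s) / 2) * κ2 ^ (pos s') ≤
        C3 * |dt (s'.fn δ d) v| := by
    intro s s' hs hs' hlt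
    rcases Nat.eq_zero_or_pos (lev s) with h0 | h0
    · obtain rfl : s = .Y 0 := by
        cases s with
        | Y j => have : j = 0 := h0; rw [this]
        | T j k => have : j + 1 = 0 := h0; omega
      show |dt (Yf δ d 0) v| * κ2 ^ 0 * 2 ^ ((lev s' - 0) / 2) * κ2 ^ (pos s') ≤ _
      rw [pow_zero, mul_one, Nat.sub_zero]
      have h8 := lb s' hs'
      have h9 : w0 / c * (c * 2 ^ (lev s' / 2) * κ2 ^ (pos s')) ≤ w0 / c * (C2 * |dt (s'.fn δ d) v|) :=
        mul_le_mul_of_nonneg_left h8 (by positivity)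
      calc w0 * 2 ^ (lev s' / 2) * κ2 ^ (pos s')
          = w0 / c * (c * 2 ^ (lev s' / 2) * κ2 ^ (pos s')) := by field_simp
        _ ≤ w0 / c * (C2 * |dt (s'.fn δ d) v|) := h9
        _ = w0 * C2 / c * |dt (s'.fn δ d) v| := by ring
        _ ≤ C3 * |dt (s'.fn δ d) v| := mul_le_mul_of_nonneg_right hC3b (abs_nonneg _)
    · have h8 := hend s hs
      have e := fd3 s' (lev s) hlt
      have h9 := g1 (fd d s') (fd1 s') (lev s) (lev s') h0 hlt.le v hv
        (by rw [e]; exact hgood s hs) (fd2 s' hs')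
      rw [e] at h9
      have h10 := fd4 s' hs'
      calc |dt (s.fn δ d) v| * κ2 ^ (aft d s) * 2 ^ ((lev s' - lev s) / 2) * κ2 ^ (pos s')
          ≤ (C2 * |dt (Yf δ d (lev s)) v|) * 2 ^ ((lev s' - lev s) / 2) * κ2 ^ (pos s') := by
            have : 0 ≤ (2 : ℝ) ^ ((lev s' - lev s) / 2) := by positivity
            exact mul_le_mul_of_nonneg_right (mul_le_mul_of_nonneg_right h8 this) (by positivity)
        _ = C2 * (|dt (Yf δ d (lev s)) v| * 2 ^ ((lev s' - lev s) / 2)) * κ2 ^ (pos s') := by ring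
        _ ≤ C2 * (C1 * |dt (Yf δ (fd d s') (lev s')) v|) * κ2 ^ (pos s') :=
            mul_le_mul_of_nonneg_right (mul_le_mul_of_nonneg_left h9 hC2p.le) (by positivity)
        _ = C2 * C1 * (|dt (Yf δ (fd d s') (lev s')) v| * κ2 ^ (pos s')) := by ring
        _ ≤ C2 * C1 * (C2 * |dt (s'.fn δ d) v|) := mul_le_mul_of_nonneg_left h10 (by positivity)
        _ = C2 * C1 * C2 * |dt (s'.fn δ d) v| := by ring
        _ ≤ C3 * |dt (s'.fn δ d) v| := mul_le_mul_of_nonneg_right hC3a (abs_nonneg _)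
  -- the ratio
  set r : ℝ := max (3 / 4) κ2⁻¹ with hr
  have hr0 : 0 < r := lt_of_lt_of_le (by norm_num) (le_max_left _ _)
  have hr1 : r < 1 := max_lt (by norm_num) (inv_lt_one_of_one_lt₀ hκ2)
  have hrk : ∀ n : ℕ, (κ2 ^ n)⁻¹ ≤ r ^ n := by
    intro n
    rw [← inv_pow]
    exact pow_le_pow_left₀ (inv_nonneg.2 hκ20.le) (le_max_right _ _) n
  have hr2 : ∀ n : ℕ, ((2 : ℝ) ^ (n / 2))⁻¹ ≤ 2 * r ^ n := by
    intro n
    refine (half_pow n).trans ?_
    have : (3 / 4 : ℝ) ^ n ≤ r ^ n := pow_le_pow_left₀ (by norm_num) (le_max_left _ _) n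
    linarith
  have hok : ∀ i, Ok d bad (Ch.seq d bad i) := ok_seq hd bad
  have main := chain_sums (W := fun i => |dt ((Ch.seq d bad i).fn δ d) v|)
    (M := fun i => lev (Ch.seq d bad i)) (a := fun i => aft d (Ch.seq d bad i))
    (k := fun i => pos (Ch.seq d bad i)) (C := 2 * C3) (r := r) (fun i => hpos _ (hok i))
    (by linarith) hr0 hr1 ?_
  · refine ⟨2 * C3 * ((1 - r)⁻¹ + (1 - r)⁻¹ ^ 2), ?_, ?_, main.1, main.2⟩
    · have h8 : 0 < (1 - r)⁻¹ := inv_pos.2 (by linarith)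
      positivity
    · intro i
      exact abs_pos.1 (hpos _ (hok i))
  · intro l i hli
    rcases seq_cases hd bad l i hli with h8 | h8 | ⟨j, k, h8, h9⟩
    · left
      refine ⟨h8, ?_⟩
      have h9 := far _ _ (hok l) (hok i) h8
      show |dt ((Ch.seq d bad l).fn δ d) v| ≤ 2 * C3 * (r ^ (lev (Ch.seq d bad i) - lev (Ch.seq d bad l)) *
        r ^ aft d (Ch.seq d bad l) * r ^ pos (Ch.seq d bad i)) * |dt ((Ch.seq d bad i).fn δ d) v|
      generalize |dt ((Ch.seq d bad l).fn δ d) v| = X at h9 ⊢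
      have hY : 0 ≤ |dt ((Ch.seq d bad i).fn δ d) v| := abs_nonneg _
      generalize |dt ((Ch.seq d bad i).fn δ d) v| = Y at h9 hY ⊢
      generalize aft d (Ch.seq d bad l) = a at h9 ⊢
      generalize pos (Ch.seq d bad i) = k at h9 ⊢
      generalize lev (Ch.seq d bad i) - lev (Ch.seq d bad l) = n at h9 ⊢
      have hA := hrk a
      have hB := hr2 n
      have hK := hrk k
      have pA : 0 < κ2 ^ a := by positivity
      have pB : (0 : ℝ) < 2 ^ (n / 2) := by positivity
      have pK : 0 < κ2 ^ k := by positivity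
      calc X = (X * κ2 ^ a * 2 ^ (n / 2) * κ2 ^ k) * ((κ2 ^ a)⁻¹ * (2 ^ (n / 2))⁻¹ * (κ2 ^ k)⁻¹) := by
            field_simp
        _ ≤ (C3 * Y) * ((κ2 ^ a)⁻¹ * (2 ^ (n / 2))⁻¹ * (κ2 ^ k)⁻¹) :=
            mul_le_mul_of_nonneg_right h9 (by positivity)
        _ ≤ (C3 * Y) * (r ^ a * (2 * r ^ n) * r ^ k) := by
            refine mul_le_mul_of_nonneg_left ?_ (mul_nonneg hC3p.le hY)
            exact mul_le_mul (mul_le_mul hA hB (by positivity) (by positivity)) hK (by positivity)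
              (by positivity)
        _ = 2 * C3 * (r ^ n * r ^ a * r ^ k) * Y := by ring
    · right
      subst h8
      refine ⟨rfl, by simp, by simp, ?_⟩
      show _ ≤ 2 * C3 * r ^ (l - l) * _
      rw [Nat.sub_self, pow_zero, mul_one]
      exact le_mul_of_one_le_left (abs_nonneg _) (by linarith)
    · right
      have hoi := hok i
      rw [h9] at hoi
      have hki : k + (i - l) < d j := hoi.2
      have h10 := hfit.2.1 j hoi.1
      have h11 := g2 j (k + 1) (k + (i - l) + 1) (by omega) h10.1 (h10.2 _ (by omega))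
        (h10.2 _ (by omega))
      have e : k + (i - l) + 1 - (k + 1) = i - l := by omega
      rw [e] at h11
      refine ⟨?_, ?_, ?_, ?_⟩
      · show lev _ = lev _
        rw [h8, h9]; rfl
      · show pos _ = pos _ + _
        rw [h8, h9]; rfl
      · show aft d _ = aft d _ + _
        rw [h8, h9]
        show d j - 1 - k = d j - 1 - (k + (i - l)) + (i - l)
        omega
      · show |dt ((Ch.seq d bad l).fn δ d) v| ≤ 2 * C3 * r ^ (i - l) *
          |dt ((Ch.seq d bad i).fn δ d) v|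
        rw [h8, h9]
        show |dt (Tf δ d j (k + 1)) v| ≤ 2 * C3 * r ^ (i - l) * |dt (Tf δ d j (k + (i - l) + 1)) v|
        have hY : 0 ≤ |dt (Tf δ d j (k + (i - l) + 1)) v| := abs_nonneg _
        generalize |dt (Tf δ d j (k + 1)) v| = X at h11 ⊢
        generalize |dt (Tf δ d j (k + (i - l) + 1)) v| = Y at h11 hY ⊢
        generalize i - l = n at h11 ⊢
        have pA : 0 < κ2 ^ n := by positivity
        calc X = (X * κ2 ^ n) * (κ2 ^ n)⁻¹ := by field_simp
          _ ≤ (C2 * Y) * (κ2 ^ n)⁻¹ := mul_le_mul_of_nonneg_right h11 (by positivity)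
          _ ≤ (C2 * Y) * r ^ n := mul_le_mul_of_nonneg_left (hrk n) (mul_nonneg hC2p.le hY)
          _ = C2 * (r ^ n * Y) := by ring
          _ ≤ 2 * C3 * (r ^ n * Y) := mul_le_mul_of_nonneg_right (by linarith) (by positivity)
          _ = 2 * C3 * r ^ n * Y := by ring

end Pool.Agent.H658.TmChG
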