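import Pool.Agent.H724.WE.WStm

/-!
# Project WE (helper724): `S_pumpLift` (WD12)
-/

set_option autoImplicit false

namespace Pool.Agent.H658.WE

open H724.WE
open scoped Classical

variable {α : Type} (X : Dat α)

lemma cls_rep (v : X.V) : X.cls (X.rep v) = v := by
  unfold Dat.cls Dat.rep
  have h : min (Quotient.out v).1 X.L = (Quotient.out v).1 :=
    Nat.min_eq_left (Nat.lt_succ_iff.1 (Quotient.out v).2)
  have h2 : (⟨min (Quotient.out v).1 X.L, Nat.lt_succ_of_le (Nat.min_le_right _ _)⟩ :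
      Fin (X.L + 1)) = Quotient.out v := Fin.ext h
  rw [h2]
  exact Quotient.out_eq v

lemma rep_le (v : X.V) : X.rep v ≤ X.L := Nat.lt_succ_iff.1 (Quotient.out v).2

lemma cls_eq {q q' : ℕ} (hq : q ≤ X.L) (hq' : q' ≤ X.L) (h : X.eqv q q') :
    X.cls q = X.cls q' := by
  unfold Dat.cls
  apply Quotient.sound
  change X.eqv (min q X.L) (min q' X.L)
  rw [Nat.min_eq_left hq, Nat.min_eq_left hq']
  exact h

lemma L_mem_Z0 : X.L ∈ X.Z0 := by
  unfold Dat.Z0
  rw [Finset.mem_filter]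
  exact ⟨Finset.mem_range.2 (Nat.lt_succ_self _), Or.inl X.L_mem⟩

lemma cls_mem_Z {q : ℕ} (hq : q ∈ X.Z0) : X.cls q ∈ X.Z := Finset.mem_image_of_mem _ hq

theorem pumpLift : S_pumpLift := by
  intro h1 h2 h3 α X y hy
  obtain ⟨⟨v, hv⟩, hZ, hcase⟩ := hy
  have hZ' : ∀ v ∈ X.Z, y v = 0 := hZ
  refine ⟨fun q => y (X.cls q), ⟨?_, ?_, ?_⟩, ?_⟩
  · intro q hq
    exact hZ' _ (cls_mem_Z X hq)
  · intro i o hl hm
    have ha : X.a i + o ≤ X.L := (Nat.add_le_add_left hm _).trans (X.S_le _ (X.am_mem i))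
    have hb : X.b i + o ≤ X.L := (Nat.add_le_add_left hm _).trans (X.S_le _ (X.bm_mem i))
    have he : X.eqv (X.a i + o) (X.b i + o) :=
      Conn.edge (src := sa X.a) (dst := sa X.b) (S := X.El) (e := (i, o)) ⟨hl, hm⟩
    change y (X.cls (X.a i + o)) = y (X.cls (X.b i + o))
    rw [cls_eq X ha hb he]
  · rcases hcase with h | ⟨i, s, o₁, o₂, h12, hr, hl, e1, e2, e3, e4, e5⟩
    · left
      intro i o hi hr hl
      exact h ⟨i, hi⟩ o hr hl
    · right
      refine ⟨i.1, s, o₁, o₂, i.2, h12, hr, hl, e1, e2, e3, ?_, ?_⟩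
      · intro k hk1 hk2 hmark
        refine e4 k hk1 hk2 ?_
        change (i, k) ∈ X.Mk
        unfold Dat.Mk
        rw [Finset.mem_filter, Finset.mem_product]
        refine ⟨⟨Finset.mem_univ _, ?_⟩, hmark⟩
        rw [Finset.mem_Ico]
        have hr' : X.r ≤ o₁ := hr
        have hl' : o₂ < X.l := hl
        change X.r ≤ k ∧ k < X.l
        omega
      · intro j o hj hro hol hn1 hn2
        refine e5 ⟨j, hj⟩ o hro hol ?_ ?_
        · intro h
          apply hn1
          have h' := Prod.ext_iff.1 h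
          exact Prod.ext (congrArg Subtype.val h'.1) h'.2
        · intro h
          apply hn2
          have h' := Prod.ext_iff.1 h
          exact Prod.ext (congrArg Subtype.val h'.1) h'.2
  · refine ⟨X.rep v, ?_, ?_⟩
    · refine lt_of_le_of_ne (rep_le X v) ?_
      intro h
      apply hv
      apply hZ'
      rw [← cls_rep X v, h]
      exact cls_mem_Z X (L_mem_Z0 X)
    · change y (X.cls (X.rep v)) ≠ 0
      rw [cls_rep]
      exact hv

end Pool.Agent.H658.WE
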